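import Pool.Agent.Helper70.GLu.Df

/-!
# GU-AQ: two elements commuting modulo a normalised subgroup (60-120 lines)

PROOF. `av_quot`: `Γ = Subgroup.normalizer N`, `N' = N.subgroupOf Γ` is normal in `Γ`; the images of `g` and `h` in `Γ ⧸ N'` commute, because `g h g⁻¹ h⁻¹ ∈ N`. By `HP.comp` and `HP.push`
(Helper13/Ded/Quot; compare the proof of `le_av_of_coset` in Helper94/Ded/Heil) the function `ϑ (x N) = ∑_{n ∈ N} θ (n x)` on the quotient is `HP`, `ϑ (x N) = |N| av (n ↦ θ (n x))`. `four_point` for the images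
of `g`, `h` and `ϑ (g h⁻¹) ≤ ϑ 1` (`le_one`) give `ϑ (g h) ≥ 2 ϑ g + 2 ϑ h - 3 ϑ 1`, and `ϑ 1 ≤ |N| θ 1`. Divide by `|N|`.
`dfc_of_quot`: by `av_quot` there is `n ∈ N` with `θ 1 - θ (n g h) ≤ ` the right side of `av_quot` (a minimal one); `g h` commutes with `N`, so `g h = n⁻¹ (n g h)` and `dfc_mul`:
`θ 1 - θ (g h) ≤ 2 (θ 1 - θ n⁻¹) + 2 (θ 1 - θ (n g h))`; the averages over the cosets are `θ g`, `θ h` by fusion (`hg1`, `hh1`).
-/

set_option autoImplicit false

open Pool.Agent.Helper13.Ded Pool.Agent.Helper94.Ded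

namespace Pool.Agent.Helper70.GLn

variable {G : Type*} [Group G] [Finite G] {θ : G → ℝ}

private lemma mem_norm56 (N : Subgroup G) (g : G) (hg : ∀ n ∈ N, g * n * g⁻¹ ∈ N) :
    g ∈ Subgroup.normalizer (N : Set G) := by
  rw [Subgroup.mem_normalizer_iff]
  intro x
  refine ⟨fun hx => hg x hx, fun hx => ?_⟩
  let f : N → N := fun n => ⟨g * n * g⁻¹, hg n n.2⟩
  have hf : Function.Injective f := by
    intro a b hab
    have h1 : g * (a : G) * g⁻¹ = g * (b : G) * g⁻¹ := congrArg Subtype.val hab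
    exact Subtype.ext (mul_left_cancel (mul_right_cancel h1))
  obtain ⟨n, hn⟩ := (Finite.injective_iff_surjective.1 hf) ⟨g * x * g⁻¹, hx⟩
  have h1 : g * (n : G) * g⁻¹ = g * x * g⁻¹ := congrArg Subtype.val hn
  have h2 : (n : G) = x := mul_left_cancel (mul_right_cancel h1)
  rw [← h2]
  exact n.2

private lemma av_le_h56 {P : Type*} [Finite P] [Nonempty P] (f : P → ℝ) (c : ℝ)
    (hf : ∀ p, f p ≤ c) : av f ≤ c := by
  have := Fintype.ofFinite P
  unfold av
  rw [finsum_eq_sum_of_fintype, Nat.card_eq_fintype_card, div_le_iff₀ (by exact_mod_cast Fintype.card_pos)]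
  calc ∑ p, f p ≤ ∑ _p : P, c := Finset.sum_le_sum fun p _ => hf p
    _ = c * Fintype.card P := by rw [Finset.sum_const, Finset.card_univ, nsmul_eq_mul, mul_comm]

private lemma av_const_h56 {P : Type*} [Finite P] [Nonempty P] (f : P → ℝ) (c : ℝ)
    (hf : ∀ p, f p = c) : av f = c := by
  have := Fintype.ofFinite P
  unfold av
  rw [finsum_eq_sum_of_fintype, Nat.card_eq_fintype_card, Finset.sum_congr rfl fun p _ => hf p,
    Finset.sum_const, Finset.card_univ, nsmul_eq_mul]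
  have : (Fintype.card P : ℝ) ≠ 0 := by exact_mod_cast Fintype.card_ne_zero
  field_simp

private lemma exists_ge_av_h56 {P : Type*} [Finite P] [Nonempty P] (f : P → ℝ) :
    ∃ p, av f ≤ f p := by
  by_contra hcon
  push Not at hcon
  have := Fintype.ofFinite P
  obtain ⟨p0, -, hp0⟩ := Finset.exists_max_image Finset.univ f Finset.univ_nonempty
  have h1 := av_le_h56 f (f p0) (fun p => hp0 p (Finset.mem_univ p))
  exact absurd (hcon p0) (not_lt.2 h1)

theorem av_quot (hθ : HP θ) (N : Subgroup G) (g h : G) (hg : ∀ n ∈ N, g * n * g⁻¹ ∈ N)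
    (hh : ∀ n ∈ N, h * n * h⁻¹ ∈ N) (hgh : g * h * g⁻¹ * h⁻¹ ∈ N) :
    θ 1 - av (fun n : N => θ (n * (g * h))) ≤
      2 * (θ 1 - av (fun n : N => θ (n * g))) + 2 * (θ 1 - av (fun n : N => θ (n * h))) := by
  classical
  set Γ := Subgroup.normalizer (N : Set G) with hΓ
  let N' : Subgroup Γ := N.subgroupOf Γ
  have hle : N ≤ Γ := Subgroup.le_normalizer
  have : N'.Normal := Subgroup.normal_in_normalizer
  let π : Γ →* Γ ⧸ N' := QuotientGroup.mk' N'
  have hπ : Function.Surjective π := QuotientGroup.mk'_surjective N'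
  have hP := (hθ.comp Γ.subtype).push π hπ
  set ϑ : Γ ⧸ N' → ℝ := push π (fun p : Γ => θ (Γ.subtype p)) with hϑ
  have hcard : (0 : ℝ) < Nat.card N := by exact_mod_cast Nat.card_pos
  have e : ∀ y : Γ, ϑ (π y) = Nat.card N * av (fun n : N => θ (n * (y : G))) := by
    intro y
    let e' : N ≃ {x : Γ // π x = π y} :=
      { toFun := fun a => ⟨⟨a, hle a.2⟩ * y, by
          rw [map_mul]
          have : π ⟨a, hle a.2⟩ = 1 := (QuotientGroup.eq_one_iff _).mpr a.2
          rw [this, one_mul]⟩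
        invFun := fun x => ⟨(x.1 * y⁻¹ : Γ), by
          have h5 : π (x.1 * y⁻¹) = 1 := by rw [map_mul, x.2, ← map_mul, mul_inv_cancel, map_one]
          have h6 : (x.1 * y⁻¹ : Γ) ∈ N' := (QuotientGroup.eq_one_iff _).mp h5
          exact h6⟩
        left_inv := fun a => by ext; simp
        right_inv := fun x => by ext; simp }
    rw [hϑ]
    unfold push av
    rw [← finsum_comp_equiv e', mul_div_cancel₀ _ hcard.ne']
    rfl
  let g' : Γ := ⟨g, mem_norm56 N g hg⟩
  let h' : Γ := ⟨h, mem_norm56 N h hh⟩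
  have hcomm : Commute (π g') (π h') := by
    have h1 : π (g' * h' * g'⁻¹ * h'⁻¹) = 1 := (QuotientGroup.eq_one_iff _).mpr hgh
    rw [map_mul, map_mul, map_mul, map_inv, map_inv] at h1
    have h2 := mul_inv_eq_one.1 h1
    exact mul_inv_eq_iff_eq_mul.1 h2
  have h4 := four_point hP hcomm
  have h5 := hP.le_one (π g' * (π h')⁻¹)
  have h6 : ϑ 1 = Nat.card N * av (fun n : N => θ (n * (1 : G))) := by
    rw [← map_one π]
    exact e 1
  have h7 : av (fun n : N => θ (n * (1 : G))) ≤ θ 1 :=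
    av_le_h56 _ _ fun n => hθ.le_one _
  have h8 := e g'
  have h9 := e h'
  have h10 : ϑ (π g' * π h') = Nat.card N * av (fun n : N => θ (n * (g * h))) := by
    rw [← map_mul]
    exact e (g' * h')
  change ϑ (π g') + ϑ (π h') ≤ ϑ 1 + (ϑ (π g' * π h') + ϑ (π g' * (π h')⁻¹)) / 2 at h4
  change ϑ (π g' * (π h')⁻¹) ≤ ϑ 1 at h5
  change ϑ (π g') = Nat.card N * av (fun n : N => θ (n * g)) at h8
  change ϑ (π h') = Nat.card N * av (fun n : N => θ (n * h)) at h9
  rw [h8, h9, h10] at h4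
  rw [h6] at h4 h5
  set c : ℝ := (Nat.card N : ℝ) with hc
  set A0 := av (fun n : N => θ (n * (1 : G)))
  set Ag := av (fun n : N => θ (n * g))
  set Ah := av (fun n : N => θ (n * h))
  set Agh := av (fun n : N => θ (n * (g * h)))
  have h11 : c * (2 * Ag + 2 * Ah - 3 * A0) ≤ c * Agh := by nlinarith
  have h12 := le_of_mul_le_mul_left h11 hcard
  linarith

theorem dfc_of_quot (hθ : HP θ) (N : Subgroup G) (g h : G) (hg : ∀ n ∈ N, g * n * g⁻¹ ∈ N)
    (hh : ∀ n ∈ N, h * n * h⁻¹ ∈ N) (hgh : g * h * g⁻¹ * h⁻¹ ∈ N)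
    (hg1 : ∀ n ∈ N, θ (n * g) = θ g) (hh1 : ∀ n ∈ N, θ (n * h) = θ h)
    (hc : ∀ n ∈ N, Commute n (g * h)) {η : ℝ} (hη : ∀ n ∈ N, θ 1 - θ n ≤ η) :
    θ 1 - θ (g * h) ≤ 2 * η + 4 * (θ 1 - θ g) + 4 * (θ 1 - θ h) := by
  have h1 := av_quot hθ N g h hg hh hgh
  rw [av_const_h56 (fun n : N => θ (n * g)) (θ g) (fun n => hg1 n n.2),
    av_const_h56 (fun n : N => θ (n * h)) (θ h) (fun n => hh1 n n.2)] at h1
  obtain ⟨n, hn⟩ := exists_ge_av_h56 (fun n : N => θ (n * (g * h)))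
  have h2 : Commute (n : G)⁻¹ (n * (g * h)) := by
    apply Commute.mul_right
    · exact (Commute.refl (n : G)).inv_left
    · exact (hc n n.2).inv_left
  have h3 := dfc_mul hθ h2
  rw [inv_mul_cancel_left] at h3
  have h4 := hη _ (N.inv_mem n.2)
  have hn' : av (fun n : N => θ (n * (g * h))) ≤ θ (n * (g * h)) := hn
  linarith

end Pool.Agent.Helper70.GLn
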