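import Pool.Agent.Helper70.GLn.CY

/-!
# GU-CS: decomposition of a semisimple element into fields (60-120 lines)

PROOF. As `cyclic` (GLn/CY, copy its proof), from `Module.equiv_directSum_of_isTorsion`: the summands are `F[X] ⧸ (p i ^ e i)`, `p i` irreducible, `e i ≥ 1` after removing zero summands. `p i ^ e i` divides `X ^ m - 1`
(which kills `y`), and `X ^ m - 1` is separable, hence squarefree, because `m` is prime to `q = |F|` (`m ≠ 0` in `F`; `X_pow_sub_one_separable_iff` or `separable_X_pow_sub_C`), so `e i = 1`. Make `p i` monic. The degree is at most `m` as `p i` divides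
`X ^ m - 1 ≠ 0`. `m ≥ 1` because it is prime to `q ≥ 2`... (`m = 0` is impossible).
(Alternatively: from `cyclic` and the Chinese remainder theorem, or by induction over invariant subspaces as in GLn/FR.)
-/

set_option autoImplicit false

open Module Polynomial

namespace Pool.Agent.Helper70.GLn

private lemma key_h12 {F V : Type} [Field F] [AddCommGroup V] [Module F V] (x : V →ₗ[F] V)
    {ι : Type} [Fintype ι] (Q : ι → Type) [∀ i, AddCommGroup (Q i)] [∀ i, Module F (Q i)]
    (D : V ≃ₗ[F] ((i : ι) → Q i)) (X' : (i : ι) → Q i → Q i) (hD : ∀ v i, D (x v) i = X' i (D v i))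
    (p : ι → Prop) (hp : ∀ i, ¬ p i → Subsingleton (Q i)) (g : ι → F[X])
    (E : (i : ι) → Q i ≃ₗ[F] AdjoinRoot (g i))
    (hE : ∀ i q, E i (X' i q) = AdjoinRoot.root (g i) * E i q) :
    ∃ (N : ℕ) (σ : Fin N → ι) (e : V ≃ₗ[F] ((k : Fin N) → AdjoinRoot (g (σ k)))),
      (∀ k, p (σ k)) ∧ ∀ v k, e (x v) k = AdjoinRoot.root (g (σ k)) * e v k := by
  classical
  have : Finite {i // p i} := inferInstance
  obtain ⟨N, ⟨s⟩⟩ := Finite.exists_equiv_fin {i // p i}
  let σ : Fin N ≃ {i // p i} := s.symm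
  let L : ((i : ι) → Q i) →ₗ[F] ((k : Fin N) → AdjoinRoot (g (σ k).1)) :=
    LinearMap.pi (fun k => (E (σ k).1 : Q (σ k).1 →ₗ[F] AdjoinRoot (g (σ k).1)) ∘ₗ
      LinearMap.proj (σ k).1)
  have hL : ∀ f k, L f k = E (σ k).1 (f (σ k).1) := fun f k => rfl
  have hinj : Function.Injective L := by
    rw [← LinearMap.ker_eq_bot, LinearMap.ker_eq_bot']
    intro f hf
    funext i
    by_cases hi : p i
    · have h1 := congrFun hf (σ.symm ⟨i, hi⟩)
      have h2 : L f (σ.symm ⟨i, hi⟩) = 0 := h1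
      rw [hL, LinearEquiv.map_eq_zero_iff] at h2
      have h3 : ∀ j : {i // p i}, j = ⟨i, hi⟩ → f j.1 = 0 → f i = 0 := by
        rintro _ rfl h
        exact h
      exact h3 _ (σ.apply_symm_apply _) h2
    · exact @Subsingleton.elim _ (hp i hi) _ _
  have hsurj : Function.Surjective L := by
    intro y
    let y' : (j : {i // p i}) → AdjoinRoot (g j.1) :=
      Equiv.piCongrLeft (fun j : {i // p i} => AdjoinRoot (g j.1)) σ y
    have hy' : ∀ k, y' (σ k) = y k := fun k =>
      Equiv.piCongrLeft_apply_apply (fun j : {i // p i} => AdjoinRoot (g j.1)) σ y k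
    refine ⟨fun i => if h : p i then (E i).symm (y' ⟨i, h⟩) else 0, ?_⟩
    funext k
    rw [hL, dif_pos (σ k).2, LinearEquiv.apply_symm_apply]
    exact hy' k
  refine ⟨N, fun k => (σ k).1, D.trans (LinearEquiv.ofBijective L ⟨hinj, hsurj⟩),
    fun k => (σ k).2, fun v k => ?_⟩
  show E (σ k).1 (D (x v) (σ k).1) = AdjoinRoot.root (g (σ k).1) * E (σ k).1 (D v (σ k).1)
  rw [hD, hE]

private lemma pow_coe_h12 {F V : Type} [Field F] [AddCommGroup V] [Module F V] (y : V ≃ₗ[F] V)
    (k : ℕ) : ((y ^ k : V ≃ₗ[F] V) : V →ₗ[F] V) = (y : V →ₗ[F] V) ^ k := by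
  induction k with
  | zero => rfl
  | succ k ihk =>
    rw [pow_succ, pow_succ, ← ihk]
    rfl

theorem cyclic_ss {F V : Type} [Field F] [Finite F] [AddCommGroup V] [Module F V] [Finite V]
    (y : V ≃ₗ[F] V) {m : ℕ} (hm : y ^ m = 1) (hc : m.Coprime (Nat.card F)) :
    ∃ (N : ℕ) (g : Fin N → F[X]) (e : V ≃ₗ[F] ((i : Fin N) → AdjoinRoot (g i))),
      (∀ i, (g i).Monic) ∧ (∀ i, Irreducible (g i)) ∧ (∀ i, (g i).natDegree ≤ m) ∧
      ∀ v i, e (y v) i = AdjoinRoot.root (g i) * e v i := by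
  classical
  have := Fintype.ofFinite F
  have hym : (y : V →ₗ[F] V) ^ m = 1 := by
    rw [← pow_coe_h12, hm]
    rfl
  have hmF : (m : F) ≠ 0 := by
    obtain ⟨p, hp⟩ := CharP.exists F
    have hpp : p.Prime := CharP.char_is_prime F p
    intro h0
    rw [CharP.cast_eq_zero_iff F p] at h0
    have h1 : p ∣ Nat.card F := by
      rw [Nat.card_eq_fintype_card]
      obtain ⟨n, _, hn⟩ := FiniteField.card F p
      rw [hn]
      exact dvd_pow_self p n.ne_zero
    have h2 := Nat.dvd_gcd h0 h1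
    rw [hc.gcd_eq_one] at h2
    exact hpp.one_lt.ne' (Nat.dvd_one.1 h2)
  have hm0 : 0 < m := Nat.pos_of_ne_zero fun h0 => hmF (by rw [h0, Nat.cast_zero])
  have hsep : (X ^ m - 1 : F[X]).Separable := X_pow_sub_one_separable_iff.2 hmF
  obtain ⟨ι, hι, p, hp, n, ⟨h⟩⟩ := Module.equiv_directSum_of_isTorsion
    (Module.AEval.isTorsion_of_finiteDimensional F V (y : V →ₗ[F] V))
  let D' : (DirectSum ι fun i => F[X] ⧸ Submodule.span F[X] {p i ^ n i}) ≃ₗ[F[X]]
      ((i : ι) → F[X] ⧸ Submodule.span F[X] {p i ^ n i}) :=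
    DirectSum.linearEquivFunOnFintype F[X] ι _
  let D : V ≃ₗ[F] ((i : ι) → F[X] ⧸ Submodule.span F[X] {p i ^ n i}) :=
    (Module.AEval'.of (y : V →ₗ[F] V)).trans ((h.trans D').restrictScalars F)
  have hpn : ∀ i, p i ^ n i ≠ 0 := fun i => pow_ne_zero _ (hp i).ne_zero
  let g : ι → F[X] := fun i => p i ^ n i * C (p i ^ n i).leadingCoeff⁻¹
  have hg : ∀ i, (g i).Monic := fun i => monic_mul_leadingCoeff_inv (hpn i)
  have hass : ∀ i, Associated (p i ^ n i) (g i) := by
    intro i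
    have hu : IsUnit (C (p i ^ n i).leadingCoeff⁻¹) := by
      rw [isUnit_C]
      exact (inv_ne_zero (leadingCoeff_ne_zero.2 (hpn i))).isUnit
    exact (associated_mul_unit_right _ _ hu)
  have hgs : ∀ i, Submodule.span F[X] {p i ^ n i} = Ideal.span {g i} := fun i =>
    Ideal.span_singleton_eq_span_singleton.2 (hass i)
  obtain ⟨N, σ, e, he1, he2⟩ := key_h12 (F := F) (V := V) (y : V →ₗ[F] V)
    (fun i => F[X] ⧸ Submodule.span F[X] {p i ^ n i}) D (fun i q => (X : F[X]) • q) (by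
      intro v i
      show D' (h (Module.AEval'.of (y : V →ₗ[F] V) ((y : V →ₗ[F] V) v))) i =
        (X : F[X]) • D' (h (Module.AEval'.of (y : V →ₗ[F] V) v)) i
      rw [← Module.AEval'.X_smul_of, map_smul, map_smul]
      rfl) (fun i => n i ≠ 0) (by
      intro i hi
      have h0 : n i = 0 := not_not.1 hi
      show Subsingleton (F[X] ⧸ Submodule.span F[X] {p i ^ n i})
      rw [h0, pow_zero]
      refine ⟨fun a b => ?_⟩
      obtain ⟨a, rfl⟩ := Submodule.Quotient.mk_surjective _ a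
      obtain ⟨b, rfl⟩ := Submodule.Quotient.mk_surjective _ b
      rw [Submodule.Quotient.eq, Submodule.mem_span_singleton]
      exact ⟨a - b, by rw [smul_eq_mul, mul_one]⟩) g
    (fun i => (Submodule.quotEquivOfEq _ _ (hgs i)).restrictScalars F) (by
      intro i q
      obtain ⟨a, rfl⟩ := Submodule.Quotient.mk_surjective _ q
      show AdjoinRoot.mk (g i) (X * a) = AdjoinRoot.root (g i) * AdjoinRoot.mk (g i) a
      rw [map_mul, AdjoinRoot.mk_X])
  have hdvd : ∀ k, g (σ k) ∣ X ^ m - 1 := fun k =>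
    cyclic_dvd (g := fun k => g (σ k)) e he2 (f := X ^ m - 1) (by simp [hym]) k
  have hsq : ∀ k, Squarefree (g (σ k)) := fun k => (hsep.of_dvd (hdvd k)).squarefree
  have hn1 : ∀ k, n (σ k) = 1 := by
    intro k
    by_contra hne
    have h2 : 2 ≤ n (σ k) := by
      have := he1 k
      omega
    have h3 : p (σ k) * p (σ k) ∣ g (σ k) := by
      refine Dvd.dvd.trans ?_ (hass (σ k)).dvd
      rw [← pow_two]
      exact pow_dvd_pow _ h2
    exact (hp (σ k)).not_isUnit (hsq k _ h3)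
  refine ⟨N, fun k => g (σ k), e, fun k => hg _, fun k => ?_, fun k => ?_, he2⟩
  · have h4 := hass (σ k)
    rw [hn1 k, pow_one] at h4
    exact h4.irreducible_iff.1 (hp (σ k))
  · have h5 : (X ^ m - 1 : F[X]) ≠ 0 := (monic_X_pow_sub_C (1 : F) hm0.ne').ne_zero
    have h6 : (X ^ m - 1 : F[X]).natDegree = m := natDegree_X_pow_sub_C (n := m) (r := (1 : F))
    rw [← h6]
    exact natDegree_le_of_dvd (hdvd k) h5

end Pool.Agent.Helper70.GLn
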