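import Pool.Agent.Helper70.GLu.FD
import Pool.Agent.Helper70.GLu.CS

/-!
# GU-C0: all semisimple elements of bounded order under `Ctl` (40-80 lines)

PROOF. `cyclic_ss` for `y`; `E i = AdjoinRoot (g i)` is a field (`Fact (Irreducible (g i))`, `AdjoinRoot.instField`), finite, of dimension `natDegree (g i) ≤ m` over `F` (`AdjoinRoot.powerBasis'`, `finrank`), `a i = root (g i)`, a unit because
`y` is injective (if the root were `0` then `y` would kill the `i`-th coordinate). `ctl_field`.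
-/

set_option autoImplicit false

open Module Pool.Agent.Helper13.Ded

namespace Pool.Agent.Helper70.GLn

theorem ctl_ss (F : Type) [Field F] [Finite F] (m : ℕ) : ∃ C : ℝ, 0 ≤ C ∧
    ∀ (P : Type) [AddCommGroup P] [Module F P] [Finite P] (s : ℕ) (η : ℝ)
    (f : (P ≃ₗ[F] P) → ℝ), 2 ≤ s → Ctl F P s η f →
    ∀ y : P ≃ₗ[F] P, y ^ m = 1 → m.Coprime (Nat.card F) → f 1 - f y ≤ C * η := by
  obtain ⟨C, hC0, hC⟩ := ctl_field F m
  refine ⟨C, hC0, ?_⟩
  intro P _ _ _ s η f hs hctl y hy hcop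
  obtain ⟨N, g, e, hmon, hirr, hdeg, he⟩ := cyclic_ss y hy hcop
  haveI : ∀ i, Fact (Irreducible (g i)) := fun i => ⟨hirr i⟩
  haveI hmf : ∀ i, Module.Finite F (AdjoinRoot (g i)) := fun i =>
    (AdjoinRoot.powerBasis' (hmon i)).finite
  haveI hfin : ∀ i, Finite (AdjoinRoot (g i)) := fun i => Module.finite_of_finite F
  have hfr : ∀ i, finrank F (AdjoinRoot (g i)) ≤ m := fun i => by
    rw [(AdjoinRoot.powerBasis' (hmon i)).finrank]
    exact hdeg i
  have hroot : ∀ i, AdjoinRoot.root (g i) ≠ 0 := by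
    intro i h0
    have h1 := he (y.symm (e.symm fun _ => 1)) i
    rw [h0, zero_mul, y.apply_symm_apply, e.apply_symm_apply] at h1
    exact one_ne_zero h1
  exact hC P s η f hs hctl (fun i => AdjoinRoot (g i)) hfr e
    (fun i => Units.mk0 _ (hroot i)) y (fun v i => he v i)

end Pool.Agent.Helper70.GLn
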