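import Pool.Agent.Helper70.GLu.WB

/-!
# GU-CB: restriction to a small subspace satisfies `Ctl` (60-120 lines)

PROOF. `f g = Φ (cj e (fs Q g))`, `q = |F|`, `C = q + 2`; `η ≥ 0` from `hu` with `w = 1` (`s ≥ q ≥ 2`). `hp`: `HP.comp`. `unip`: `cj e (fs Q w)` minus `1` is `e⁻¹ ((w - 1) × 0) e`, its `s`-th power is zero. `refl`: for `e' : P ≃ F × P₂` one has
`cj e (fs Q (cj e' (fs P₂ (scal c)))) = cj e'' (fs (P₂ × Q) (scal c))` with `e'' : A ≃ F × (P₂ × Q)` (`e` followed by `e' × 1` and the associativity). `frob`: `frob_big`, and `nn f (zpowers x) = nn Φ (zpowers (cj e (fs Q x)))` (the homomorphism `g ↦ cj e (fs Q g)` is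
injective and maps `zpowers x` onto `zpowers` of the image; `av_comp_surj`). `bunch`: for `e' : P ≃ P₁ × P₂` use `bunch_big` with `e'' : A ≃ P₁ × (P₂ × Q)`, `q * finrank P₁ ≤ q * finrank P ≤ finrank A`.
-/

set_option autoImplicit false

open Module Pool.Agent.Helper13.Ded

namespace Pool.Agent.Helper70.GLn

private lemma nn_comp53 {G H : Type*} [Group G] [Group H] [Finite G] [Finite H] (ψ : G →* H)
    (Φ : H → ℝ) (x : G) :
    nn (fun g => Φ (ψ g)) (Subgroup.zpowers x) = nn Φ (Subgroup.zpowers (ψ x)) := by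
  have h := av_comp_surj (ψ.subgroupMap (Subgroup.zpowers x))
    (ψ.subgroupMap_surjective _) (fun k => Φ (k : H))
  unfold nn
  rw [← MonoidHom.map_zpowers, ← h]
  show Φ (ψ 1) - _ = _
  rw [map_one]
  rfl

private lemma finGL53 (F V : Type) [Field F] [AddCommGroup V] [Module F V] [Finite V] :
    Finite (V ≃ₗ[F] V) :=
  Finite.of_injective (fun g : V ≃ₗ[F] V => (g : V → V)) DFunLike.coe_injective

private lemma assoc53 {F A P Q P₁ P₂ : Type} [Field F] [AddCommGroup A] [Module F A]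
    [AddCommGroup P] [Module F P] [AddCommGroup Q] [Module F Q] [AddCommGroup P₁] [Module F P₁]
    [AddCommGroup P₂] [Module F P₂] (e : A ≃ₗ[F] P × Q) (e' : P ≃ₗ[F] P₁ × P₂)
    (g : P₁ ≃ₗ[F] P₁) :
    cj e (fs Q (cj e' (fs P₂ g))) = cj (e.trans ((LinearEquiv.prodCongr e'
      (LinearEquiv.refl F Q)).trans (LinearEquiv.prodAssoc F P₁ P₂ Q))) (fs (P₂ × Q) g) :=
  LinearEquiv.ext fun _ => rfl

private lemma unip53 {F A P Q : Type} [Field F] [AddCommGroup A] [Module F A]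
    [AddCommGroup P] [Module F P] [AddCommGroup Q] [Module F Q] (e : A ≃ₗ[F] P × Q)
    (w : P ≃ₗ[F] P) {s : ℕ} (hs : 1 ≤ s) (hw : ((w : P →ₗ[F] P) - LinearMap.id) ^ s = 0) :
    (((cj e (fs Q w) : A ≃ₗ[F] A) : A →ₗ[F] A) - LinearMap.id) ^ s = 0 := by
  have h1 : ∀ a : A, (((cj e (fs Q w) : A ≃ₗ[F] A) : A →ₗ[F] A) - LinearMap.id : A →ₗ[F] A) a =
      e.symm (((w : P →ₗ[F] P) - LinearMap.id : P →ₗ[F] P) (e a).1, 0) := by
    intro a
    show e.symm (w (e a).1, (e a).2) - a = e.symm (w (e a).1 - (e a).1, 0)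
    rw [← e.symm_apply_apply a, ← map_sub, e.symm_apply_apply]
    congr 1
    ext
    · rfl
    · exact sub_self _
  have h2 : ∀ k : ℕ, ∀ a : A,
      ((((cj e (fs Q w) : A ≃ₗ[F] A) : A →ₗ[F] A) - LinearMap.id) ^ (k + 1) : A →ₗ[F] A) a =
      e.symm ((((w : P →ₗ[F] P) - LinearMap.id) ^ (k + 1) : P →ₗ[F] P) (e a).1, 0) := by
    intro k
    induction k with
    | zero =>
      intro a
      rw [zero_add, pow_one, pow_one]
      exact h1 a
    | succ k ih =>
      intro a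
      rw [pow_succ', Module.End.mul_apply, ih, h1, e.apply_symm_apply, pow_succ' _ (k + 1),
        Module.End.mul_apply]
  obtain ⟨k, rfl⟩ : ∃ k, s = k + 1 := ⟨s - 1, by omega⟩
  ext a
  rw [h2, hw]
  show e.symm (0, 0) = 0
  exact map_zero _

theorem ctl_of_big {F A P Q : Type} [Field F] [Finite F] [AddCommGroup A] [Module F A] [Finite A]
    [AddCommGroup P] [Module F P] [AddCommGroup Q] [Module F Q] (e : A ≃ₗ[F] P × Q)
    (hd : Nat.card F * finrank F P ≤ finrank F A) {s : ℕ} (hs : Nat.card F ≤ s) {η : ℝ}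
    {Φ : (A ≃ₗ[F] A) → ℝ} (hΦ : HP Φ)
    (hu : ∀ w : A ≃ₗ[F] A, ((w : A →ₗ[F] A) - LinearMap.id) ^ s = 0 → Φ 1 - Φ w ≤ η)
    (hr : ∀ (A₂ : Type) [AddCommGroup A₂] [Module F A₂] (e' : A ≃ₗ[F] F × A₂) (c : Fˣ),
      Φ 1 - Φ (cj e' (fs A₂ (scal F c))) ≤ η) :
    Ctl F P s ((Nat.card F + 2) * η) (fun g => Φ (cj e (fs Q g))) := by
  classical
  have : Finite P := Finite.of_injective (fun p : P => e.symm (p, 0)) fun a b h => by
    have := e.symm.injective h
    exact (Prod.mk.inj this).1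
  have : Finite Q := Finite.of_injective (fun p : Q => e.symm (0, p)) fun a b h => by
    have := e.symm.injective h
    exact (Prod.mk.inj this).2
  have := finGL53 F P
  have := finGL53 F A
  have hq2 : 2 ≤ Nat.card F := Finite.one_lt_card
  have hq2' : (2 : ℝ) ≤ Nat.card F := by exact_mod_cast hq2
  have hη : 0 ≤ η := by
    have h1 := hu 1 (by
      rw [show ((1 : A ≃ₗ[F] A) : A →ₗ[F] A) - LinearMap.id = 0 from sub_self _]
      exact zero_pow (by omega))
    rwa [sub_self] at h1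
  refine ⟨HP.comp hΦ ((cj e).comp (fs Q)), ?_, ?_, ?_, ?_⟩
  · intro w hw
    have h1 := hu _ (unip53 e w (by omega) hw)
    show Φ (cj e (fs Q 1)) - Φ (cj e (fs Q w)) ≤ _
    rw [map_one, map_one]
    nlinarith
  · intro P₂ _ _ e' c
    show Φ (cj e (fs Q 1)) - Φ (cj e (fs Q (cj e' (fs P₂ (scal F c))))) ≤ _
    rw [assoc53, map_one, map_one]
    have h1 := hr (P₂ × Q) (e.trans ((LinearEquiv.prodCongr e'
      (LinearEquiv.refl F Q)).trans (LinearEquiv.prodAssoc F F P₂ Q))) c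
    nlinarith
  · intro y τ j hτ
    have h1 := frob_big e hd hs hΦ hu y τ j hτ
    have h2 := nn_comp53 ((cj e).comp (fs Q)) Φ (y ^ j * y⁻¹)
    have h3 : nn (fun g => Φ (cj e (fs Q g))) (Subgroup.zpowers (y ^ j * y⁻¹)) =
      nn Φ (Subgroup.zpowers (cj e (fs Q (y ^ j * y⁻¹)))) := h2
    rw [h3]
    nlinarith
  · intro P₁ P₂ _ _ _ _ e' c hq
    show Φ (cj e (fs Q 1)) - Φ (cj e (fs Q (cj e' (fs P₂ (scal P₁ c))))) ≤ _
    rw [assoc53, map_one, map_one]
    have : Finite P₁ := Finite.of_injective (fun p : P₁ => e'.symm (p, 0)) fun a b h => by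
      have := e'.symm.injective h
      exact (Prod.mk.inj this).1
    have : Finite P₂ := Finite.of_injective (fun p : P₂ => e'.symm (0, p)) fun a b h => by
      have := e'.symm.injective h
      exact (Prod.mk.inj this).2
    have hf : finrank F P₁ ≤ finrank F P := by
      rw [e'.finrank_eq, finrank_prod]
      omega
    have h1 := bunch_big (e.trans ((LinearEquiv.prodCongr e'
      (LinearEquiv.refl F Q)).trans (LinearEquiv.prodAssoc F P₁ P₂ Q)))
      (le_trans (Nat.mul_le_mul_left _ hf) hd) hq hs hΦ hu c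
    nlinarith

end Pool.Agent.Helper70.GLn
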