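import Pool.Agent.Helper70.GLu.CB
import Pool.Agent.Helper70.GLu.C0
import Pool.Agent.Helper70.GLn.DC

/-!
# GU-CT: semisimple elements of the general linear group (80-140 lines)

PROOF. `q = |F|`, `R = 2 q m`. `pieces` (GLn/DC) with `p := q`: `y ∈ closure (range z)`, the `z r` (`r < 2 q m`) commute, `z r` preserves `P r` and is `1` on `Q r`, `q * finrank (P r) ≤ finrank A`, `z r ^ m = 1`. With `e : A ≃ P r × Q r` (`Submodule.prodEquivOfIsCompl` inverse) one has
`z r = cj e (fs (Q r) (z r restricted to P r))`, the same for the powers of `z r`. `ctl_of_big` and `ctl_ss`: every power of `z r` has defect at most `C₁ (q + 2) η`, so `nn Φ (zpowers (z r)) ≤ C₁ (q + 2) η` (average). `nn_prod_le` and `sub_le_card_nn` (`y` has at most `m` powers):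
`Φ 1 - Φ y ≤ m * (2 q m) * C₁ (q + 2) η`.
-/

set_option autoImplicit false

open Module Pool.Agent.Helper13.Ded

namespace Pool.Agent.Helper70.GLn

private lemma av_ge86 {P : Type*} [Finite P] [Nonempty P] (f : P → ℝ) (c : ℝ) (hf : ∀ p, c ≤ f p) : c ≤ av f := by
  classical
  have := Fintype.ofFinite P
  unfold av
  have hc : (0 : ℝ) < Nat.card P := by exact_mod_cast Nat.card_pos
  rw [finsum_eq_sum_of_fintype, le_div_iff₀ hc]
  calc c * Nat.card P = ∑ _p : P, c := by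
        rw [Finset.sum_const, Finset.card_univ, Nat.card_eq_fintype_card, nsmul_eq_mul, mul_comm]
    _ ≤ ∑ p, f p := Finset.sum_le_sum fun p _ => hf p

theorem ctl_gl (F : Type) [Field F] [Finite F] {m : ℕ} (hm : 0 < m) (hc : m.Coprime (Nat.card F)) :
    ∃ (C : ℝ) (R : ℕ), 0 ≤ C ∧ ∀ (A : Type) [AddCommGroup A] [Module F A] [Finite A] (s : ℕ) (η : ℝ)
    (Φ : (A ≃ₗ[F] A) → ℝ), Nat.card F ≤ s → HP Φ → R ≤ finrank F A →
    (∀ w : A ≃ₗ[F] A, ((w : A →ₗ[F] A) - LinearMap.id) ^ s = 0 → Φ 1 - Φ w ≤ η) →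
    (∀ (A₂ : Type) [AddCommGroup A₂] [Module F A₂] (e' : A ≃ₗ[F] F × A₂) (c : Fˣ),
      Φ 1 - Φ (cj e' (fs A₂ (scal F c))) ≤ η) →
    ∀ y : A ≃ₗ[F] A, y ^ m = 1 → Φ 1 - Φ y ≤ C * η := by
  classical
  obtain ⟨C₁, hC₁, hss⟩ := ctl_ss F m
  have hq2 : 2 ≤ Nat.card F := by
    have := Finite.one_lt_card (α := F)
    omega
  refine ⟨m * ((2 * Nat.card F * m : ℕ) * (C₁ * (Nat.card F + 2))), 2 * Nat.card F * m, by positivity, ?_⟩
  intro A _ _ _ s η Φ hs hΦ hR hu hr y hy
  obtain ⟨z, P, Q, hcomm, hcompl, hPz, hQz, hfin, hzm, hcl⟩ := pieces y hy hm (p := Nat.card F) (by omega) hR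
  have key : ∀ r, nn Φ (Subgroup.zpowers (z r)) ≤ C₁ * ((Nat.card F + 2) * η) := by
    intro r
    obtain ⟨e, he⟩ : ∃ e : A ≃ₗ[F] (P r) × (Q r), ∀ (p : P r) (t : Q r), e.symm (p, t) = (p : A) + t :=
      ⟨(Submodule.prodEquivOfIsCompl (P r) (Q r) (hcompl r)).symm, fun p t => by
        rw [LinearEquiv.symm_symm]
        rfl⟩
    have hctl := ctl_of_big e (hfin r) hs hΦ hu hr
    have hfd : FiniteDimensional F (P r) := inferInstance
    obtain ⟨g, hg⟩ : ∃ g : (P r) ≃ₗ[F] (P r), ∀ v : P r, ((g v : P r) : A) = z r (v : A) := by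
      refine ⟨LinearEquiv.ofInjectiveEndo (((z r : A →ₗ[F] A)).restrict (fun v hv => hPz r v hv)) ?_, fun v => rfl⟩
      intro v w h
      apply Subtype.ext
      have := congrArg Subtype.val h
      exact (z r).injective this
    have hcj : cj e (fs (Q r) g) = z r := by
      ext v
      obtain ⟨⟨p, t⟩, hpt⟩ : ∃ x : (P r) × (Q r), e.symm x = v := ⟨e v, e.symm_apply_apply v⟩
      have hev : e v = (p, t) := by rw [← hpt, e.apply_symm_apply]
      rw [cj_apply, hev, fs_apply, he, hg, ← hpt, he, map_add, hQz r t t.2]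
    have hgm : g ^ m = 1 := by
      have hpow : ∀ (k : ℕ) (v : P r), (((g ^ k : (P r) ≃ₗ[F] (P r)) v : P r) : A) = (z r ^ k : A ≃ₗ[F] A) (v : A) := by
        intro k
        induction k with
        | zero => intro v; rfl
        | succ k ih =>
          intro v
          rw [pow_succ, pow_succ]
          show (((g ^ k : (P r) ≃ₗ[F] (P r)) (g v) : P r) : A) = (z r ^ k : A ≃ₗ[F] A) (z r (v : A))
          rw [ih, hg]
      ext v
      rw [hpow m v, hzm r]
      rfl
    have hnn : nn Φ (Subgroup.zpowers (z r)) = Φ 1 - av (fun k : Subgroup.zpowers (z r) => Φ k) := rfl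
    rw [hnn]
    have h1 : Φ 1 - C₁ * ((Nat.card F + 2) * η) ≤ av (fun k : Subgroup.zpowers (z r) => Φ k) := by
      refine av_ge86 _ _ fun k => ?_
      obtain ⟨x, hx⟩ := k
      obtain ⟨j, rfl⟩ := Subgroup.mem_zpowers_iff.1 hx
      have h2 := hss (P r) s _ _ (hq2.trans hs) hctl (g ^ j) (by
        rw [← zpow_natCast, ← zpow_mul, mul_comm, zpow_mul, zpow_natCast, hgm, one_zpow]) hc
      have h3 : cj e (fs (Q r) (g ^ j)) = z r ^ j := by
        rw [map_zpow, map_zpow, hcj]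
      have h4 : cj e (fs (Q r) (1 : (P r) ≃ₗ[F] (P r))) = 1 := by
        rw [map_one, map_one]
      dsimp only at h2 ⊢
      rw [h3, h4] at h2
      linarith
    linarith
  have h1 := nn_prod_le hΦ z hcomm y hcl
  have h2 : ∑ r, nn Φ (Subgroup.zpowers (z r)) ≤ (2 * Nat.card F * m : ℕ) * (C₁ * ((Nat.card F + 2) * η)) := by
    have := Finset.sum_le_card_nsmul Finset.univ (fun r => nn Φ (Subgroup.zpowers (z r)))
      (C₁ * ((Nat.card F + 2) * η)) fun r _ => key r
    rwa [nsmul_eq_mul, Finset.card_univ, Fintype.card_fin] at this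
  have h3 := sub_le_card_nn hΦ (Subgroup.zpowers y) y (Subgroup.mem_zpowers y)
  have h4 := nn_nonneg hΦ (Subgroup.zpowers y)
  have h5 : (Nat.card (Subgroup.zpowers y) : ℝ) ≤ m := by
    rw [Nat.card_zpowers]
    exact_mod_cast orderOf_le_of_pow_eq_one hm hy
  have h6 : (Nat.card (Subgroup.zpowers y) : ℝ) * nn Φ (Subgroup.zpowers y) ≤
      m * ((2 * Nat.card F * m : ℕ) * (C₁ * ((Nat.card F + 2) * η))) :=
    mul_le_mul h5 (h1.trans h2) h4 (Nat.cast_nonneg m)
  calc Φ 1 - Φ y ≤ _ := h3.trans h6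
    _ = _ := by ring

end Pool.Agent.Helper70.GLn
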