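import Pool.Agent.Helper70.GLu.Df

/-!
# GU-DG: diagonalisable elements (100-180 lines)

PROOF. `q = |F|`, `η ≥ 0` (`Ctl.nonneg`, `s ≥ 1`). For a unit `a` of `F` and a subset `S` of the index set let `t (a, S)` be the diagonal map which multiplies `b i` by `a` for `i ∈ S` and fixes the other `b i`
(`LinearEquiv` from `Basis.unitsSMul` or `Basis.equiv`). All these commute (they are in the commutative group of the diagonal maps). `t` is the product over the units `a` of the
`t (a, S a)`, `S a = {i : c i = a}` (at most `q - 1` factors). `|S a| = (q - 1) m + r`, `r < q - 1`; split `S a = S' ∪ S''`, `|S'| = (q - 1) m`, `|S''| = r`: `t (a, S a) = t (a, S') * ∏_{i ∈ S''} t (a, {i})`.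
`t (a, S')` has defect at most `η` by `bunch` (`P₁ = S' → F`, `P₂ = S'ᶜ → F`, `e` the coordinates of the basis `b`), `t (a, {i})` by `refl` (`P₂ = {j // j ≠ i} → F`). So `t` is a product of a list
of at most `(q - 1) (q - 1)` commuting elements of defect at most `η`; `dfc_prod`: `C = 2 ^ (2 q²)`.
-/

set_option autoImplicit false

open Module Pool.Agent.Helper13.Ded

namespace Pool.Agent.Helper70.GLn

/-- The diagonal maps of a basis. -/
private noncomputable def dh46 {F P : Type} [Field F] [AddCommGroup P] [Module F P] {ι : Type}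
    (b : Basis ι F P) : (ι → Fˣ) →* (P ≃ₗ[F] P) where
  toFun d := b.equiv (b.unitsSMul d) (Equiv.refl ι)
  map_one' := by
    apply b.ext'
    intro i
    rw [Basis.equiv_apply]
    simp [Basis.unitsSMul_apply]
  map_mul' d e := by
    apply b.ext'
    intro i
    rw [LinearEquiv.mul_apply, Basis.equiv_apply, Basis.equiv_apply, Basis.unitsSMul_apply,
      Basis.unitsSMul_apply, Equiv.refl_apply, Units.smul_def, Units.smul_def, map_smul,
      Basis.equiv_apply, Basis.unitsSMul_apply, Equiv.refl_apply, Units.smul_def, smul_smul,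
      Pi.mul_apply, Units.val_mul, mul_comm]

private lemma dh46_apply {F P : Type} [Field F] [AddCommGroup P] [Module F P] {ι : Type}
    (b : Basis ι F P) (d : ι → Fˣ) (i : ι) : dh46 b d (b i) = (d i : F) • b i := by
  show b.equiv (b.unitsSMul d) (Equiv.refl ι) (b i) = _
  rw [Basis.equiv_apply, Basis.unitsSMul_apply, Equiv.refl_apply, Units.smul_def]

/-- The diagonal entries `a` on `S` and `1` elsewhere. -/
private noncomputable def ch46 {F : Type} [Field F] {ι : Type} (a : Fˣ) (S : Finset ι) : ι → Fˣ :=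
  by
    classical
    exact fun i => if i ∈ S then a else 1

private lemma dh46_eq {F P : Type} [Field F] [AddCommGroup P] [Module F P] {ι : Type}
    (b : Basis ι F P) (a : Fˣ) (S : Finset ι) {P₁ P₂ : Type} [AddCommGroup P₁] [Module F P₁]
    [AddCommGroup P₂] [Module F P₂] (e : P ≃ₗ[F] P₁ × P₂) (h1 : ∀ i ∈ S, (e (b i)).2 = 0)
    (h2 : ∀ i, i ∉ S → (e (b i)).1 = 0) : dh46 b (ch46 a S) = cj e (fs P₂ (scal P₁ a)) := by
  classical
  apply b.ext'
  intro i
  rw [dh46_apply, cj_apply, fs_apply, scal_apply]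
  by_cases hi : i ∈ S
  · have h3 : (((a : F) • (e (b i)).1, (e (b i)).2) : P₁ × P₂) = (a : F) • e (b i) := by
      ext1
      · rfl
      · rw [Prod.smul_snd, h1 i hi, smul_zero]
    rw [h3, map_smul, e.symm_apply_apply]
    simp [ch46, hi]
  · have h3 : (((a : F) • (e (b i)).1, (e (b i)).2) : P₁ × P₂) = e (b i) := by
      ext1
      · show (a : F) • (e (b i)).1 = (e (b i)).1
        rw [h2 i hi, smul_zero]
      · rfl
    rw [h3, e.symm_apply_apply]
    simp [ch46, hi]

/-- The splitting of the coordinates. -/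
private noncomputable def sp46 {F P : Type} [Field F] [AddCommGroup P] [Module F P] {ι : Type}
    [Finite ι] (b : Basis ι F P) (S : Finset ι) :
    P ≃ₗ[F] ({i // i ∈ S} → F) × ({i // ¬ i ∈ S} → F) := by
  classical
  haveI := Fintype.ofFinite ι
  exact (b.reindex (Equiv.sumCompl (fun i => i ∈ S)).symm).equivFun.trans
    (LinearEquiv.sumArrowLequivProdArrow _ _ F F)

private lemma sp46_in {F P : Type} [Field F] [AddCommGroup P] [Module F P] {ι : Type}
    [Finite ι] (b : Basis ι F P) (S : Finset ι) (i : ι) (hi : i ∈ S) : (sp46 b S (b i)).2 = 0 := by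
  classical
  ext ⟨j, hj⟩
  have h := Equiv.sumCompl_symm_apply_of_pos (p := fun i => i ∈ S) hi
  simp [sp46, h]

private lemma sp46_out {F P : Type} [Field F] [AddCommGroup P] [Module F P] {ι : Type}
    [Finite ι] (b : Basis ι F P) (S : Finset ι) (i : ι) (hi : i ∉ S) :
    (sp46 b S (b i)).1 = 0 := by
  classical
  ext ⟨j, hj⟩
  have h := Equiv.sumCompl_symm_apply_of_neg (p := fun i => i ∈ S) hi
  simp [sp46, h]

private lemma prod46 {A G T : Type*} [CommGroup A] [Group G] [Finite G] {θ : G → ℝ} (h : HP θ)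
    (φ : A →* G) (S : Finset T) (u : T → A) {η : ℝ} (h0 : 0 ≤ η)
    (hη : ∀ t ∈ S, θ 1 - θ (φ (u t)) ≤ η) :
    θ 1 - θ (φ (∏ t ∈ S, u t)) ≤ 2 ^ (2 * S.card) * η := by
  classical
  induction S using Finset.induction_on with
  | empty => simp [h0]
  | insert a S ha ih =>
    have h1 := ih fun t ht => hη t (Finset.mem_insert_of_mem ht)
    have h2 := hη a (Finset.mem_insert_self a S)
    rw [Finset.prod_insert ha, map_mul, Finset.card_insert_of_notMem ha]
    have hc : Commute (φ (u a)) (φ (∏ t ∈ S, u t)) := (Commute.all _ _).map φ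
    have h3 := dfc_mul h hc
    have h4 : (1 : ℝ) ≤ 2 ^ (2 * S.card) := one_le_pow₀ (by norm_num)
    rw [show 2 * (S.card + 1) = 2 * S.card + 2 by ring, pow_add]
    nlinarith

theorem ctl_diag (F : Type) [Field F] [Finite F] : ∃ C : ℝ, 0 ≤ C ∧
    ∀ (P : Type) [AddCommGroup P] [Module F P] [Finite P] (s : ℕ) (η : ℝ)
    (f : (P ≃ₗ[F] P) → ℝ), 1 ≤ s → Ctl F P s η f →
    ∀ {ι : Type} [Finite ι] (b : Basis ι F P) (c : ι → Fˣ) (t : P ≃ₗ[F] P),
    (∀ i, t (b i) = (c i : F) • b i) → f 1 - f t ≤ C * η := by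
  classical
  have := Fintype.ofFinite F
  set q := Nat.card F with hq
  have hq2 : 2 ≤ q := by
    rw [hq]
    exact Finite.one_lt_card
  refine ⟨2 ^ (2 * Fintype.card Fˣ) * (2 + 2 * 2 ^ (2 * q)), by positivity, ?_⟩
  intro P _ _ _ s η f hs hf ι _ b c t ht
  have := Fintype.ofFinite ι
  have hη := hf.nonneg hs
  have : Finite (P ≃ₗ[F] P) := Finite.of_injective (fun g : P ≃ₗ[F] P => (g : P → P))
    DFunLike.coe_injective
  have ht' : t = dh46 b c := b.ext' fun i => by rw [ht, dh46_apply]
  -- singletons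
  have hsing : ∀ (a : Fˣ) (i : ι), f 1 - f (dh46 b (ch46 a {i})) ≤ η := by
    intro a i
    have h := hf.refl ({j // ¬ j ∈ ({i} : Finset ι)} → F) ((sp46 b {i}).trans
      (LinearEquiv.prodCongr (haveI : Unique {j // j ∈ ({i} : Finset ι)} :=
        ⟨⟨⟨i, by simp⟩⟩, fun j => Subtype.ext (Finset.mem_singleton.1 j.2)⟩
        LinearEquiv.funUnique {j // j ∈ ({i} : Finset ι)} F F) (LinearEquiv.refl F _))) a
    rw [← dh46_eq b a {i}] at h
    · exact h
    · intro j hj
      have := sp46_in b {i} j hj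
      simpa using this
    · intro j hj
      have := sp46_out b {i} j hj
      simp [this]
  -- bunches
  have hbun : ∀ (a : Fˣ) (S : Finset ι), (q - 1) ∣ S.card →
      f 1 - f (dh46 b (ch46 a S)) ≤ η := by
    intro a S hS
    have h := hf.bunch _ _ (sp46 b S) a (by
      rw [Module.finrank_fintype_fun_eq_card, Fintype.card_coe]
      exact hS)
    rw [← dh46_eq b a S] at h
    · exact h
    · exact fun j hj => sp46_in b S j hj
    · exact fun j hj => sp46_out b S j hj
  -- small sets
  have hsmall : ∀ (a : Fˣ) (S : Finset ι), S.card ≤ q →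
      f 1 - f (dh46 b (ch46 a S)) ≤ 2 ^ (2 * q) * η := by
    intro a S hS
    have h1 : ch46 a S = ∏ i ∈ S, ch46 a {i} := by
      funext j
      rw [Finset.prod_apply]
      simp only [ch46, Finset.mem_singleton]
      rw [Finset.prod_ite_eq]
    rw [h1]
    refine (prod46 hf.hp (dh46 b) S _ hη fun i _ => hsing a i).trans ?_
    exact mul_le_mul_of_nonneg_right (pow_le_pow_right₀ (by norm_num) (by omega)) hη
  -- all sets
  have hall : ∀ (a : Fˣ) (S : Finset ι),
      f 1 - f (dh46 b (ch46 a S)) ≤ (2 + 2 * 2 ^ (2 * q)) * η := by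
    intro a S
    obtain ⟨S', hS', hc⟩ := Finset.exists_subset_card_eq
      (s := S) (n := (q - 1) * (S.card / (q - 1))) (Nat.mul_div_le _ _)
    have hr : (S \ S').card ≤ q := by
      rw [Finset.card_sdiff_of_subset hS', hc]
      have := Nat.mod_lt S.card (show 0 < q - 1 by omega)
      have h2 := Nat.div_add_mod S.card (q - 1)
      omega
    have h1 : ch46 a S = ch46 a S' * ch46 a (S \ S') := by
      funext j
      rw [Pi.mul_apply]
      simp only [ch46, Finset.mem_sdiff]
      by_cases h3 : j ∈ S'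
      · simp [h3, hS' h3]
      · by_cases h4 : j ∈ S <;> simp [h3, h4]
    have h2 := dfc_mul hf.hp (a := dh46 b (ch46 a S')) (b := dh46 b (ch46 a (S \ S')))
      ((Commute.all _ _).map (dh46 b))
    rw [h1, map_mul]
    have h3 := hbun a S' (by rw [hc]; exact Dvd.intro _ rfl)
    have h4 := hsmall a (S \ S') hr
    linarith
  have h1 : c = ∏ a : Fˣ, ch46 a (Finset.univ.filter fun i => c i = a) := by
    funext j
    rw [Finset.prod_apply]
    simp only [ch46, Finset.mem_filter, Finset.mem_univ, true_and]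
    rw [Finset.prod_ite_eq]
    simp
  rw [ht', h1]
  refine (prod46 hf.hp (dh46 b) Finset.univ _ (by positivity) fun a _ => hall a _).trans ?_
  rw [Finset.card_univ, mul_assoc]

end Pool.Agent.Helper70.GLn
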