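import Pool.Agent.Helper70.GLn.GR3
import Pool.Agent.Helper70.GLn.LV

/-!
# Project GU (MP_9fc8a5_nt): definitions and basic facts (proved)
-/

set_option autoImplicit false

open Module Pool.Agent.Helper13.Ded

namespace Pool.Agent.Helper70.GLn

/-- Conjugation by a linear equivalence. -/
def cj {F P M : Type} [Field F] [AddCommGroup P] [Module F P] [AddCommGroup M] [Module F M]
    (e : P ≃ₗ[F] M) : (M ≃ₗ[F] M) →* (P ≃ₗ[F] P) where
  toFun g := (e.trans g).trans e.symm
  map_one' := LinearEquiv.ext fun a => e.symm_apply_apply a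
  map_mul' g h := LinearEquiv.ext fun a => by
    show e.symm (g (h (e a))) = e.symm (g (e (e.symm (h (e a)))))
    rw [e.apply_symm_apply]

lemma cj_apply {F P M : Type} [Field F] [AddCommGroup P] [Module F P] [AddCommGroup M] [Module F M]
    (e : P ≃ₗ[F] M) (g : M ≃ₗ[F] M) (v : P) : cj e g v = e.symm (g (e v)) := rfl

/-- The action on the first factor. -/
def fs {F P : Type} [Field F] [AddCommGroup P] [Module F P] (Q : Type) [AddCommGroup Q]
    [Module F Q] : (P ≃ₗ[F] P) →* ((P × Q) ≃ₗ[F] (P × Q)) where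
  toFun g := LinearEquiv.prodCongr g (LinearEquiv.refl F Q)
  map_one' := rfl
  map_mul' _ _ := rfl

lemma fs_apply {F P : Type} [Field F] [AddCommGroup P] [Module F P] (Q : Type) [AddCommGroup Q]
    [Module F Q] (g : P ≃ₗ[F] P) (v : P × Q) : fs Q g v = (g v.1, v.2) := rfl

/-- The multiplication by a unit. -/
def scal {F : Type} [Field F] (P : Type) [AddCommGroup P] [Module F P] (c : Fˣ) : P ≃ₗ[F] P :=
  LinearEquiv.smulOfUnit c

lemma scal_apply {F : Type} [Field F] (P : Type) [AddCommGroup P] [Module F P] (c : Fˣ) (v : P) :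
    scal P c v = (c : F) • v := rfl

/-- A function on `GL(P)` for which unipotent elements, reflections, `y ^ (j - 1)` for `y`
conjugate to `y ^ j`, and scalars on subspaces of dimension divisible by `q - 1` have defect at
most `η`. -/
structure Ctl (F P : Type) [Field F] [Finite F] [AddCommGroup P] [Module F P] (s : ℕ) (η : ℝ)
    (f : (P ≃ₗ[F] P) → ℝ) : Prop where
  hp : HP f
  unip : ∀ w : P ≃ₗ[F] P, ((w : P →ₗ[F] P) - LinearMap.id) ^ s = 0 → f 1 - f w ≤ η
  refl : ∀ (P₂ : Type) [AddCommGroup P₂] [Module F P₂] (e : P ≃ₗ[F] F × P₂) (c : Fˣ),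
    f 1 - f (cj e (fs P₂ (scal F c))) ≤ η
  frob : ∀ (y τ : P ≃ₗ[F] P) (j : ℕ), τ * y * τ⁻¹ = y ^ j →
    nn f (Subgroup.zpowers (y ^ j * y⁻¹)) ≤ η
  bunch : ∀ (P₁ P₂ : Type) [AddCommGroup P₁] [Module F P₁] [AddCommGroup P₂] [Module F P₂]
    (e : P ≃ₗ[F] P₁ × P₂) (c : Fˣ), (Nat.card F - 1) ∣ finrank F P₁ →
    f 1 - f (cj e (fs P₂ (scal P₁ c))) ≤ η

lemma Ctl.nonneg {F P : Type} [Field F] [Finite F] [AddCommGroup P] [Module F P] {s : ℕ} {η : ℝ}
    {f : (P ≃ₗ[F] P) → ℝ} (h : Ctl F P s η f) (hs : 1 ≤ s) : 0 ≤ η := by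
  have h1 := h.unip 1 (by
    rw [show ((1 : P ≃ₗ[F] P) : P →ₗ[F] P) - LinearMap.id = 0 from sub_self _]
    exact zero_pow (by omega))
  rwa [sub_self] at h1

/-- The defect of a product of commuting elements. -/
lemma dfc_mul {G : Type*} [Group G] [Finite G] {θ : G → ℝ} (h : HP θ) {a b : G}
    (hab : Commute a b) : θ 1 - θ (a * b) ≤ 2 * (θ 1 - θ a) + 2 * (θ 1 - θ b) := by
  have h1 := four_point h hab
  have h2 := h.le_one (a * b⁻¹)
  linarith

/-- The defect of a product of several commuting elements. -/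
lemma dfc_prod {G : Type*} [Group G] [Finite G] {θ : G → ℝ} (h : HP θ) (l : List G) (D : Subgroup G)
    (hD : ∀ a ∈ D, ∀ b ∈ D, a * b = b * a) (hl : ∀ x ∈ l, x ∈ D) {η : ℝ}
    (hη : ∀ x ∈ l, θ 1 - θ x ≤ η) (h0 : 0 ≤ η) : θ 1 - θ l.prod ≤ 2 ^ (2 * l.length) * η := by
  induction l with
  | nil => simp [h0]
  | cons a l ih =>
    have h1 := ih (fun x hx => hl x (List.mem_cons_of_mem _ hx))
      (fun x hx => hη x (List.mem_cons_of_mem _ hx))
    have hc : Commute a l.prod := hD _ (hl a List.mem_cons_self) _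
      (D.list_prod_mem fun x hx => hl x (List.mem_cons_of_mem _ hx))
    have h2 := dfc_mul h hc
    have h3 := hη a List.mem_cons_self
    have h4 : (1 : ℝ) ≤ 2 ^ (2 * l.length) := one_le_pow₀ (by norm_num)
    rw [List.prod_cons, List.length_cons, show 2 * (l.length + 1) = 2 * l.length + 2 by ring,
      pow_add]
    nlinarith

end Pool.Agent.Helper70.GLn
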