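import Pool.Agent.Helper70.GLn.CY

/-!
# GU-EQ: semilinear maps of a field extension are monomial (120-200 lines)

PROOF. `q = |F|`, `d = finrank F E`, `|E| = q ^ d`. Let `ρ v = a v ^ q`, an `F`-linear map of `E` (`c ^ q = c` for `c ∈ F`, Frobenius). `ρ ^ i v = a_i v ^ (q ^ i)` with `a_i = a ^ (1 + q + ... + q ^ (i - 1)) ≠ 0`; `ρ ^ d v = a_d v`
(`v ^ (q ^ d) = v`), and `a_d ^ q = a_d * a ^ (q ^ d - 1) = a_d`, so `a_d = algebraMap c`, `c` a unit of `F` (the elements of `E` with `x ^ q = x` are those of `F`).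
There is `v` such that `v, ρ v, ..., ρ ^ (d - 1) v` is a basis of `E` over `F`: the maps `v ↦ v ^ (q ^ i)`, `0 ≤ i < d`, are linearly independent over `E` (distinct powers of a homomorphism of the cyclic group of units, `linearIndependent_monoidHom`;
or: a polynomial `∑ c_i X ^ (q ^ i)` of degree `< q ^ d` with all elements of `E` as roots is zero), so no nonzero polynomial of degree `< d` over `F` kills `ρ`. By `cyclic` (GLn/CY) for `ρ`: `E ≃ ∏ AdjoinRoot (g i)`; the element `v` with all coordinates `1`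
is killed by `h(ρ)` only if all `g i` divide `h`, that is only if `h(ρ) = 0`; so no nonzero polynomial `h` of degree `< d` satisfies `h(ρ) v = 0`, and `v, ..., ρ ^ (d - 1) v` are linearly independent.
Let `φ` be the coordinates with respect to this basis, indexed by `ZMod d` (`d ≥ 1`; `ZMod.finEquiv`-like, `i ↦ ρ ^ (i.val) v`): if `v' = ∑ x_i ρ ^ i v` then `ρ v' = ∑ x_i ρ ^ (i + 1) v`, with `ρ ^ d v = c v`, so the coordinate of
`ρ v'` at `i ≠ 0` is `x_(i - 1)` and at `0` it is `c x_(d - 1)`.
-/

set_option autoImplicit false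

open Module

namespace Pool.Agent.Helper70.GLn

open Polynomial in
private lemma exists_cyclic67 {F V : Type} [Field F] [AddCommGroup V] [Module F V]
    [FiniteDimensional F V] (x : V →ₗ[F] V) :
    ∃ v : V, ∀ f : F[X], aeval x f v = 0 → aeval x f = 0 := by
  obtain ⟨v, hv⟩ := Module.exists_ker_toSpanSingleton_eq_annihilator F[X] (Module.AEval' x)
  obtain ⟨v, rfl⟩ := (Module.AEval'.of x).surjective v
  refine ⟨v, fun f hf => ?_⟩
  have h1 : f ∈ LinearMap.ker (LinearMap.toSpanSingleton F[X] _ (Module.AEval'.of x v)) := by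
    rw [LinearMap.mem_ker, LinearMap.toSpanSingleton_apply]
    show Module.AEval'.of x (aeval x f v) = 0
    rw [hf, map_zero]
  rw [hv, Module.mem_annihilator] at h1
  apply LinearMap.ext
  intro w
  have h2 : Module.AEval'.of x (aeval x f w) = 0 := h1 (Module.AEval'.of x w)
  rw [LinearMap.zero_apply]
  exact (LinearEquiv.map_eq_zero_iff _).1 h2

private lemma mem_base67 {F E : Type} [Field F] [Finite F] [Field E] [Algebra F E] {x : E}
    (hx : x ^ Nat.card F = x) : ∃ c : F, algebraMap F E c = x := by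
  classical
  have := Fintype.ofFinite F
  rw [Nat.card_eq_fintype_card] at hx
  have hq : 1 < Fintype.card F := Fintype.one_lt_card
  have h0 := FiniteField.X_pow_card_sub_X_ne_zero E hq
  have h1 := FiniteField.X_pow_card_sub_X_natDegree_eq E hq
  set p : Polynomial E := Polynomial.X ^ Fintype.card F - Polynomial.X with hp
  have hmem : ∀ y : E, y ^ Fintype.card F = y → y ∈ p.roots.toFinset := by
    intro y hy
    rw [Multiset.mem_toFinset, Polynomial.mem_roots h0, Polynomial.IsRoot.def, hp]
    simp [hy]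
  have h2 : p.roots.toFinset.card ≤ Fintype.card F := by
    calc p.roots.toFinset.card ≤ Multiset.card p.roots := Multiset.toFinset_card_le _
      _ ≤ p.natDegree := Polynomial.card_roots' p
      _ = Fintype.card F := h1
  have h3 : Finset.univ.image (algebraMap F E) ⊆ p.roots.toFinset := by
    intro y hy
    obtain ⟨c, _, rfl⟩ := Finset.mem_image.1 hy
    apply hmem
    rw [← map_pow, FiniteField.pow_card]
  have h4 : Finset.univ.image (algebraMap F E) = p.roots.toFinset := by
    apply Finset.eq_of_subset_of_card_le h3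
    rw [Finset.card_image_of_injective _ (algebraMap F E).injective]
    exact h2
  have h5 := hmem x hx
  rw [← h4] at h5
  obtain ⟨c, _, hc⟩ := Finset.mem_image.1 h5
  exact ⟨c, hc⟩

private lemma mono67 {F E : Type} [Field F] [AddCommGroup E] [Module F E] (ρ : E →ₗ[F] E)
    (n : ℕ) (hd : finrank F E = n + 1) (v : E)
    (hv : LinearIndependent F (fun i : Fin (n + 1) => (ρ ^ (i : ℕ)) v)) (c : F)
    (hc : (ρ ^ (n + 1)) v = c • v) :
    ∃ φ : E ≃ₗ[F] (ZMod (n + 1) → F), ∀ (v : E) (i : ZMod (n + 1)),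
      φ (ρ v) i = (if i = 0 then c else 1) * φ v (i - 1) := by
  classical
  obtain ⟨b, hb⟩ : ∃ b : Basis (Fin (n + 1)) F E, ∀ i, b i = (ρ ^ (i : ℕ)) v :=
    ⟨basisOfLinearIndependentOfCardEqFinrank hv (by rw [Fintype.card_fin, hd]), fun i => by
      rw [coe_basisOfLinearIndependentOfCardEqFinrank]⟩
  have h1 : ∀ j : Fin (n + 1), ρ (b j) = (if j + 1 = 0 then c else 1) • b (j + 1) := by
    intro j
    rw [hb, hb]
    by_cases hj : j = Fin.last n
    · subst hj
      rw [if_pos (Fin.last_add_one n), Fin.last_add_one, Fin.val_last, Fin.val_zero, pow_zero,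
        ← Module.End.mul_apply, ← pow_succ', hc]
      rfl
    · have hlt : j < Fin.last n := lt_of_le_of_ne (Fin.le_last j) hj
      have hval := Fin.val_add_one_of_lt hlt
      rw [if_neg, hval, one_smul, ← Module.End.mul_apply, ← pow_succ']
      intro h0
      rw [h0] at hval
      simp at hval
  have h2 : ∀ (w : E) (i : Fin (n + 1)),
      b.equivFun (ρ w) i = (if i = 0 then c else 1) * b.equivFun w (i - 1) := by
    intro w i
    have e1 : ρ w = ∑ j, b.equivFun w j • ((if j + 1 = 0 then c else 1) • b (j + 1)) := by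
      conv_lhs => rw [← b.sum_equivFun w]
      rw [map_sum]
      apply Finset.sum_congr rfl
      intro j _
      rw [map_smul, h1]
    rw [e1, map_sum, Finset.sum_apply, Finset.sum_eq_single (i - 1)]
    · rw [map_smul, map_smul, sub_add_cancel, Pi.smul_apply, Pi.smul_apply, Basis.equivFun_self,
        if_pos rfl, smul_eq_mul, smul_eq_mul, mul_one, mul_comm]
    · intro j _ hj
      have hji : j + 1 ≠ i := by
        intro h
        apply hj
        rw [← h, add_sub_cancel_right]
      rw [map_smul, map_smul, Pi.smul_apply, Pi.smul_apply, Basis.equivFun_self,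
        if_neg hji, smul_zero, smul_zero]
    · intro h
      exact absurd (Finset.mem_univ _) h
  exact ⟨b.equivFun, h2⟩

open Polynomial in
private lemma indep67 {F E : Type} [Field F] [Finite F] [Field E] [Algebra F E] [Finite E]
    (ρ : E →ₗ[F] E) (s : ℕ → E) (hs : ∀ i, s i ≠ 0)
    (hρ : ∀ i v, (ρ ^ i) v = s i * v ^ (Nat.card F ^ i)) :
    ∃ v : E, LinearIndependent F (fun i : Fin (finrank F E) => (ρ ^ (i : ℕ)) v) := by
  classical
  have := Fintype.ofFinite F
  have := Fintype.ofFinite E
  have : FiniteDimensional F E := Module.Finite.of_finite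
  obtain ⟨v, hv⟩ := exists_cyclic67 ρ
  refine ⟨v, ?_⟩
  rw [Fintype.linearIndependent_iff]
  intro g hg
  have h1 : aeval ρ (∑ i : Fin (finrank F E), C (g i) * X ^ (i : ℕ)) = 0 := by
    apply hv
    rw [map_sum, LinearMap.sum_apply]
    rw [← hg]
    apply Finset.sum_congr rfl
    intro i _
    rw [map_mul, aeval_C, map_pow, aeval_X]
    rfl
  set q := Nat.card F with hq
  have hq1 : 1 < q := by
    rw [hq, Nat.card_eq_fintype_card]
    exact Fintype.one_lt_card
  let p : E[X] := ∑ i : Fin (finrank F E), C (g i • s i) * X ^ (q ^ (i : ℕ))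
  have hcard : Fintype.card E = q ^ finrank F E := by
    rw [hq, Nat.card_eq_fintype_card]
    exact Module.card_eq_pow_finrank
  have hp0 : p = 0 := by
    apply Polynomial.eq_zero_of_natDegree_lt_card_of_eval_eq_zero p
      (f := (id : E → E)) Function.injective_id
    · intro x
      have h2 := congrArg (fun f : E →ₗ[F] E => f x) h1
      simp only [LinearMap.zero_apply] at h2
      rw [map_sum, LinearMap.sum_apply] at h2
      rw [← h2]
      show eval x (∑ i : Fin (finrank F E), C (g i • s i) * X ^ (q ^ (i : ℕ))) = _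
      rw [eval_finsetSum]
      apply Finset.sum_congr rfl
      intro i _
      rw [map_mul, aeval_C, map_pow, aeval_X, eval_mul, eval_C, eval_pow, eval_X]
      show _ = g i • (ρ ^ (i : ℕ)) x
      rw [hρ, smul_mul_assoc]
    · rw [hcard]
      have hpos : 0 < finrank F E := finrank_pos
      refine lt_of_le_of_lt (natDegree_sum_le_of_forall_le (n := q ^ (finrank F E - 1)) _ _ ?_) ?_
      · intro i _
        refine (natDegree_C_mul_X_pow_le _ _).trans ?_
        apply Nat.pow_le_pow_right (by omega)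
        have := i.2
        omega
      · exact Nat.pow_lt_pow_right hq1 (by omega)
  intro i
  have h3 : p.coeff (q ^ (i : ℕ)) = g i • s i := by
    show (∑ j : Fin (finrank F E), C (g j • s j) * X ^ (q ^ (j : ℕ))).coeff (q ^ (i : ℕ)) = _
    rw [finsetSum_coeff, Finset.sum_eq_single i]
    · rw [coeff_C_mul, coeff_X_pow_self, mul_one]
    · intro j _ hj
      rw [coeff_C_mul, coeff_X_pow, if_neg, mul_zero]
      intro h
      apply hj
      exact (Fin.ext (Nat.pow_right_injective hq1 h)).symm
    · intro h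
      exact absurd (Finset.mem_univ _) h
  rw [hp0, coeff_zero] at h3
  rcases smul_eq_zero.1 h3.symm with h4 | h4
  · exact h4
  · exact absurd h4 (hs _)

theorem frob_mono {F E : Type} [Field F] [Finite F] [Field E] [Algebra F E] [Finite E] (a : Eˣ) :
    ∃ (c : Fˣ) (φ : E ≃ₗ[F] (ZMod (finrank F E) → F)), ∀ (v : E) (i : ZMod (finrank F E)),
      φ ((a : E) * v ^ (Nat.card F)) i = (if i = 0 then (c : F) else 1) * φ v (i - 1) := by
  classical
  have := Fintype.ofFinite F
  have := Fintype.ofFinite E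
  have : FiniteDimensional F E := Module.Finite.of_finite
  have hqF : Nat.card F = Fintype.card F := Nat.card_eq_fintype_card
  obtain ⟨ρ, hρ⟩ : ∃ ρ : E →ₗ[F] E, ∀ v, ρ v = (a : E) * v ^ (Nat.card F) :=
    ⟨LinearMap.mulLeft F (a : E) ∘ₗ (FiniteField.frobeniusAlgHom F E).toLinearMap, fun v => by
      rw [hqF]; rfl⟩
  set q := Nat.card F with hq
  obtain ⟨s, hs0, hs1⟩ : ∃ s : ℕ → E, s 0 = 1 ∧ ∀ i, s (i + 1) = a * s i ^ q :=
    ⟨fun i => Nat.rec 1 (fun _ y => (a : E) * y ^ q) i, rfl, fun i => rfl⟩
  have hs : ∀ i, s i ≠ 0 := by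
    intro i
    induction i with
    | zero => rw [hs0]; exact one_ne_zero
    | succ i ih => rw [hs1]; exact mul_ne_zero a.ne_zero (pow_ne_zero _ ih)
  have hρi : ∀ i v, (ρ ^ i) v = s i * v ^ (q ^ i) := by
    intro i
    induction i with
    | zero =>
      intro v
      rw [pow_zero, hs0, pow_zero, pow_one, one_mul]
      rfl
    | succ i ih =>
      intro v
      rw [pow_succ', Module.End.mul_apply, ih, hρ, hs1, mul_pow, ← pow_mul, pow_succ, mul_assoc]
  have hcard : Fintype.card E = q ^ finrank F E := by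
    rw [hqF]
    exact Module.card_eq_pow_finrank
  have hρd : ∀ v, (ρ ^ finrank F E) v = s (finrank F E) * v := by
    intro v
    rw [hρi, ← hcard, FiniteField.pow_card]
  have hsd : s (finrank F E) ^ q = s (finrank F E) := by
    have h1 : (ρ ^ finrank F E) (ρ 1) = ρ ((ρ ^ finrank F E) 1) := by
      rw [← Module.End.mul_apply, ← Module.End.mul_apply, ← pow_succ, ← pow_succ']
    rw [hρd, hρd, hρ, hρ, one_pow, mul_one, mul_one] at h1
    rw [mul_comm] at h1
    exact (mul_left_cancel₀ a.ne_zero h1).symm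
  obtain ⟨c, hc⟩ := mem_base67 hsd
  have hc0 : c ≠ 0 := by
    rintro rfl
    rw [map_zero] at hc
    exact hs _ hc.symm
  obtain ⟨v, hv⟩ := indep67 ρ s hs hρi
  have hfin : ∀ d : ℕ, finrank F E = d → ∃ φ : E ≃ₗ[F] (ZMod d → F), ∀ (v : E) (i : ZMod d),
      φ (ρ v) i = (if i = 0 then c else 1) * φ v (i - 1) := by
    intro d hd
    have hpos : 0 < finrank F E := finrank_pos
    obtain ⟨n, rfl⟩ : ∃ n, d = n + 1 := ⟨d - 1, by omega⟩
    refine mono67 ρ n hd v ?_ c ?_
    · rw [← hd]
      exact hv
    · rw [← hd, hρd, ← hc, Algebra.smul_def]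
  obtain ⟨φ, hφ⟩ := hfin _ rfl
  refine ⟨Units.mk0 c hc0, φ, fun v i => ?_⟩
  rw [← hρ, hφ]
  rfl

end Pool.Agent.Helper70.GLn
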