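import Pool.Agent.Helper70.GLu.MO
import Pool.Agent.Helper70.GLu.EQ

/-!
# GU-FD: elements acting by multiplications on a product of fields (120-180 lines)

PROOF. `q = |F|`, in the model `M = (j : J) → E j` let `T b v j = b j * v j` for `b : (j : J) → (E j)ˣ` and `σ v j = (v j) ^ q` (an `F`-linear bijection). `σ (T b) σ⁻¹ = T (b ^ q) = (T b) ^ q`. Write all maps of the model as `cj e _`.
`B = ∏_{1 ≤ d ≤ m} (q ^ d - 1)`: `b ^ B = 1` for all `b` (`|E j| - 1 = q ^ (finrank) - 1` divides `B`). `N` = the group of the `T (b ^ q b⁻¹)`. By `frob` (`y = T b`, `τ = σ`, `j = q`) `nn f (zpowers (T (b ^ q b⁻¹))) ≤ η`, so every `n ∈ N` has defect at most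
`B η` (`sub_le_card_nn`, order at most `B`). `dfc_of_quot` with `N`, `g = T a σ`, `h = σ⁻¹`: `g h = T a` commutes with `N`; `g`, `h` normalise `N` and `g h g⁻¹ h⁻¹ = T a σ⁻¹ (T a)⁻¹ σ = T (a * b⁻¹)` with
`b ^ q = a` (`σ⁻¹ T a σ = T b`), so this is `T (b ^ q b⁻¹) ∈ N`. Fusion: `(T u) (T a σ) (T u)⁻¹ = T (a * u * (u ^ q)⁻¹) σ`; for `n = T (b ^ q b⁻¹)` choose `u = b⁻¹`: this is `T (a b⁻¹ b ^ q) σ = n T a σ`. For `σ⁻¹`:
`(T u) σ⁻¹ (T u)⁻¹ = T (u * w⁻¹) σ⁻¹` with `w ^ q = u`; take `u = b ^ q`, `w = b`. So both cosets are fused, and the defect of `T a` is at most `2 B η + 4 D (T a σ) + 4 D (σ⁻¹)`, `D` the defect; `D (σ⁻¹) = D (σ)` (`HP.inv`).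
`T a σ` and `σ = T 1 σ` are monomial: by `frob_mono` for every `E j` there is an equivalence `M ≃ (j : J) → ZMod (finrank F (E j)) → F` transforming `T a σ` (`v ↦ a j * v j ^ q`) into the form of `ctl_mono`, with `m ! ` in place of `m`
(`finrank F (E j) ≤ m` divides `m !`; `finrank ≥ 1`). So both have defect at most `C₁ η`.
-/

set_option autoImplicit false

open Module Pool.Agent.Helper13.Ded

namespace Pool.Agent.Helper70.GLn

private theorem abs_34 {G A : Type*} [Group G] [Finite G] [CommGroup A] {θ : G → ℝ} (hθ : HP θ)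
    (T : A →* G) (S : G) (q : ℕ) (hS : ∀ b, S * T b * S⁻¹ = T (b ^ q))
    (hsurj : ∀ b : A, ∃ c, c ^ q = b) {B : ℕ} (hB : 0 < B) (hBb : ∀ b : A, b ^ B = 1) {η : ℝ}
    (hη : ∀ b, nn θ (Subgroup.zpowers (T b ^ q * (T b)⁻¹)) ≤ η) (a : A) :
    θ 1 - θ (T a) ≤ 2 * ((B : ℝ) * η) + 4 * (θ 1 - θ (T a * S)) + 4 * (θ 1 - θ S) := by
  have hS1 : ∀ b, S * T b = T (b ^ q) * S := fun b => by
    rw [← hS b]; group
  have hS2 : ∀ b, S⁻¹ * T (b ^ q) = T b * S⁻¹ := fun b => by
    rw [← hS b]; group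
  let ψ : A →* A :=
    { toFun := fun b => b ^ q * b⁻¹
      map_one' := by rw [one_pow, inv_one, mul_one]
      map_mul' := fun x y => by rw [mul_pow, mul_inv]; exact mul_mul_mul_comm _ _ _ _ }
  let N : Subgroup G := (T.comp ψ).range
  have hmem : ∀ b, T (b ^ q * b⁻¹) ∈ N := fun b => ⟨b, rfl⟩
  have hex : ∀ n ∈ N, ∃ b, n = T (b ^ q * b⁻¹) := by
    rintro n ⟨b, rfl⟩
    exact ⟨b, rfl⟩
  have hη0 : 0 ≤ η := (nn_nonneg hθ _).trans (hη 1)
  have key := dfc_of_quot hθ N (T a * S) S⁻¹ (by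
      intro n hn
      obtain ⟨b, rfl⟩ := hex n hn
      have h1 : (T a * S) * T (b ^ q * b⁻¹) * (T a * S)⁻¹ = T ((b ^ q) ^ q * (b ^ q)⁻¹) := by
        calc (T a * S) * T (b ^ q * b⁻¹) * (T a * S)⁻¹
            = T a * (S * T (b ^ q * b⁻¹) * S⁻¹) * (T a)⁻¹ := by group
          _ = T a * T ((b ^ q * b⁻¹) ^ q) * (T a)⁻¹ := by rw [hS]
          _ = T (a * (b ^ q * b⁻¹) ^ q * a⁻¹) := by rw [map_mul, map_mul, map_inv]
          _ = T ((b ^ q) ^ q * (b ^ q)⁻¹) := by
            congr 1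
            rw [mul_comm a, mul_assoc, mul_inv_cancel, mul_one, mul_pow, inv_pow]
      rw [h1]
      exact hmem _) (by
      intro n hn
      obtain ⟨b, rfl⟩ := hex n hn
      obtain ⟨c, hc⟩ := hsurj b
      have h1 : b ^ q * b⁻¹ = (c ^ q * c⁻¹) ^ q := by rw [← hc, mul_pow, inv_pow]
      rw [h1, hS2, inv_inv, inv_mul_cancel_right]
      exact hmem _) (by
      obtain ⟨c, hc⟩ := hsurj a
      have h1 : T a * S * S⁻¹ * (T a * S)⁻¹ * S⁻¹⁻¹ = T (c ^ q * c⁻¹) := by
        calc T a * S * S⁻¹ * (T a * S)⁻¹ * S⁻¹⁻¹ = T a * (S⁻¹ * T a⁻¹) * S := by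
              rw [map_inv]; group
          _ = T a * (S⁻¹ * T ((c⁻¹) ^ q)) * S := by rw [inv_pow, hc]
          _ = T a * (T c⁻¹ * S⁻¹) * S := by rw [hS2]
          _ = T a * T c⁻¹ := by group
          _ = T (c ^ q * c⁻¹) := by rw [hc, map_mul]
      rw [h1]
      exact hmem _) (by
      intro n hn
      obtain ⟨b, rfl⟩ := hex n hn
      have h1 : T (b ^ q * b⁻¹) * (T a * S) = T b⁻¹ * (T a * S) * (T b⁻¹)⁻¹ := by
        calc T (b ^ q * b⁻¹) * (T a * S) = T (b ^ q * b⁻¹ * a) * S := by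
              rw [map_mul _ (b ^ q * b⁻¹) a, mul_assoc]
          _ = T (b⁻¹ * a * b ^ q) * S := by
              congr 2
              rw [mul_comm (b⁻¹ * a), mul_assoc]
          _ = T b⁻¹ * T a * (T (b ^ q) * S) := by rw [map_mul, map_mul, mul_assoc]
          _ = T b⁻¹ * T a * (S * T b) := by rw [hS1]
          _ = T b⁻¹ * (T a * S) * (T b⁻¹)⁻¹ := by rw [map_inv]; group
      rw [h1, hθ.conj]) (by
      intro n hn
      obtain ⟨b, rfl⟩ := hex n hn
      have h1 : T (b ^ q * b⁻¹) * S⁻¹ = T (b ^ q) * S⁻¹ * (T (b ^ q))⁻¹ := by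
        calc T (b ^ q * b⁻¹) * S⁻¹ = T (b ^ q) * (T b⁻¹ * S⁻¹) := by rw [map_mul, mul_assoc]
          _ = T (b ^ q) * (S⁻¹ * T (b⁻¹ ^ q)) := by rw [hS2]
          _ = T (b ^ q) * S⁻¹ * (T (b ^ q))⁻¹ := by rw [inv_pow, map_inv, mul_assoc]
      rw [h1, hθ.conj]) (by
      intro n hn
      obtain ⟨b, rfl⟩ := hex n hn
      rw [mul_inv_cancel_right]
      exact (Commute.all _ _).map T) (η := (B : ℝ) * η) (by
      intro n hn
      obtain ⟨b, rfl⟩ := hex n hn
      have h1 := sub_le_card_nn hθ (Subgroup.zpowers (T (b ^ q * b⁻¹))) _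
        (Subgroup.mem_zpowers _)
      have h2 : nn θ (Subgroup.zpowers (T (b ^ q * b⁻¹))) ≤ η := by
        have := hη b
        rwa [← map_pow, ← map_inv, ← map_mul] at this
      have h3 : Nat.card (Subgroup.zpowers (T (b ^ q * b⁻¹))) ≤ B := by
        rw [Nat.card_zpowers]
        apply Nat.le_of_dvd hB
        apply orderOf_dvd_of_pow_eq_one
        rw [← map_pow, hBb, map_one]
      have h4 : (Nat.card (Subgroup.zpowers (T (b ^ q * b⁻¹))) : ℝ) ≤ B := by exact_mod_cast h3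
      calc θ 1 - θ (T (b ^ q * b⁻¹))
          ≤ (Nat.card (Subgroup.zpowers (T (b ^ q * b⁻¹))) : ℝ) *
            nn θ (Subgroup.zpowers (T (b ^ q * b⁻¹))) := h1
        _ ≤ (Nat.card (Subgroup.zpowers (T (b ^ q * b⁻¹))) : ℝ) * η :=
            mul_le_mul_of_nonneg_left h2 (Nat.cast_nonneg _)
        _ ≤ (B : ℝ) * η := mul_le_mul_of_nonneg_right h4 hη0)
  rwa [mul_inv_cancel_right, hθ.inv] at key

private def mulE_34 {F J : Type} [Field F] (E : J → Type) [∀ j, Field (E j)]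
    [∀ j, Algebra F (E j)] :
    ((j : J) → (E j)ˣ) →* (((j : J) → E j) ≃ₗ[F] ((j : J) → E j)) where
  toFun b :=
    { toFun := fun v j => (b j : E j) * v j
      map_add' := fun v w => by funext j; exact mul_add _ _ _
      map_smul' := fun c v => by funext j; exact mul_smul_comm c _ _
      invFun := fun v j => (((b j)⁻¹ : (E j)ˣ) : E j) * v j
      left_inv := fun v => by funext j; exact Units.inv_mul_cancel_left _ _
      right_inv := fun v => by funext j; exact Units.mul_inv_cancel_left _ _ }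
  map_one' := LinearEquiv.ext fun v => by funext j; exact one_mul _
  map_mul' b c := LinearEquiv.ext fun v => by funext j; exact mul_assoc _ _ _

private theorem frob_equiv_34 (F E : Type) [Field F] [Finite F] [Field E] [Algebra F E]
    [Finite E] : ∃ φ : E ≃ₗ[F] E, ∀ v, φ v = v ^ Nat.card F := by
  have := Fintype.ofFinite F
  have : Module.Finite F E := Module.Finite.of_finite
  refine ⟨(FiniteField.frobeniusAlgEquivOfAlgebraic F E).toLinearEquiv, fun v => ?_⟩
  rw [Nat.card_eq_fintype_card]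
  exact congrFun (FiniteField.coe_frobeniusAlgEquivOfAlgebraic F E) v

theorem ctl_field (F : Type) [Field F] [Finite F] (m : ℕ) : ∃ C : ℝ, 0 ≤ C ∧
    ∀ (P : Type) [AddCommGroup P] [Module F P] [Finite P] (s : ℕ) (η : ℝ)
    (f : (P ≃ₗ[F] P) → ℝ), 2 ≤ s → Ctl F P s η f →
    ∀ {J : Type} [Finite J] (E : J → Type) [∀ j, Field (E j)] [∀ j, Algebra F (E j)]
    [∀ j, Finite (E j)], (∀ j, finrank F (E j) ≤ m) →
    ∀ (e : P ≃ₗ[F] ((j : J) → E j)) (a : ∀ j, (E j)ˣ) (y : P ≃ₗ[F] P),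
    (∀ v j, e (y v) j = (a j : E j) * e v j) → f 1 - f y ≤ C * η := by
  classical
  have := Fintype.ofFinite F
  obtain ⟨C₁, hC₁, hmono⟩ := ctl_mono F (Nat.factorial_pos m)
  have hq : 2 ≤ Nat.card F := by
    rw [Nat.card_eq_fintype_card]
    exact Fintype.one_lt_card
  set q := Nat.card F with hqdef
  set B : ℕ := ∏ d ∈ Finset.range m, (q ^ (d + 1) - 1) with hBdef
  have hBpos : 0 < B := by
    rw [hBdef]
    apply Finset.prod_pos
    intro d _
    have h1 : q ≤ q ^ (d + 1) := Nat.le_self_pow (by omega) q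
    omega
  refine ⟨2 * B + 8 * C₁, by positivity, ?_⟩
  intro P _ _ _ s η f hs hf J _ E _ _ _ hfr e a y hy
  choose φ hφ using fun j => frob_equiv_34 F (E j)
  let σ : ((j : J) → E j) ≃ₗ[F] ((j : J) → E j) := LinearEquiv.piCongrRight φ
  have hσ : ∀ v j, σ v j = v j ^ q := fun v j => hφ j (v j)
  let S : P ≃ₗ[F] P := cj e σ
  let T : ((j : J) → (E j)ˣ) →* (P ≃ₗ[F] P) := (cj e).comp (mulE_34 E)
  have hT : ∀ b v j, e (T b v) j = (b j : E j) * e v j := fun b v j => by
    show e (e.symm (mulE_34 (F := F) E b (e v))) j = _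
    rw [e.apply_symm_apply]
    rfl
  have hSe : ∀ v j, e (S v) j = e v j ^ q := fun v j => by
    show e (e.symm (σ (e v))) j = _
    rw [e.apply_symm_apply, hσ]
  have hS : ∀ b, S * T b * S⁻¹ = T (b ^ q) := by
    intro b
    rw [mul_inv_eq_iff_eq_mul]
    refine LinearEquiv.ext fun v => e.injective ?_
    funext j
    show e (S (T b v)) j = e (T (b ^ q) (S v)) j
    rw [hSe, hT, hT, hSe, mul_pow, Pi.pow_apply, Units.val_pow_eq_pow_val]
  have hsurj : ∀ b : (j : J) → (E j)ˣ, ∃ c, c ^ q = b := by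
    intro b
    have h1 : ∀ j, ∃ c : (E j)ˣ, c ^ q = b j := by
      intro j
      obtain ⟨w, hw⟩ := (φ j).surjective (b j : E j)
      rw [hφ] at hw
      have hw0 : w ≠ 0 := by
        rintro rfl
        rw [zero_pow (by omega)] at hw
        exact (b j).ne_zero hw.symm
      exact ⟨Units.mk0 w hw0, Units.ext (by rw [Units.val_pow_eq_pow_val]; exact hw)⟩
    choose c hc using h1
    exact ⟨c, funext hc⟩
  have hdpos : ∀ j, 1 ≤ finrank F (E j) := fun j => by
    have : Module.Finite F (E j) := Module.Finite.of_finite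
    exact Module.finrank_pos
  have hBb : ∀ b : (j : J) → (E j)ˣ, b ^ B = 1 := by
    intro b
    funext j
    rw [Pi.pow_apply, Pi.one_apply]
    have hcard : Nat.card (E j)ˣ = q ^ finrank F (E j) - 1 := by
      rw [Nat.card_units, Module.natCard_eq_pow_finrank (K := F) (V := E j)]
    have hdvd : Nat.card (E j)ˣ ∣ B := by
      rw [hcard, hBdef]
      have h1 := hdpos j
      have h2 := hfr j
      have h3 : finrank F (E j) - 1 ∈ Finset.range m := Finset.mem_range.2 (by omega)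
      have h4 := Finset.dvd_prod_of_mem (fun d => q ^ (d + 1) - 1) h3
      rwa [Nat.sub_add_cancel h1] at h4
    obtain ⟨t, ht⟩ := hdvd
    rw [ht, pow_mul, pow_card_eq_one', one_pow]
  have hyT : y = T a := by
    refine LinearEquiv.ext fun v => e.injective ?_
    funext j
    rw [hy, hT]
  have hFin : Finite (P ≃ₗ[F] P) := inferInstance
  have habs := abs_34 hf.hp T S q hS hsurj hBpos hBb (η := η) (fun b => by
    have h1 : S * T b * S⁻¹ = (T b) ^ q := by rw [hS, map_pow]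
    exact hf.frob (T b) S q h1) a
  have hm : ∀ b : (j : J) → (E j)ˣ, f 1 - f (T b * S) ≤ C₁ * η := by
    intro b
    choose c ψ hψ using fun j => frob_mono (F := F) (b j)
    refine hmono P s η f hs hf (fun j => finrank F (E j)) (fun j => ?_)
      (e.trans (LinearEquiv.piCongrRight ψ)) c (T b * S) ?_
    · exact Nat.dvd_factorial (hdpos j) (hfr j)
    · intro v j i
      show ψ j (e (T b (S v)) j) i = _ * ψ j (e v j) (i - 1)
      rw [hT, hSe, hψ]
  have h1 := hm a
  have h2 := hm 1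
  rw [map_one, one_mul] at h2
  rw [hyT]
  nlinarith [habs, h1, h2]

end Pool.Agent.Helper70.GLn
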