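import Pool.Agent.Helper70.GLu.DG
import Pool.Agent.Helper70.GLu.AQ

/-!
# GU-IV: involutions and products of two involutions (100-160 lines)

PROOF. `ctl_invol`: if `F` has characteristic 2 then `(r - 1) ^ 2 = r ^ 2 - 2 r + 1 = 0`, so `(r - 1) ^ s = 0` and `unip` applies (`η ≤ C η` for `C ≥ 1`). Otherwise `P` is the direct sum of
`ker (r - 1)` and `ker (r + 1)` (`v = (v + r v) / 2 + (v - r v) / 2`); a basis consisting of bases of both is a basis of eigenvectors with eigenvalues `1`, `-1`: `ctl_diag`.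
`ctl_two`: `x = r₁ r₂`, `r₁ x r₁⁻¹ = r₂ r₁ = x⁻¹ = x ^ (m - 1)`; `frob` with `y = x`, `τ = r₁`, `j = m - 1` gives `nn f (zpowers (x⁻²)) ≤ η` (`x ^ (m - 1) * x⁻¹ = x⁻²`). `N = zpowers (x ^ 2)` has at most
`m` elements, so every `n ∈ N` has defect at most `m η` (`sub_le_card_nn`). `dfc_of_quot` with `N`, `g = r₁`, `h = r₂`: `r_i n r_i⁻¹ = n⁻¹` for `n ∈ N`; `r₁ r₂ r₁⁻¹ r₂⁻¹ = x²`; fusion: `x ^ (2 i) r₁ = x ^ i r₁ x ^ (-i)`
(as `r₁ x ^ (-i) = x ^ i r₁`), and in the same way for `r₂`; `N` commutes with `x`. So the defect of `x` is at most `2 m η + 8 C₁ η`.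
-/

set_option autoImplicit false

open Module Pool.Agent.Helper13.Ded

namespace Pool.Agent.Helper70.GLn

private lemma fin38 {F P : Type} [Field F] [AddCommGroup P] [Module F P] [Finite P] :
    Finite (P ≃ₗ[F] P) :=
  Finite.of_injective (fun g : P ≃ₗ[F] P => (g : P → P)) DFunLike.coe_injective

private lemma diag38 {F P : Type} [Field F] [AddCommGroup P] [Module F P] [Finite P]
    (r : P ≃ₗ[F] P) (hr : ∀ v, r (r v) = v) (h2 : (2 : F) ≠ 0) :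
    ∃ (ι : Type) (_ : Finite ι) (b : Basis ι F P) (c : ι → Fˣ),
      ∀ i, r (b i) = (c i : F) • b i := by
  let E1 := LinearMap.ker ((r : P →ₗ[F] P) - LinearMap.id)
  let E2 := LinearMap.ker ((r : P →ₗ[F] P) + LinearMap.id)
  have m1 : ∀ v, v ∈ E1 ↔ r v = v := fun v => by
    simp [E1, LinearMap.mem_ker, sub_eq_zero]
  have m2 : ∀ v, v ∈ E2 ↔ r v = -v := fun v => by
    simp [E2, LinearMap.mem_ker, add_eq_zero_iff_eq_neg]
  have hc : IsCompl E1 E2 := by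
    constructor
    · rw [Submodule.disjoint_def]
      intro v h1 h2'
      rw [m1] at h1
      rw [m2, h1] at h2'
      have h3 : (2 : F) • v = 0 := by
        rw [two_smul]
        nth_rewrite 1 [h2']
        exact neg_add_cancel v
      exact (smul_eq_zero.1 h3).resolve_left h2
    · rw [codisjoint_iff, eq_top_iff]
      intro v _
      rw [Submodule.mem_sup]
      refine ⟨(2 : F)⁻¹ • (v + r v), ?_, (2 : F)⁻¹ • (v - r v), ?_, ?_⟩
      · rw [m1, map_smul, map_add, hr, add_comm]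
      · rw [m2, map_smul, map_sub, hr, ← smul_neg, neg_sub]
      · rw [← smul_add, add_add_sub_cancel, ← two_smul F, smul_smul, inv_mul_cancel₀ h2, one_smul]
  let b1 := Basis.ofVectorSpace F E1
  let b2 := Basis.ofVectorSpace F E2
  refine ⟨_, inferInstance, (b1.prod b2).map (Submodule.prodEquivOfIsCompl E1 E2 hc),
    Sum.elim (fun _ => 1) (fun _ => -1), ?_⟩
  rintro (i | i)
  · have h1 := (m1 (b1 i)).1 (b1 i).2
    simpa using h1
  · have h1 := (m2 (b2 i)).1 (b2 i).2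
    simpa using h1

theorem ctl_invol (F : Type) [Field F] [Finite F] : ∃ C : ℝ, 0 ≤ C ∧
    ∀ (P : Type) [AddCommGroup P] [Module F P] [Finite P] (s : ℕ) (η : ℝ)
    (f : (P ≃ₗ[F] P) → ℝ), 2 ≤ s → Ctl F P s η f →
    ∀ r : P ≃ₗ[F] P, r * r = 1 → f 1 - f r ≤ C * η := by
  obtain ⟨C, hC, h⟩ := ctl_diag F
  refine ⟨C + 1, by linarith, ?_⟩
  intro P _ _ _ s η f hs hf r hr
  have hη := hf.nonneg (by omega)
  have hr' : ∀ v, r (r v) = v := fun v => by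
    have h1 := congrArg (fun g : P ≃ₗ[F] P => g v) hr
    exact h1
  by_cases h2 : (2 : F) = 0
  · have h3 : ((r : P →ₗ[F] P) - LinearMap.id) ^ 2 = 0 := by
      rw [pow_two]
      ext v
      show r (r v - v) - (r v - v) = 0
      rw [map_sub, hr']
      have h4 : (2 : F) • (v - r v) = 0 := by rw [h2, zero_smul]
      rw [two_smul] at h4
      rw [← h4]
      abel
    have h4 : ((r : P →ₗ[F] P) - LinearMap.id) ^ s = 0 := by
      rw [show s = 2 + (s - 2) by omega, pow_add, h3, zero_mul]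
    have h5 := hf.unip r h4
    nlinarith
  · obtain ⟨ι, _, b, c, hb⟩ := diag38 r hr' h2
    have h3 := h P s η f (by omega) hf b c r hb
    nlinarith

private lemma conj38 {G : Type*} [Group G] {r x : G} (h : r * x * r⁻¹ = x⁻¹) (k : ℤ) :
    r * x ^ k * r⁻¹ = (x ^ k)⁻¹ := by
  rw [← conj_zpow, h, inv_zpow]

private lemma fus38 {G : Type*} [Group G] {θ : G → ℝ} (hθ : HP θ) {r x : G}
    (h : r * x * r⁻¹ = x⁻¹) {n : G} (hn : n ∈ Subgroup.zpowers (x⁻¹ * x⁻¹)) :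
    θ (n * r) = θ r := by
  obtain ⟨k, rfl⟩ := Subgroup.mem_zpowers_iff.1 hn
  have h1 := conj38 h k
  have h2 : (x⁻¹ * x⁻¹) ^ k * r = (x ^ k)⁻¹ * r * ((x ^ k)⁻¹)⁻¹ := by
    have h3 : (x⁻¹ * x⁻¹) ^ k = (x ^ k)⁻¹ * (x ^ k)⁻¹ := by
      rw [(Commute.refl x⁻¹).mul_zpow, inv_zpow]
    have h4 : r * x ^ k = (x ^ k)⁻¹ * r := by
      rw [← h1]
      group
    rw [h3, inv_inv, mul_assoc ((x ^ k)⁻¹) r, h4]
    group
  rw [h2]
  exact hθ.conj r ((x ^ k)⁻¹)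

private lemma mem38 {G : Type*} [Group G] {r x : G}
    (h : r * x * r⁻¹ = x⁻¹) {n : G} (hn : n ∈ Subgroup.zpowers (x⁻¹ * x⁻¹)) :
    r * n * r⁻¹ ∈ Subgroup.zpowers (x⁻¹ * x⁻¹) := by
  obtain ⟨k, rfl⟩ := Subgroup.mem_zpowers_iff.1 hn
  have h3 : (x⁻¹ * x⁻¹) ^ k = x ^ (-2 * k) := by
    rw [(Commute.refl x⁻¹).mul_zpow, inv_zpow, ← zpow_neg, ← zpow_add]
    congr 1
    ring
  rw [h3, conj38 h, ← h3]
  exact Subgroup.inv_mem _ (Subgroup.zpow_mem _ (Subgroup.mem_zpowers _) k)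

theorem ctl_two (F : Type) [Field F] [Finite F] {m : ℕ} (hm : 0 < m) : ∃ C : ℝ, 0 ≤ C ∧
    ∀ (P : Type) [AddCommGroup P] [Module F P] [Finite P] (s : ℕ) (η : ℝ)
    (f : (P ≃ₗ[F] P) → ℝ), 2 ≤ s → Ctl F P s η f →
    ∀ r₁ r₂ : P ≃ₗ[F] P, r₁ * r₁ = 1 → r₂ * r₂ = 1 → (r₁ * r₂) ^ m = 1 →
    f 1 - f (r₁ * r₂) ≤ C * η := by
  obtain ⟨C, hC, h⟩ := ctl_invol F
  refine ⟨2 * m + 8 * C, by positivity, ?_⟩
  intro P _ _ _ s η f hs hf r₁ r₂ h1 h2 hx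
  have hfin : Finite (P ≃ₗ[F] P) := fin38
  have hη := hf.nonneg (by omega)
  have i1 : r₁⁻¹ = r₁ := inv_eq_of_mul_eq_one_right h1
  have i2 : r₂⁻¹ = r₂ := inv_eq_of_mul_eq_one_right h2
  have c1 : r₁ * (r₁ * r₂) * r₁⁻¹ = (r₁ * r₂)⁻¹ := by
    rw [mul_inv_rev, i1, i2, ← mul_assoc, h1, one_mul]
  have c2 : r₂ * (r₁ * r₂) * r₂⁻¹ = (r₁ * r₂)⁻¹ := by
    rw [mul_inv_rev, i1, i2, mul_assoc, mul_assoc, h2, mul_one]
  have hpow : (r₁ * r₂) ^ (m - 1) = (r₁ * r₂)⁻¹ := by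
    apply eq_inv_of_mul_eq_one_left
    rw [← pow_succ, show m - 1 + 1 = m by omega, hx]
  have hN := hf.frob (r₁ * r₂) r₁ (m - 1) (by rw [c1, hpow])
  rw [hpow] at hN
  have hcard : Nat.card (Subgroup.zpowers ((r₁ * r₂)⁻¹ * (r₁ * r₂)⁻¹)) ≤ m := by
    rw [Nat.card_zpowers]
    apply orderOf_le_of_pow_eq_one hm
    rw [(Commute.refl (r₁ * r₂)⁻¹).mul_pow, inv_pow, hx, inv_one, one_mul]
  have hdef : ∀ n ∈ Subgroup.zpowers ((r₁ * r₂)⁻¹ * (r₁ * r₂)⁻¹), f 1 - f n ≤ m * η := by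
    intro n hn
    have h3 := sub_le_card_nn hf.hp _ n hn
    have h4 : (Nat.card (Subgroup.zpowers ((r₁ * r₂)⁻¹ * (r₁ * r₂)⁻¹)) : ℝ) ≤ m := by
      exact_mod_cast hcard
    have h5 : (0 : ℝ) ≤ Nat.card (Subgroup.zpowers ((r₁ * r₂)⁻¹ * (r₁ * r₂)⁻¹)) := by
      positivity
    nlinarith [mul_le_mul_of_nonneg_left hN h5, mul_le_mul_of_nonneg_right h4 hη]
  have key := dfc_of_quot hf.hp (Subgroup.zpowers ((r₁ * r₂)⁻¹ * (r₁ * r₂)⁻¹)) r₁ r₂
    (fun n hn => mem38 c1 hn) (fun n hn => mem38 c2 hn)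
    (by
      rw [i1, i2]
      have h3 : r₁ * r₂ * r₁ * r₂ = ((r₁ * r₂)⁻¹ * (r₁ * r₂)⁻¹)⁻¹ := by
        rw [mul_inv_rev, inv_inv, mul_assoc (r₁ * r₂)]
      rw [h3]
      exact Subgroup.inv_mem _ (Subgroup.mem_zpowers _))
    (fun n hn => fus38 hf.hp c1 hn) (fun n hn => fus38 hf.hp c2 hn)
    (fun n hn => by
      obtain ⟨k, rfl⟩ := Subgroup.mem_zpowers_iff.1 hn
      have h3 : Commute (r₁ * r₂)⁻¹ (r₁ * r₂) := (Commute.refl (r₁ * r₂)).inv_left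
      exact (h3.mul_left h3).zpow_left k)
    hdef
  have e1 := h P s η f hs hf r₁ h1
  have e2 := h P s η f hs hf r₂ h2
  nlinarith

end Pool.Agent.Helper70.GLn
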