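import Pool.Agent.Helper70.GLu.SS2
import Pool.Agent.Helper70.GLn.LG

/-!
# Project GU: elements acting by many copies of a nonscalar map
(the proof is that of GLn/LG by helper77; `q - 1` divides the number of copies)
-/

set_option autoImplicit false

open Module Pool.Agent.Helper13.Ded

namespace Pool.Agent.Helper70.GLn

section LG70

variable {F E A' : Type} [Field F] [Finite F] [AddCommGroup E] [Module F E] [Finite E]
  [AddCommGroup A'] [Module F A'] [Finite A'] {k : ℕ}

/-- `M ↦ (tens M T, 0)` -/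
private def ym70 (T : E →ₗ[F] E) :
    Matrix (Fin k) (Fin k) F →+ ((Fin k → E) →ₗ[F] ((Fin k → E) × A')) where
  toFun M := LinearMap.inl F (Fin k → E) A' ∘ₗ tens M T
  map_zero' := by
    refine LinearMap.ext fun f => Prod.ext (funext fun i => ?_) rfl
    show tens 0 T f i = 0
    simp only [tens_apply, Matrix.zero_apply, zero_smul, Finset.sum_const_zero]
  map_add' M N := by
    refine LinearMap.ext fun f => Prod.ext (funext fun i => ?_) ?_
    · show tens (M + N) T f i = tens M T f i + tens N T f i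
      simp only [tens_apply, Matrix.add_apply, add_smul, Finset.sum_add_distrib]
    · show (0 : A') = 0 + 0
      rw [add_zero]

private theorem ym_apply70 (T : E →ₗ[F] E) (M : Matrix (Fin k) (Fin k) F) (f : Fin k → E) :
    (ym70 (A' := A') T M) f = (tens M T f, 0) := rfl

private theorem ym_rank70 {T : E →ₗ[F] E} (hT : T ≠ 0) (M : Matrix (Fin k) (Fin k) F) :
    M.rank ≤ finrank F (LinearMap.range (ym70 (A' := A') T M)) := by
  have h1 : LinearMap.range (ym70 (A' := A') T M)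
      = (LinearMap.range (tens M T)).map (LinearMap.inl F (Fin k → E) A') :=
    LinearMap.range_comp _ _
  rw [h1, ← (Submodule.equivMapOfInjective (LinearMap.inl F (Fin k → E) A')
    LinearMap.inl_injective (LinearMap.range (tens M T))).finrank_eq]
  exact rank_tens M hT

private theorem act_ym70 (x₀ : E ≃ₗ[F] E) (x' : A' ≃ₗ[F] A') (S : E →ₗ[F] E)
    (l : Lev F ((Fin k → E) × A') (Fin k → E))
    (h1 : ∀ v, l.1.1 v = ((fun i => x₀ (v.1 i)), x' v.2)) (h2 : ∀ f, l.1.2 f = fun i => x₀ (f i))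
    (M : Matrix (Fin k) (Fin k) F) :
    act l (ym70 S M) = ym70 ((x₀ : E →ₗ[F] E) ∘ₗ S ∘ₗ (x₀.symm : E →ₗ[F] E)) M := by
  have h3 : ∀ b, l.1.2.symm b = fun i => x₀.symm (b i) := by
    intro b
    apply l.1.2.injective
    rw [LinearEquiv.apply_symm_apply, h2]
    funext i
    rw [LinearEquiv.apply_symm_apply]
  refine LinearMap.ext fun b => ?_
  rw [act_apply, ym_apply70, ym_apply70, h1, h3]
  refine Prod.ext (funext fun i => ?_) ?_
  · show x₀ (tens M S _ i) = tens M ((x₀ : E →ₗ[F] E) ∘ₗ S ∘ₗ (x₀.symm : E →ₗ[F] E)) b i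
    rw [tens_apply, tens_apply, map_sum]
    refine Finset.sum_congr rfl fun j _ => ?_
    rw [map_smul]
    rfl
  · show x' 0 = 0
    rw [map_zero]

/-- the homomorphism `M ↦ u1 (M ⊗ T, 0)` -/
private def cm70 (T : E →ₗ[F] E) :
    Multiplicative (Matrix (Fin k) (Fin k) F) →*
      SpecialLinearGroup F (((Fin k → E) × A') × (Fin k → E)) :=
  uu.comp (AddMonoidHom.toMultiplicative (ym70 T))

private theorem cm_apply70 (T : E →ₗ[F] E) (M : Matrix (Fin k) (Fin k) F) :
    cm70 (A' := A') T (Multiplicative.ofAdd M) = u1 (ym70 T M) := rfl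

private theorem nn_cm70 (θ : SpecialLinearGroup F (((Fin k → E) × A') × (Fin k → E)) → ℝ)
    (hθ : HP θ) {T : E →ₗ[F] E} (hT : T ≠ 0) (hk : 2 ≤ k) :
    (1 - 2 / (Nat.card F : ℝ) ^ k - 1 / (Nat.card F : ℝ) ^ (k - 1)) * NU θ ≤
      nn θ (cm70 (A' := A') T).range := by
  classical
  have := Fintype.ofFinite F
  have := Fintype.ofFinite E
  have hfE : Module.Finite F E := Module.Finite.of_finite
  have hfA' : Module.Finite F A' := Module.Finite.of_finite
  have hq1 : 1 < Nat.card F := Finite.one_lt_card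
  have hq1' : (1 : ℝ) < Nat.card F := by exact_mod_cast hq1
  have hq0 : (0 : ℝ) < Nat.card F := by linarith
  have hN := NU_nonneg hθ
  have hE : 1 ≤ finrank F E := by
    have : Nontrivial E := by
      by_contra hne
      rw [not_nontrivial_iff_subsingleton] at hne
      exact hT (LinearMap.ext fun v => Subsingleton.elim _ _)
    exact finrank_pos
  have hB : k ≤ finrank F (Fin k → E) := by
    rw [finrank_pi_fintype, Finset.sum_const, Finset.card_univ, Fintype.card_fin, smul_eq_mul]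
    exact Nat.le_mul_of_pos_right _ hE
  have hA : k ≤ finrank F ((Fin k → E) × A') := by
    rw [finrank_prod]
    exact hB.trans (Nat.le_add_right _ _)
  have hav : av (fun c : (cm70 (A' := A') (k := k) T).range => θ c) =
      av (fun M : Multiplicative (Matrix (Fin k) (Fin k) F) => θ (cm70 T M)) :=
    (av_comp_surj (cm70 (A' := A') (k := k) T).rangeRestrict
      (MonoidHom.rangeRestrict_surjective _) (fun c => θ c)).symm
  unfold nn
  rw [hav]
  have hterm : ∀ M : Matrix (Fin k) (Fin k) F, θ (cm70 T (Multiplicative.ofAdd M)) ≤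
      θ 1 - (1 - 1 / (Nat.card F : ℝ) ^ (k - 1)) * NU θ + (1 / (Nat.card F : ℝ) ^ M.rank) * NU θ := by
    intro M
    rw [cm_apply70]
    have h1 := rk_lo hθ (hk.trans hA) (hk.trans hB) (ym70 T M)
    have h2 : 1 / (Nat.card F : ℝ) ^ finrank F (LinearMap.range (ym70 (A' := A') T M)) ≤
        1 / (Nat.card F : ℝ) ^ M.rank := by
      apply one_div_le_one_div_of_le (by positivity)
      exact pow_le_pow_right₀ hq1'.le (ym_rank70 hT M)
    have h3 : 1 / (Nat.card F : ℝ) ^ (finrank F ((Fin k → E) × A') - 1) ≤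
        1 / (Nat.card F : ℝ) ^ (k - 1) := by
      apply one_div_le_one_div_of_le (by positivity)
      exact pow_le_pow_right₀ hq1'.le (Nat.sub_le_sub_right hA 1)
    have h4 := mul_le_mul_of_nonneg_right h2 hN
    have h5 := mul_le_mul_of_nonneg_right h3 hN
    linarith
  have hsum : ∑ M : Matrix (Fin k) (Fin k) F, θ (cm70 T (Multiplicative.ofAdd M)) ≤
      Nat.card (Matrix (Fin k) (Fin k) F) * (θ 1 - (1 - 1 / (Nat.card F : ℝ) ^ (k - 1)) * NU θ) +
        (∑ M : Matrix (Fin k) (Fin k) F, 1 / (Nat.card F : ℝ) ^ M.rank) * NU θ := by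
    refine (Finset.sum_le_sum fun M _ => hterm M).trans (le_of_eq ?_)
    rw [Finset.sum_add_distrib, Finset.sum_const, Finset.card_univ, nsmul_eq_mul,
      Finset.sum_mul, ← Nat.card_eq_fintype_card (α := Matrix (Fin k) (Fin k) F)]
  have hc : (0 : ℝ) < Nat.card (Matrix (Fin k) (Fin k) F) := by exact_mod_cast Nat.card_pos
  have hsr := sum_rank F k
  have hqk : (0 : ℝ) < (Nat.card F : ℝ) ^ k := by positivity
  have hsr2 : (∑ M : Matrix (Fin k) (Fin k) F, 1 / (Nat.card F : ℝ) ^ M.rank) ≤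
      Nat.card (Matrix (Fin k) (Fin k) F) * (2 / (Nat.card F : ℝ) ^ k) := by
    rw [← le_div_iff₀ hqk] at hsr
    refine hsr.trans (le_of_eq ?_)
    ring
  have hsr3 := mul_le_mul_of_nonneg_right hsr2 hN
  have hav2 : av (fun M : Multiplicative (Matrix (Fin k) (Fin k) F) => θ (cm70 T M)) ≤
      θ 1 - (1 - 1 / (Nat.card F : ℝ) ^ (k - 1)) * NU θ + 2 / (Nat.card F : ℝ) ^ k * NU θ := by
    unfold av
    have e1 : (∑ᶠ M : Multiplicative (Matrix (Fin k) (Fin k) F), θ (cm70 T M)) =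
        ∑ M : Matrix (Fin k) (Fin k) F, θ (cm70 T (Multiplicative.ofAdd M)) := by
      rw [← finsum_eq_sum_of_fintype]
      exact (finsum_comp_equiv (Multiplicative.ofAdd (α := Matrix (Fin k) (Fin k) F))
        (f := fun M => θ (cm70 T M))).symm
    have e2 : (Nat.card (Multiplicative (Matrix (Fin k) (Fin k) F)) : ℝ) =
        Nat.card (Matrix (Fin k) (Fin k) F) := rfl
    rw [e1, e2, div_le_iff₀ hc]
    refine hsum.trans ?_
    linarith
  linarith

private theorem step70 (x₀ : E ≃ₗ[F] E) (x' : A' ≃ₗ[F] A') (S : E →ₗ[F] E)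
    (hS : (x₀ : E →ₗ[F] E) ∘ₗ S ≠ S ∘ₗ (x₀ : E →ₗ[F] E))
    (θ : SpecialLinearGroup F (((Fin k → E) × A') × (Fin k → E)) → ℝ) (hθ : HP θ)
    (l : Lev F ((Fin k → E) × A') (Fin k → E))
    (h1 : ∀ v, l.1.1 v = ((fun i => x₀ (v.1 i)), x' v.2)) (h2 : ∀ f, l.1.2 f = fun i => x₀ (f i))
    (hk : 2 ≤ k) :
    Psi θ l - (NU θ - (1 - 2 / (Nat.card F : ℝ) ^ k - 1 / (Nat.card F : ℝ) ^ (k - 1)) * NU θ) ≤
      θ (dg l) := by
  classical
  obtain ⟨T, hTdef⟩ : ∃ T : E →ₗ[F] E,
      T = S - (x₀ : E →ₗ[F] E) ∘ₗ S ∘ₗ (x₀.symm : E →ₗ[F] E) := ⟨_, rfl⟩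
  have hT : T ≠ 0 := by
    intro h0
    apply hS
    have h3 : S = (x₀ : E →ₗ[F] E) ∘ₗ S ∘ₗ (x₀.symm : E →ₗ[F] E) := by
      rw [← sub_eq_zero, ← hTdef, h0]
    refine LinearMap.ext fun v => ?_
    have h4 := LinearMap.congr_fun h3 (x₀ v)
    simp only [LinearMap.comp_apply, LinearEquiv.coe_coe, LinearEquiv.symm_apply_apply] at h4 ⊢
    exact h4.symm
  have hneg : ∀ X : (Fin k → E) →ₗ[F] ((Fin k → E) × A'), (u1 X)⁻¹ = u1 (-X) := by
    intro X
    rw [inv_eq_iff_mul_eq_one, ← u1_add, add_neg_cancel, u1_zero]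
  have hym : ∀ M : Matrix (Fin k) (Fin k) F, ym70 (A' := A') T M =
      ym70 S M - ym70 ((x₀ : E →ₗ[F] E) ∘ₗ S ∘ₗ (x₀.symm : E →ₗ[F] E)) M := by
    intro M
    refine LinearMap.ext fun f => Prod.ext (funext fun i => ?_) ?_
    · show tens M T f i = tens M S f i - tens M _ f i
      rw [tens_apply, tens_apply, tens_apply, ← Finset.sum_sub_distrib]
      refine Finset.sum_congr rfl fun j _ => ?_
      rw [← smul_sub, hTdef]
      rfl
    · show (0 : A') = 0 - 0
      rw [sub_zero]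
  have hact : ∀ X : (Fin k → E) →ₗ[F] ((Fin k → E) × A'), act l (-X) = - act l X := by
    intro X
    refine LinearMap.ext fun b => ?_
    rw [act_apply, LinearMap.neg_apply, LinearMap.neg_apply, act_apply, map_neg]
  have hmain := coset_lower hθ (uu (F := F) (A := (Fin k → E) × A') (B := Fin k → E)).range
    (by
      rintro _ ⟨a, rfl⟩ _ ⟨b, rfl⟩
      rw [← map_mul, ← map_mul, mul_comm])
    (dg l)
    (by
      rintro _ ⟨a, rfl⟩
      exact ⟨Multiplicative.ofAdd (act l (Multiplicative.toAdd a)),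
        (dg_conj_u1 l (Multiplicative.toAdd a)).symm⟩)
    (cm70 (A' := A') T).range
    (by
      rintro _ ⟨M, rfl⟩
      refine ⟨u1 (ym70 S (Multiplicative.toAdd M)), ⟨_, rfl⟩, ?_⟩
      have e1 : cm70 (A' := A') T M = u1 (ym70 T (Multiplicative.toAdd M)) := rfl
      rw [e1, hym, mul_assoc, mul_assoc, ← mul_assoc (dg l), hneg, dg_conj_u1, ← u1_add, hact,
        act_ym70 x₀ x' S l h1 h2, ← sub_eq_add_neg])
  rw [nn_range_uu] at hmain
  have hact2 : ∀ X : (Fin k → E) →ₗ[F] ((Fin k → E) × A'), act l (act l⁻¹ X) = X := by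
    intro X
    refine LinearMap.ext fun b => ?_
    rw [act_apply, act_apply]
    have e1 : ∀ w, l.1.1 ((l⁻¹).1.1 w) = w := fun w => LinearEquiv.apply_symm_apply l.1.1 w
    have e2 : (l⁻¹).1.2.symm (l.1.2.symm b) = b := LinearEquiv.apply_symm_apply l.1.2 b
    rw [e1, e2]
  have hinj : ∀ X X' : (Fin k → E) →ₗ[F] ((Fin k → E) × A'), act l X = act l X' → X = X' := by
    intro X X' h
    refine LinearMap.ext fun b => ?_
    have h3 := LinearMap.congr_fun h (l.1.2 b)
    rw [act_apply, act_apply, LinearEquiv.symm_apply_apply] at h3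
    exact l.1.1.injective h3
  have hu1 : ∀ X X' : (Fin k → E) →ₗ[F] ((Fin k → E) × A'), u1 X = u1 X' → X = X' := by
    intro X X' h
    refine LinearMap.ext fun b => ?_
    have h3 : u1 X ((0 : (Fin k → E) × A'), b) = u1 X' ((0 : (Fin k → E) × A'), b) := by rw [h]
    rw [u1_apply, u1_apply] at h3
    have h4 := congrArg Prod.fst h3
    simpa using h4
  have hbij : Function.Bijective (fun X : (Fin k → E) →ₗ[F] ((Fin k → E) × A') =>
      (⟨u1 (act l X), ⟨Multiplicative.ofAdd (act l X), rfl⟩⟩ :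
        (uu (F := F) (A := (Fin k → E) × A') (B := Fin k → E)).range)) := by
    constructor
    · intro X X' h
      exact hinj _ _ (hu1 _ _ (congrArg Subtype.val h))
    · rintro ⟨_, ⟨a, rfl⟩⟩
      refine ⟨act l⁻¹ (Multiplicative.toAdd a), Subtype.ext ?_⟩
      show u1 (act l (act l⁻¹ (Multiplicative.toAdd a))) = u1 (Multiplicative.toAdd a)
      rw [hact2]
  have hav : av (fun u : (uu (F := F) (A := (Fin k → E) × A') (B := Fin k → E)).range =>
      θ (u * dg l)) = Psi θ l := by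
    rw [← av_comp_equiv (Equiv.ofBijective _ hbij)]
    unfold Psi
    congr 1
    funext X
    rw [dg_mul_u1]
    rfl
  rw [hav] at hmain
  have h5 := nn_cm70 (A' := A') θ hθ hT hk
  linarith

end LG70


theorem det_copies {F E : Type} [Field F] [Finite F] [AddCommGroup E] [Module F E] [Finite E]
    {k : ℕ} (hk : (Nat.card F - 1) ∣ k) (x₀ : E ≃ₗ[F] E) (y : (Fin k → E) ≃ₗ[F] (Fin k → E))
    (h : ∀ f, y f = fun i => x₀ (f i)) : LinearEquiv.det y = 1 := by
  have hfE : Module.Finite F E := Module.Finite.of_finite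
  have h1 : (y : (Fin k → E) →ₗ[F] (Fin k → E)) =
      LinearMap.pi (fun i ↦ ((x₀ : E →ₗ[F] E)).comp (LinearMap.proj i)) :=
    LinearMap.ext fun f => h f
  have h2 : LinearEquiv.det y = LinearEquiv.det x₀ ^ k := by
    apply Units.ext
    rw [LinearEquiv.coe_det, h1, LinearMap.det_pi, Finset.prod_const, Finset.card_univ,
      Fintype.card_fin, Units.val_pow_eq_pow_val, LinearEquiv.coe_det]
  obtain ⟨c, rfl⟩ := hk
  have h3 : LinearEquiv.det x₀ ^ (Nat.card F - 1) = 1 := by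
    rw [← Nat.card_units]
    exact pow_card_eq_one'
  rw [h2, pow_mul, h3, one_pow]

theorem large2 (F : Type) [Field F] [Finite F] {ε : ℝ} (hε : 0 < ε) (h : ℕ) : ∃ k₀ : ℕ, ∀ k ≥ k₀,
    (Nat.card F - 1) ∣ k →
    ∀ (E A' : Type) [AddCommGroup E] [Module F E] [Finite E] [AddCommGroup A'] [Module F A']
    [Finite A'] (x₀ : E ≃ₗ[F] E) (x' : A' ≃ₗ[F] A'), Nonsc x₀ →
    ∀ θ : SpecialLinearGroup F (((Fin k → E) × A') × (Fin k → E)) → ℝ, HP θ →
    ∀ l : Lev F ((Fin k → E) × A') (Fin k → E),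
    (∀ v, l.1.1 v = ((fun i => x₀ (v.1 i)), x' v.2)) → (∀ f, l.1.2 f = fun i => x₀ (f i)) →
    orderOf l ≤ h → θ 1 - θ (dg l) ≤ (1 + ε) * NU θ := by
  classical
  obtain ⟨R, hR⟩ := ss2 F (half_pos hε) h
  obtain ⟨n₀, hn₀⟩ := exists_pow_lt_of_lt_one (show (0 : ℝ) < ε / 8 by positivity)
    (show (1 / 2 : ℝ) < 1 by norm_num)
  refine ⟨max R (max 2 n₀), ?_⟩
  intro k hk hdk E A' _ _ _ _ _ _ x₀ x' hns θ hθ l h1 h2 hl1
  obtain ⟨S, hS⟩ := hns
  have hkR : R ≤ k := (le_max_left _ _).trans hk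
  have hk2 : 2 ≤ k := ((le_max_left _ _).trans (le_max_right _ _)).trans hk
  have hkn : n₀ ≤ k := ((le_max_right _ _).trans (le_max_right _ _)).trans hk
  have hfE : Module.Finite F E := Module.Finite.of_finite
  have hfA' : Module.Finite F A' := Module.Finite.of_finite
  have hN := NU_nonneg hθ
  have hE : 1 ≤ finrank F E := by
    have : Nontrivial E := by
      by_contra hne
      rw [not_nontrivial_iff_subsingleton] at hne
      exact hS (LinearMap.ext fun v => Subsingleton.elim _ _)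
    exact finrank_pos
  have hB : k ≤ finrank F (Fin k → E) := by
    rw [finrank_pi_fintype, Finset.sum_const, Finset.card_univ, Fintype.card_fin, smul_eq_mul]
    exact Nat.le_mul_of_pos_right _ hE
  have hA : k ≤ finrank F ((Fin k → E) × A') := by
    rw [finrank_prod]
    exact hB.trans (Nat.le_add_right _ _)
  have hl2 : LinearEquiv.det l.1.1 = 1 := by
    have e1 : LinearEquiv.det l.1.1 * LinearEquiv.det l.1.2 = 1 := l.2
    rwa [det_copies hdk x₀ l.1.2 h2, mul_one] at e1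
  have h3 := hR ((Fin k → E) × A') (Fin k → E) θ hθ l hl1 hl2 (hkR.trans hA) (hkR.trans hB)
  have h4 := step70 x₀ x' S hS θ hθ l h1 h2 hk2
  have hq1 : 1 < Nat.card F := Finite.one_lt_card
  have hq2 : (2 : ℝ) ≤ Nat.card F := by exact_mod_cast hq1
  obtain ⟨j, rfl⟩ : ∃ j, k = j + 1 := ⟨k - 1, by omega⟩
  have hqj : 1 / (Nat.card F : ℝ) ^ j ≤ 2 * (1 / 2) ^ (j + 1) := by
    have e1 : (2 : ℝ) * (1 / 2) ^ (j + 1) = 1 / 2 ^ j := by
      rw [pow_succ, one_div_pow]
      ring
    rw [e1]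
    exact one_div_le_one_div_of_le (by positivity) (pow_le_pow_left₀ (by norm_num) hq2 j)
  have hqk : 2 / (Nat.card F : ℝ) ^ (j + 1) ≤ 2 * (1 / 2) ^ (j + 1) := by
    rw [one_div_pow, ← div_eq_mul_one_div]
    exact div_le_div_of_nonneg_left (by norm_num) (by positivity)
      (pow_le_pow_left₀ (by norm_num) hq2 _)
  have hp : (1 / 2 : ℝ) ^ (j + 1) ≤ ε / 8 :=
    (pow_le_pow_of_le_one (by norm_num) (by norm_num) hkn).trans hn₀.le
  have h5 : 2 / (Nat.card F : ℝ) ^ (j + 1) + 1 / (Nat.card F : ℝ) ^ (j + 1 - 1) ≤ ε / 2 := by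
    rw [Nat.add_sub_cancel]
    linarith
  have h6 := mul_le_mul_of_nonneg_right h5 hN
  have h7 : NU θ = θ 1 - Psi θ 1 := rfl
  nlinarith

end Pool.Agent.Helper70.GLn
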