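import Pool.Agent.Helper70.GLu.IV

/-!
# GU-MO: monomial elements (120-200 lines)

PROOF. Work in the model through `e` (conjugate `f` by `e`: write every map of the model as `cj e _`; products are respected). In the model `M = (j : J) → ZMod (d j) → F` let `π u j i = u j (i - 1)` and for a family `a : (j : J) → ZMod (d j) → Fˣ`
let `D a u j i = a j i * u j i`. `x = D c' π`, `c' j i = if i = 0 then c j else 1`.
(1) `π = r₁ r₂`, `r₂ u j i = u j (-i)`, `r₁ u j i = u j (1 - i)`, `r_i² = 1`, `π ^ m = 1` (as `d j ∣ m`), so `π` has defect at most `C₁ η` (`ctl_two`).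
(2) all `D a` are diagonal in the standard basis of `M` (`Pi.basisFun`-like basis indexed by `Σ j, ZMod (d j)`), defect at most `C₂ η` (`ctl_diag`).
(3) `N` = the subgroup of the `D a` with `∏_i a j i = 1` for all `j`. Every element of `N` has the form `D b * π * (D b)⁻¹ * π⁻¹`: `(D b π (D b)⁻¹ π⁻¹)` is `D a` with `a j i = b j i / b j (i - 1)`; given `a` with product one put
`b j i = ∏_{k ≤ i} a j k` for `0 ≤ i < d j` (representatives `ZMod.val`). `av_quot` with this `N`, `g = D c'`, `h = π`: `g` commutes with `N`, `π` normalises `N`, `g h g⁻¹ h⁻¹ ∈ N`. `n g` is again diagonal for `n ∈ N`: the average of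
`f (n g)` is at least `f 1 - C₂ η`. `n π = D b π (D b)⁻¹` is conjugate to `π`, so the average of `f (n π)` is `f π`. `n g π = g (n π) = g D b π (D b)⁻¹ = D b (g π) (D b)⁻¹`, so the average of `f (n g π)` is
`f (g π)`. Hence `f 1 - f x ≤ 2 C₂ η + 2 C₁ η`.
-/

set_option autoImplicit false

open Module Pool.Agent.Helper13.Ded

namespace Pool.Agent.Helper70.GLn

section mono68

variable {F J : Type} [Field F] {d : J → ℕ}

/-- Diagonal maps of the model. -/
private def DD68 : ((j : J) → ZMod (d j) → Fˣ) →*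
    (((j : J) → ZMod (d j) → F) ≃ₗ[F] ((j : J) → ZMod (d j) → F)) where
  toFun a :=
    { toFun := fun u j i => (a j i : F) * u j i
      map_add' := fun u v => by
        funext j i
        show (a j i : F) * (u j i + v j i) = (a j i : F) * u j i + (a j i : F) * v j i
        ring
      map_smul' := fun c u => by
        funext j i
        show (a j i : F) * (c * u j i) = c * ((a j i : F) * u j i)
        ring
      invFun := fun u j i => ((a j i)⁻¹ : Fˣ) * u j i
      left_inv := fun u => by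
        funext j i
        show (((a j i)⁻¹ : Fˣ) : F) * ((a j i : F) * u j i) = u j i
        rw [← mul_assoc, Units.inv_mul, one_mul]
      right_inv := fun u => by
        funext j i
        show (a j i : F) * ((((a j i)⁻¹ : Fˣ) : F) * u j i) = u j i
        rw [← mul_assoc, Units.mul_inv, one_mul] }
  map_one' := by
    ext u j i
    show ((1 : Fˣ) : F) * u j i = u j i
    rw [Units.val_one, one_mul]
  map_mul' a b := by
    ext u j i
    show ((a j i * b j i : Fˣ) : F) * u j i = (a j i : F) * ((b j i : F) * u j i)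
    rw [Units.val_mul, mul_assoc]

private lemma DD68_apply (a : (j : J) → ZMod (d j) → Fˣ) (u : (j : J) → ZMod (d j) → F) (j : J)
    (i : ZMod (d j)) : DD68 a u j i = (a j i : F) * u j i := rfl

/-- Permutations of the coordinates of the model. -/
private def PP68 (σ : (j : J) → Equiv.Perm (ZMod (d j))) :
    ((j : J) → ZMod (d j) → F) ≃ₗ[F] ((j : J) → ZMod (d j) → F) where
  toFun u j i := u j (σ j i)
  map_add' _ _ := rfl
  map_smul' _ _ := rfl
  invFun u j i := u j ((σ j).symm i)
  left_inv u := by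
    funext j i
    show u j (σ j ((σ j).symm i)) = u j i
    rw [Equiv.apply_symm_apply]
  right_inv u := by
    funext j i
    show u j ((σ j).symm (σ j i)) = u j i
    rw [Equiv.symm_apply_apply]

private lemma PP68_apply (σ : (j : J) → Equiv.Perm (ZMod (d j))) (u : (j : J) → ZMod (d j) → F)
    (j : J) (i : ZMod (d j)) : PP68 (F := F) σ u j i = u j (σ j i) := rfl

private lemma val_neg_one68 (n : ℕ) [NeZero n] : (-1 : ZMod n).val + 1 = n := by
  obtain ⟨k, rfl⟩ := Nat.exists_eq_succ_of_ne_zero (NeZero.ne n)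
  rw [ZMod.val_neg_one]

private lemma exists_b68 [∀ j, NeZero (d j)] (a : (j : J) → ZMod (d j) → Fˣ)
    (ha : ∀ j, ∏ i, a j i = 1) :
    ∃ b : (j : J) → ZMod (d j) → Fˣ, ∀ j i, b j i = a j i * b j (i - 1) := by
  refine ⟨fun j i => ∏ k ∈ Finset.range (i.val + 1), a j (k : ZMod (d j)), fun j i => ?_⟩
  have hprod : ∏ k ∈ Finset.range (d j), a j (k : ZMod (d j)) = 1 := by
    rw [← ha j]
    refine Finset.prod_bij (fun k _ => (k : ZMod (d j))) (fun _ _ => Finset.mem_univ _) ?_ ?_
      (fun _ _ => rfl)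
    · intro k hk l hl hkl
      rw [Finset.mem_range] at hk hl
      have h1 := congrArg ZMod.val hkl
      rwa [ZMod.val_natCast_of_lt hk, ZMod.val_natCast_of_lt hl] at h1
    · intro i _
      exact ⟨i.val, Finset.mem_range.2 (ZMod.val_lt i), ZMod.natCast_zmod_val i⟩
  show ∏ k ∈ Finset.range (i.val + 1), a j (k : ZMod (d j)) =
    a j i * ∏ k ∈ Finset.range ((i - 1).val + 1), a j (k : ZMod (d j))
  by_cases hi : i = 0
  · subst hi
    have h1 : ((0 : ZMod (d j)) - 1).val + 1 = d j := by
      rw [zero_sub]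
      exact val_neg_one68 (d j)
    rw [h1, hprod, ZMod.val_zero, zero_add, Finset.prod_range_one, Nat.cast_zero, mul_one]
  · have h1 : (i - 1).val + 1 = i.val := by
      have h2 : ((i.val - 1 : ℕ) : ZMod (d j)) = i - 1 := by
        have h3 : 0 < i.val := Nat.pos_of_ne_zero fun h => hi ((ZMod.val_eq_zero i).1 h)
        rw [Nat.cast_sub h3, ZMod.natCast_zmod_val, Nat.cast_one]
      have h3 : 0 < i.val := Nat.pos_of_ne_zero fun h => hi ((ZMod.val_eq_zero i).1 h)
      have h4 : i.val < d j := ZMod.val_lt i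
      rw [← h2, ZMod.val_natCast_of_lt (by omega)]
      omega
    rw [h1, Finset.prod_range_succ, ZMod.natCast_zmod_val, mul_comm]

private lemma av_const68 {P : Type*} [Finite P] [Nonempty P] (f : P → ℝ) (c : ℝ)
    (hf : ∀ p, f p = c) : av f = c := by
  have hp : (0 : ℝ) < Nat.card P := by exact_mod_cast Nat.card_pos
  have : f = fun _ => c := funext hf
  have _inst := Fintype.ofFinite P
  rw [this, av, finsum_eq_sum_of_fintype, Finset.sum_const, Finset.card_univ, nsmul_eq_mul,
    ← Nat.card_eq_fintype_card]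
  field_simp

private lemma le_av68 {P : Type*} [Finite P] [Nonempty P] (f : P → ℝ) (c : ℝ)
    (hf : ∀ p, c ≤ f p) : c ≤ av f := by
  have hp : (0 : ℝ) < Nat.card P := by exact_mod_cast Nat.card_pos
  have _inst := Fintype.ofFinite P
  rw [av, finsum_eq_sum_of_fintype, le_div_iff₀ hp]
  calc c * Nat.card P = ∑ _p : P, c := by
        rw [Finset.sum_const, Finset.card_univ, nsmul_eq_mul, Nat.card_eq_fintype_card, mul_comm]
    _ ≤ ∑ p, f p := Finset.sum_le_sum fun p _ => hf p

end mono68

theorem ctl_mono (F : Type) [Field F] [Finite F] {m : ℕ} (hm : 0 < m) : ∃ C : ℝ, 0 ≤ C ∧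
    ∀ (P : Type) [AddCommGroup P] [Module F P] [Finite P] (s : ℕ) (η : ℝ)
    (f : (P ≃ₗ[F] P) → ℝ), 2 ≤ s → Ctl F P s η f →
    ∀ {J : Type} [Finite J] (d : J → ℕ), (∀ j, d j ∣ m) →
    ∀ (e : P ≃ₗ[F] ((j : J) → ZMod (d j) → F)) (c : J → Fˣ) (x : P ≃ₗ[F] P),
    (∀ v j i, e (x v) j i = (if i = 0 then (c j : F) else 1) * e v j (i - 1)) →
    f 1 - f x ≤ C * η := by
  obtain ⟨C₁, hC₁, h₁⟩ := ctl_two F hm
  obtain ⟨C₂, hC₂, h₂⟩ := ctl_diag F
  refine ⟨2 * C₂ + 2 * C₁, by positivity, ?_⟩
  intro P _ _ _ s η f hs hf J _ d hd e c x hx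
  classical
  have _iJ := Fintype.ofFinite J
  have hd0 : ∀ j, NeZero (d j) := fun j => ⟨fun h => by
    have := hd j
    rw [h, zero_dvd_iff] at this
    omega⟩
  let M := (j : J) → ZMod (d j) → F
  let π : M ≃ₗ[F] M := PP68 fun j => Equiv.subRight 1
  have hπ : ∀ u j i, π u j i = u j (i - 1) := fun u j i => rfl
  let r₂ : M ≃ₗ[F] M := PP68 fun j => Equiv.neg _
  let r₁ : M ≃ₗ[F] M := PP68 fun j => Equiv.subLeft 1
  have hr : π = r₁ * r₂ := by
    ext u j i
    show u j (i - 1) = u j (-(1 - i))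
    rw [neg_sub]
  have hr₁ : r₁ * r₁ = 1 := by
    ext u j i
    show u j (1 - (1 - i)) = u j i
    rw [sub_sub_cancel]
  have hr₂ : r₂ * r₂ = 1 := by
    ext u j i
    show u j (- -i) = u j i
    rw [neg_neg]
  have hπk : ∀ (k : ℕ) (u : M) (j : J) (i : ZMod (d j)), (π ^ k) u j i = u j (i - k) := by
    intro k
    induction k with
    | zero => intro u j i; simp
    | succ k ih =>
      intro u j i
      rw [pow_succ]
      show (π ^ k) (π u) j i = _
      rw [ih, hπ]
      congr 1
      push_cast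
      ring
  have hπm : π ^ m = 1 := by
    ext u j i
    rw [hπk, (ZMod.natCast_eq_zero_iff m (d j)).2 (hd j), sub_zero]
    rfl
  -- the defect of π
  have hfπ : f 1 - f (cj e π) ≤ C₁ * η := by
    have := h₁ P s η f hs hf (cj e r₁) (cj e r₂) (by rw [← map_mul, hr₁, map_one])
      (by rw [← map_mul, hr₂, map_one]) (by rw [← map_mul, ← hr, ← map_pow, hπm, map_one])
    rwa [← map_mul, ← hr] at this
  -- the defect of the diagonal maps
  let b : Basis (Σ j, ZMod (d j)) F P :=
    (Pi.basis fun j => Pi.basisFun F (ZMod (d j))).map e.symm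
  have hfD : ∀ a : (j : J) → ZMod (d j) → Fˣ, f 1 - f (cj e (DD68 a)) ≤ C₂ * η := by
    intro a
    refine h₂ P s η f (by omega) hf b (fun ji => a ji.1 ji.2) _ ?_
    rintro ⟨j, i⟩
    have hb : e (b ⟨j, i⟩) = Pi.single j (Pi.single i 1) := by
      show e (((Pi.basis fun j => Pi.basisFun F (ZMod (d j))).map e.symm) ⟨j, i⟩) = _
      rw [Basis.map_apply, LinearEquiv.apply_symm_apply, Pi.basis_apply, Pi.basisFun_apply]
    apply e.injective
    rw [cj_apply, LinearEquiv.apply_symm_apply, map_smul, hb]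
    funext j' i'
    rw [DD68_apply]
    show (a j' i' : F) * (Pi.single j (Pi.single i (1 : F)) : M) j' i' =
      (a j i : F) * (Pi.single j (Pi.single i (1 : F)) : M) j' i'
    by_cases hj : j' = j
    · subst hj
      rw [Pi.single_eq_same]
      by_cases hi : i' = i
      · subst hi; rfl
      · rw [Pi.single_eq_of_ne hi, mul_zero, mul_zero]
    · rw [Pi.single_eq_of_ne hj]
      show (a j' i' : F) * (0 : F) = (a j i : F) * (0 : F)
      rw [mul_zero, mul_zero]
  -- the subgroup
  let N₀ : Subgroup ((j : J) → ZMod (d j) → Fˣ) :=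
    { carrier := {a | ∀ j, ∏ i, a j i = 1}
      mul_mem' := by
        intro a b ha hb j
        show ∏ i, a j i * b j i = 1
        rw [Finset.prod_mul_distrib, ha j, hb j, one_mul]
      one_mem' := by
        intro j
        show ∏ _i : ZMod (d j), (1 : Fˣ) = 1
        exact Finset.prod_const_one
      inv_mem' := by
        intro a ha j
        show ∏ i, (a j i)⁻¹ = 1
        rw [Finset.prod_inv_distrib, ha j, inv_one] }
  have hN₀ : ∀ a, a ∈ N₀ ↔ ∀ j, ∏ i, a j i = 1 := fun a => Iff.rfl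
  let q : ((j : J) → ZMod (d j) → Fˣ) →* (P ≃ₗ[F] P) := (cj e).comp DD68
  have hq : ∀ a, q a = cj e (DD68 a) := fun a => rfl
  let N : Subgroup (P ≃ₗ[F] P) := N₀.map q
  let c' : (j : J) → ZMod (d j) → Fˣ := fun j i => if i = 0 then c j else 1
  let sh : ((j : J) → ZMod (d j) → Fˣ) → ((j : J) → ZMod (d j) → Fˣ) := fun a j i => a j (i - 1)
  have hsh : ∀ a, ∀ j, ∏ i, sh a j i = ∏ i, a j i := by
    intro a j
    exact Equiv.prod_comp (Equiv.subRight (1 : ZMod (d j))) (a j)
  have hπD : ∀ a, π * DD68 a = DD68 (sh a) * π := by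
    intro a
    ext u j i
    rfl
  have hqπ : ∀ a, cj e π * q a * (cj e π)⁻¹ = q (sh a) := by
    intro a
    rw [hq, hq, ← map_mul, hπD, map_mul, mul_inv_cancel_right]
  have hxg : x = q c' * cj e π := by
    ext v
    apply e.injective
    rw [hq, ← map_mul, cj_apply, LinearEquiv.apply_symm_apply]
    funext j i
    rw [hx]
    show _ = ((if i = 0 then c j else 1 : Fˣ) : F) * e v j (i - 1)
    split_ifs <;> rfl
  -- conjugation
  have hconj : ∀ a ∈ N₀, ∃ b, q a * cj e π = q b * cj e π * (q b)⁻¹ := by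
    intro a ha
    obtain ⟨b, hb⟩ := exists_b68 a ha
    refine ⟨b, ?_⟩
    rw [eq_mul_inv_iff_mul_eq, mul_assoc, hq, hq, ← map_mul, hπD, ← map_mul, ← mul_assoc,
      ← map_mul, ← map_mul]
    congr 3
    funext j i
    exact (hb j i).symm
  have hcomm : ∀ a b, q a * q b = q b * q a := by
    intro a b
    rw [← map_mul, ← map_mul, mul_comm]
  have h3 := av_quot hf.hp N (q c') (cj e π) (by
      rintro n ⟨a, ha, rfl⟩
      rw [hcomm, mul_inv_cancel_right]
      exact ⟨a, ha, rfl⟩) (by
      rintro n ⟨a, ha, rfl⟩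
      rw [hqπ]
      exact ⟨sh a, (hN₀ _).2 fun j => by rw [hsh]; exact ha j, rfl⟩) (by
      have h4 : q c' * cj e π * (q c')⁻¹ * (cj e π)⁻¹ = q (c' * sh (c'⁻¹)) := by
        rw [map_mul, ← hqπ, map_inv]
        group
      rw [h4]
      refine ⟨_, (hN₀ _).2 fun j => ?_, rfl⟩
      show ∏ i, c' j i * sh (c'⁻¹) j i = 1
      rw [Finset.prod_mul_distrib, hsh]
      show (∏ i, c' j i) * ∏ i, (c' j i)⁻¹ = 1
      rw [Finset.prod_inv_distrib, mul_inv_cancel])
  have h4 : av (fun n : N => f (n * (q c' * cj e π))) = f (q c' * cj e π) := by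
    apply av_const68
    rintro ⟨n, a, ha, rfl⟩
    obtain ⟨b, hb⟩ := hconj a ha
    show f (q a * (q c' * cj e π)) = _
    rw [← mul_assoc, hcomm, mul_assoc, hb, ← mul_assoc, ← mul_assoc, hcomm c' b,
      mul_assoc (q b), hf.hp.conj]
  have h5 : av (fun n : N => f (n * cj e π)) = f (cj e π) := by
    apply av_const68
    rintro ⟨n, a, ha, rfl⟩
    obtain ⟨b, hb⟩ := hconj a ha
    show f (q a * cj e π) = _
    rw [hb, hf.hp.conj]
  have h6 : f 1 - C₂ * η ≤ av (fun n : N => f (n * q c')) := by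
    apply le_av68
    rintro ⟨n, a, ha, rfl⟩
    show _ ≤ f (q a * q c')
    have := hfD (a * c')
    rw [← hq, map_mul] at this
    linarith
  rw [h4, h5] at h3
  rw [hxg]
  linarith

end Pool.Agent.Helper70.GLn
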