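import Pool.Agent.Helper70.GLu.SN
import Pool.Agent.Helper70.GLu.AL2
import Pool.Agent.Helper70.GLu.LG2
import Pool.Agent.Helper70.GLn.PT

/-!
# Project GU: the iteration for elements close to the identity
-/

set_option autoImplicit false

open Module Pool.Agent.Helper13.Ded

namespace Pool.Agent.Helper70.GLn

/-- The upper bound for the defect of every element `x` of bounded order with `rank (x - 1) ≤ K`. -/
def PK (F : Type) [Field F] [Finite F] (h K : ℕ) (κ : ℝ) (n0 : ℕ) : Prop :=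
  ∀ (V : Type) [AddCommGroup V] [Module F V] [Finite V], n0 ≤ finrank F V →
    ∀ θ : SpecialLinearGroup F V → ℝ, HP θ → ∀ x : SpecialLinearGroup F V, orderOf x ≤ h →
    finrank F (LinearMap.range (((x : V ≃ₗ[F] V) : V →ₗ[F] V) - LinearMap.id)) ≤ K →
    ∃ W : Submodule F V, θ 1 - θ x ≤ (1 + κ) * nn θ (EE W W)

theorem qk_of_pk {F : Type} [Field F] [Finite F] {h K n0 : ℕ} {κ : ℝ} (hκ : 0 ≤ κ)
    (hP : PK F h K κ n0) : QK F h K κ n0 := by
  intro V _ _ _ hV φ hφ x hx hK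
  obtain ⟨W, hW⟩ := hP V hV φ hφ.hp x hx hK
  have h1 : 0 ≤ av (fun k : EE W W => φ k) := by
    unfold av
    refine div_nonneg ?_ (Nat.cast_nonneg _)
    have h2 := hφ.pos (EE W W) 1
    have h3 : (∑ᶠ k : EE W W, (φ k : ℂ) * (((1 : EE W W →* ℂˣ) k : ℂˣ) : ℂ))
        = ((∑ᶠ k : EE W W, φ k : ℝ) : ℂ) := by
      have := Fintype.ofFinite (EE W W)
      rw [finsum_eq_sum_of_fintype, finsum_eq_sum_of_fintype]
      push_cast
      exact Finset.sum_congr rfl fun k _ => by simp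
    rw [h3, Complex.ofReal_re] at h2
    exact h2
  have h4 : nn φ (EE W W) ≤ φ 1 := by
    unfold nn
    linarith
  have h5 : (1 + κ) * nn φ (EE W W) ≤ (1 + κ) * φ 1 :=
    mul_le_mul_of_nonneg_left h4 (by linarith)
  nlinarith [h5, hW]

theorem pk_of_qk (F : Type) [Field F] [Finite F] {h K n0 : ℕ} {κ ε : ℝ} (hκ : 0 ≤ κ) (hε : 0 < ε)
    (hQ : QK F h K κ n0) : ∃ n1 : ℕ, PK F h K (κ / 2 + ε) n1 := by
  obtain ⟨m1, hm1⟩ := small_step2 F (K := K) hκ hε hQ
  refine ⟨m1 + m1 + 2 * K + 1, ?_⟩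
  intro V _ _ _ hV θ hθ x hx hK
  by_cases hx1 : x = 1
  · refine ⟨⊥, ?_⟩
    rw [hx1, sub_self]
    exact mul_nonneg (by linarith) (nn_nonneg hθ _)
  · have hx2 : ∃ v, (x : V ≃ₗ[F] V) v ≠ ((1 : Fˣ) : F) • v := by
      by_contra hcon
      push Not at hcon
      apply hx1
      apply Subtype.ext
      ext v
      rw [hcon v, Units.val_one, one_smul]
      rfl
    obtain ⟨A, B, _, _, _, _, _, _, e, z, hA, hB, hz, hr, hex⟩ := near F V (x : V ≃ₗ[F] V) 1 hx2 K m1
      hV (by rw [Units.val_one, one_smul]; exact hK)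
    obtain ⟨t, ht, hb⟩ := exists_tr e
    obtain ⟨l, hl1, hl2, hl3⟩ := exists_lev e t ht hb x 1 z (fun v => by
      have h1 := hex v
      rw [Units.val_one, one_smul] at h1
      exact h1)
    refine ⟨(A0 F A B).comap (e : V →ₗ[F] A × B), ?_⟩
    · rw [nn_tr e t ht hb θ]
      have hθ' : HP (fun g => θ (t g)) := hθ.comp t
      have hz1 : z ≠ 1 := by
        rintro rfl
        obtain ⟨b, hb⟩ := hz
        apply hb
        rw [Units.val_one, one_smul]
        rfl
      have h2 := hm1 A B (fun g => θ (t g)) hθ' l (by rw [hl1]) (by rw [hl1]; exact hz1)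
        (by
          rw [hl1]
          rw [Units.val_one, one_smul] at hr
          exact hr) (by rw [hl3]; exact hx) hA.ge hB
      rw [map_one, hl2] at h2
      rw [← add_assoc]
      exact h2

theorem qk_all (F : Type) [Field F] [Finite F] (h K : ℕ) (n : ℕ) :
    ∀ δ : ℝ, 0 < δ → ∃ n0 : ℕ, QK F h K ((1 / 2) ^ n + δ) n0 := by
  induction n with
  | zero =>
    intro δ hδ
    refine ⟨0, ?_⟩
    intro V _ _ _ _ φ hφ x _ _
    have h1 := hφ.abs_le x
    have h3 : 0 ≤ φ 1 := le_trans (abs_nonneg _) h1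
    have h4 := (abs_le.1 h1).1
    have h5 : 0 ≤ δ * φ 1 := mul_nonneg hδ.le h3
    rw [pow_zero, add_mul, one_mul]
    linarith
  | succ n ih =>
    intro δ hδ
    obtain ⟨n0, h0⟩ := ih δ hδ
    have hp : (0 : ℝ) ≤ (1 / 2) ^ n := by positivity
    obtain ⟨n1, h1⟩ := pk_of_qk F (by linarith) (half_pos hδ) h0
    refine ⟨n1, ?_⟩
    have h2 : ((1 / 2 : ℝ) ^ n + δ) / 2 + δ / 2 = (1 / 2) ^ (n + 1) + δ := by
      rw [pow_succ]
      ring
    rw [h2] at h1
    exact qk_of_pk (by positivity) h1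

/-- The lower bound for `LHP` functions at the elements of bounded order close to the identity. -/
theorem qk_eps (F : Type) [Field F] [Finite F] (h K : ℕ) {κ : ℝ} (hκ : 0 < κ) :
    ∃ n0 : ℕ, QK F h K κ n0 := by
  obtain ⟨n, hn⟩ := exists_pow_lt_of_lt_one (half_pos hκ) (by norm_num : (1 / 2 : ℝ) < 1)
  obtain ⟨n0, h0⟩ := qk_all F h K n (κ / 2) (half_pos hκ)
  refine ⟨n0, ?_⟩
  intro V _ _ _ hV φ hφ x hx hK
  have h1 := h0 V hV φ hφ x hx hK
  have h2 : 0 ≤ φ 1 := le_trans (abs_nonneg _) (hφ.abs_le x)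
  nlinarith

/-- Every element of bounded order is close to a scalar or satisfies the upper bound. -/
theorem far_bound (F : Type) [Field F] [Finite F] (h R : ℕ) {ε : ℝ} (hε : 0 < ε) :
    ∃ K n0 : ℕ, ∀ (V : Type) [AddCommGroup V] [Module F V] [Finite V], n0 ≤ finrank F V →
    ∀ θ : SpecialLinearGroup F V → ℝ, HP θ → ∀ x : SpecialLinearGroup F V, orderOf x ≤ h →
    (∃ a : Fˣ, finrank F (LinearMap.range (((x : V ≃ₗ[F] V) : V →ₗ[F] V) -
      (a : F) • LinearMap.id)) ≤ K) ∨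
    ∃ W : Submodule F V, Big R W W ∧ θ 1 - θ x ≤ (1 + ε) * nn θ (EE W W) := by
  obtain ⟨k₀, hk₀⟩ := large2 F hε h
  have hq : 0 < Nat.card F - 1 := by
    have : 1 < Nat.card F := Finite.one_lt_card
    omega
  obtain ⟨k, hk⟩ : ∃ k, k = (Nat.card F - 1) * max k₀ R := ⟨_, rfl⟩
  have hk1 : max k₀ R ≤ k := by rw [hk]; exact Nat.le_mul_of_pos_left _ hq
  have hk2 : (Nat.card F - 1) ∣ k := by rw [hk]; exact dvd_mul_right _ _
  obtain ⟨K, hK⟩ := decomp2 F h k
  refine ⟨K, K + 1, ?_⟩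
  intro V _ _ _ hV θ hθ x hx
  have ho : orderOf ((x : V ≃ₗ[F] V)) = orderOf x :=
    orderOf_injective (SpecialLinearGroup.toLinearEquiv : SpecialLinearGroup F V →* V ≃ₗ[F] V)
      SpecialLinearGroup.toLinearEquiv_injective x
  rcases hK V (x : V ≃ₗ[F] V) (by rw [ho]; exact hx) with ⟨a, ha⟩ | h1
  · left
    have ha0 : a ≠ 0 := by
      rintro rfl
      rw [zero_smul, sub_zero, LinearMap.range_eq_top.2 (x : V ≃ₗ[F] V).surjective,
        finrank_top] at ha
      omega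
    exact ⟨Units.mk0 a ha0, ha⟩
  · right
    obtain ⟨E, A', _, _, _, _, _, _, e, x₀, x', hns, hex⟩ := h1
    obtain ⟨t, ht, hb⟩ := exists_tr e
    let y : ((Fin k → E) × A') ≃ₗ[F] ((Fin k → E) × A') :=
      LinearEquiv.prodCongr (LinearEquiv.piCongrRight fun _ => x₀) x'
    let z : (Fin k → E) ≃ₗ[F] (Fin k → E) :=
      LinearEquiv.piCongrRight fun _ => x₀
    obtain ⟨l, hl1, hl2, hl3⟩ := exists_lev e t ht hb x y z (fun v => hex v)
    have hE := nonsc_finrank hns
    have hB : k ≤ finrank F (Fin k → E) := by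
      rw [finrank_pi_fintype]
      simp only [Finset.sum_const, Finset.card_univ, Fintype.card_fin, smul_eq_mul]
      exact Nat.le_mul_of_pos_right _ hE
    have hA : k ≤ finrank F ((Fin k → E) × A') := by
      rw [finrank_prod]
      omega
    have hkR : R ≤ k := (le_max_right _ _).trans hk1
    refine ⟨_, big_comap e (hkR.trans hA) (hkR.trans hB), ?_⟩
    rw [nn_tr e t ht hb θ]
    have hθ' : HP (fun g => θ (t g)) := hθ.comp t
    have h2 := hk₀ k ((le_max_left _ _).trans hk1) hk2 E A' x₀ x' hns (fun g => θ (t g)) hθ' l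
      (fun v => by rw [hl1]; rfl) (fun f => by rw [hl1]; rfl) (by rw [hl3]; exact hx)
    rw [map_one, hl2] at h2
    exact h2

end Pool.Agent.Helper70.GLn
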