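import Pool.Agent.Helper70.GLu.Df

/-!
# GU-RF: reflections compensated on a line (100-160 lines)

PROOF. `kap g` acts on `A × F` by `g` and `(det g)⁻¹`. Let `r = cj e (fs A₂ (scal c))`, so `kap r` multiplies the coordinate `F` of `A ≃ F × A₂` by `c` and the last coordinate by `c⁻¹`. `q = |F|`, `p` the characteristic, `finrank A ≥ q ≥ p`, so `finrank A₂ ≥ q - 1 ≥ p - 1` and
there is `A × F ≃ (ZMod p → F) × Z` (coordinates: `0` ↦ the first line, `1` ↦ the last `F`, the coordinates `2, ..., p - 1` and `Z` from `A₂`). In this model `kap r = D a`, diagonal with `a 0 = c`, `a 1 = c⁻¹`, `a i = 1` otherwise (all maps have determinant 1, as elements of `SL`).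
`w` = the cyclic shift `f ↦ (i ↦ f (i - 1))` on `ZMod p → F` (unipotent: `w ^ p = 1`, `(w - 1) ^ p = 0`, determinant 1 by `det_eq_one`-like argument: its `p`-th power is 1 and `p` is prime to `q - 1`), `(w - 1) ^ s = 0` as `s ≥ q ≥ p`. Choose a natural `n` with `p n ≡ -1` modulo `q - 1` and
`b` = the diagonal element with `b 0 = c * c ^ n`, `b i = c ^ n` for `i ≠ 0`: determinant `c * c ^ (n p) = 1`. `b * w * b⁻¹ * w⁻¹ = D (i ↦ b i / b (i - 1)) = D a`. `Y` = the group of the diagonal elements of determinant 1 with respect to these coordinates (1 on `Z`), commutative, normalised by `w`.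
`nn_commSub_le` and `nn_mono_comm`: `nn Θ (zpowers (kap r)) ≤ Θ 1 - Θ w ≤ η`, and `zpowers (kap r)` has at most `q - 1` elements (`sub_le_card_nn`).
-/

set_option autoImplicit false

open Module Pool.Agent.Helper13.Ded

namespace Pool.Agent.Helper70.GLn

/-- `GL(A)` as a subgroup of `SL(A × F)`. -/
noncomputable def kap {F A : Type} [Field F] [AddCommGroup A] [Module F A] [Finite A] :
    (A ≃ₗ[F] A) →* SpecialLinearGroup F (A × F) where
  toFun g := ⟨LinearEquiv.prodCongr g (scal F (LinearEquiv.det g)⁻¹), by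
    have hf : Module.Finite F A := Module.Finite.of_finite
    apply Units.ext
    rw [LinearEquiv.coe_det]
    have h1 : ((LinearEquiv.prodCongr g (scal F (LinearEquiv.det g)⁻¹) :
        (A × F) ≃ₗ[F] (A × F)) : (A × F) →ₗ[F] (A × F)) = LinearMap.prodMap (g : A →ₗ[F] A)
          ((((LinearEquiv.det g)⁻¹ : Fˣ) : F) • LinearMap.id) := rfl
    rw [h1, LinearMap.det_prodMap, LinearMap.det_smul, LinearMap.det_id, finrank_self, pow_one,
      mul_one, ← LinearEquiv.coe_det, ← Units.val_mul, mul_inv_cancel]⟩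
  map_one' := by
    apply Subtype.ext
    refine LinearEquiv.ext fun v => Prod.ext rfl ?_
    show (((LinearEquiv.det (1 : A ≃ₗ[F] A))⁻¹ : Fˣ) : F) • v.2 = v.2
    rw [map_one, inv_one, Units.val_one, one_smul]
  map_mul' a b := by
    apply Subtype.ext
    refine LinearEquiv.ext fun v => Prod.ext rfl ?_
    show (((LinearEquiv.det (a * b))⁻¹ : Fˣ) : F) • v.2 =
      (((LinearEquiv.det a)⁻¹ : Fˣ) : F) • ((((LinearEquiv.det b)⁻¹ : Fˣ) : F) • v.2)
    rw [map_mul, mul_inv, Units.val_mul, mul_smul]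

lemma kap_apply {F A : Type} [Field F] [AddCommGroup A] [Module F A] [Finite A] (g : A ≃ₗ[F] A)
    (v : A × F) : kap g v = (g v.1, (((LinearEquiv.det g)⁻¹ : Fˣ) : F) * v.2) := rfl

section model29

private theorem unip29 {F A : Type} [Field F] [AddCommGroup A] [Module F A] {p : ℕ}
    (hp : p.Prime) [CharP F p] {v : A ≃ₗ[F] A} (hv : v ^ p = 1) :
    ((v : A →ₗ[F] A) - LinearMap.id) ^ p = 0 := by
  have h1 : (1 : Module.End F A) + ((v : A →ₗ[F] A) - LinearMap.id) = (v : A →ₗ[F] A) := by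
    have : (LinearMap.id : A →ₗ[F] A) = 1 := rfl
    rw [this]
    abel
  have hc : Commute (1 : Module.End F A) ((v : A →ₗ[F] A) - LinearMap.id) := Commute.one_left _
  obtain ⟨r, hr⟩ := hc.exists_add_pow_prime_pow_eq hp 1
  have h3 : (p : Module.End F A) = 0 := by
    ext v
    rw [Module.End.natCast_apply, ← Nat.cast_smul_eq_nsmul F, CharP.cast_eq_zero, zero_smul]
    rfl
  have h4 : ∀ n : ℕ, ((v ^ n : A ≃ₗ[F] A) : A →ₗ[F] A) = (v : A →ₗ[F] A) ^ n := by
    intro n
    induction n with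
    | zero => rfl
    | succ n ih => rw [pow_succ, pow_succ, ← ih]; rfl
  rw [pow_one] at hr
  rw [h1, h3, ← h4, hv] at hr
  simp only [zero_mul, one_pow, add_zero] at hr
  have h5 : (1 : Module.End F A) = 1 + ((v : A →ₗ[F] A) - LinearMap.id) ^ p := hr
  exact (left_eq_add.1 h5)

variable {F : Type} [Field F] (p m : ℕ)

/-- the model space -/
private abbrev N29 (F : Type) [Field F] (p m : ℕ) : Type := (ZMod p → F) × (Fin m → F)

/-- The diagonal operators. -/
private def dg29 : (ZMod p → Fˣ) →* (N29 F p m ≃ₗ[F] N29 F p m) where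
  toFun u := LinearEquiv.prodCongr (LinearEquiv.piCongrRight fun j => scal F (u j))
    (LinearEquiv.refl F _)
  map_one' := by
    refine LinearEquiv.ext fun v => Prod.ext ?_ rfl
    funext j
    show ((1 : Fˣ) : F) • v.1 j = v.1 j
    rw [Units.val_one, one_smul]
  map_mul' a b := by
    refine LinearEquiv.ext fun v => Prod.ext ?_ rfl
    funext j
    show ((a j * b j : Fˣ) : F) • v.1 j = (a j : F) • ((b j : F) • v.1 j)
    rw [Units.val_mul, mul_smul]

private lemma dg29_apply (u : ZMod p → Fˣ) (v : N29 F p m) :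
    dg29 p m u v = ((fun j => (u j : F) * v.1 j), v.2) := rfl

private lemma dg29_det [NeZero p] (u : ZMod p → Fˣ) :
    LinearEquiv.det (dg29 (F := F) p m u) = ∏ j, u j := by
  apply Units.ext
  rw [LinearEquiv.coe_det]
  have h1 : ((dg29 (F := F) p m u : N29 F p m ≃ₗ[F] N29 F p m) : N29 F p m →ₗ[F] N29 F p m) =
      LinearMap.prodMap (LinearMap.pi fun i => ((u i : F) • (LinearMap.id : F →ₗ[F] F)).comp
        (LinearMap.proj i)) LinearMap.id := rfl
  rw [h1, LinearMap.det_prodMap, LinearMap.det_id, mul_one, LinearMap.det_pi]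
  rw [Units.coe_prod]
  refine Finset.prod_congr rfl fun i _ => ?_
  rw [LinearMap.det_smul, LinearMap.det_id, finrank_self, pow_one, mul_one]

/-- The cyclic shift. -/
private def sh29 : N29 F p m ≃ₗ[F] N29 F p m :=
  LinearEquiv.prodCongr (LinearEquiv.funCongrLeft F F (Equiv.subRight (1 : ZMod p)))
    (LinearEquiv.refl F _)

private lemma sh29_apply (v : N29 F p m) : sh29 (F := F) p m v = ((fun j => v.1 (j - 1)), v.2) :=
  rfl

private lemma sh29_pow (k : ℕ) (v : N29 F p m) :
    (sh29 (F := F) p m ^ k) v = ((fun j => v.1 (j - k)), v.2) := by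
  induction k generalizing v with
  | zero => simp
  | succ k ih =>
    rw [pow_succ]
    show (sh29 (F := F) p m ^ k) (sh29 (F := F) p m v) = _
    rw [ih, sh29_apply]
    refine Prod.ext ?_ rfl
    funext j
    show v.1 (j - k - 1) = v.1 (j - ((k + 1 : ℕ) : ZMod p))
    rw [sub_sub, Nat.cast_succ]

private lemma sh29_p : sh29 (F := F) p m ^ p = 1 := by
  refine LinearEquiv.ext fun v => ?_
  rw [sh29_pow]
  simp

private lemma sh29_conj (u : ZMod p → Fˣ) :
    sh29 (F := F) p m * dg29 p m u * (sh29 (F := F) p m)⁻¹ = dg29 p m (fun j => u (j - 1)) := by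
  rw [mul_inv_eq_iff_eq_mul]
  refine LinearEquiv.ext fun v => ?_
  show sh29 (F := F) p m (dg29 p m u v) = dg29 p m (fun j => u (j - 1)) (sh29 (F := F) p m v)
  rw [sh29_apply, dg29_apply, dg29_apply, sh29_apply]

/-- Splitting of the coordinates `0` and `1`. -/
private def spl29 (hp : (1 : ZMod p) ≠ 0) :
    ((F × (({i : ZMod p // i ≠ 0 ∧ i ≠ 1} → F) × (Fin m → F))) × F) ≃ₗ[F] N29 F p m where
  toFun v := (fun i => if h0 : i = 0 then v.1.1 else if h1 : i = 1 then v.2 else
    v.1.2.1 ⟨i, h0, h1⟩, v.1.2.2)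
  invFun f := ((f.1 0, (fun i => f.1 i, f.2)), f.1 1)
  map_add' v w := by
    refine Prod.ext ?_ rfl
    funext i
    show (if h0 : i = 0 then v.1.1 + w.1.1 else if h1 : i = 1 then v.2 + w.2 else
      v.1.2.1 ⟨i, h0, h1⟩ + w.1.2.1 ⟨i, h0, h1⟩) =
      (if h0 : i = 0 then v.1.1 else if h1 : i = 1 then v.2 else v.1.2.1 ⟨i, h0, h1⟩) +
      (if h0 : i = 0 then w.1.1 else if h1 : i = 1 then w.2 else w.1.2.1 ⟨i, h0, h1⟩)
    split_ifs <;> rfl
  map_smul' c v := by
    refine Prod.ext ?_ rfl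
    funext i
    show (if h0 : i = 0 then c • v.1.1 else if h1 : i = 1 then c • v.2 else
      c • v.1.2.1 ⟨i, h0, h1⟩) =
      c • (if h0 : i = 0 then v.1.1 else if h1 : i = 1 then v.2 else v.1.2.1 ⟨i, h0, h1⟩)
    split_ifs <;> rfl
  left_inv v := by
    refine Prod.ext (Prod.ext ?_ (Prod.ext ?_ rfl)) ?_
    · show (if h0 : (0 : ZMod p) = 0 then v.1.1 else _) = v.1.1
      rw [dif_pos rfl]
    · funext i
      show (if h0 : (i : ZMod p) = 0 then v.1.1 else if h1 : (i : ZMod p) = 1 then v.2 else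
        v.1.2.1 ⟨i, h0, h1⟩) = v.1.2.1 i
      rw [dif_neg i.2.1, dif_neg i.2.2]
    · show (if h0 : (1 : ZMod p) = 0 then v.1.1 else if h1 : (1 : ZMod p) = 1 then v.2 else _) = v.2
      rw [dif_neg hp, dif_pos rfl]
  right_inv f := by
    refine Prod.ext ?_ rfl
    funext i
    show (if h0 : i = 0 then f.1 0 else if h1 : i = 1 then f.1 1 else f.1 i) = f.1 i
    split_ifs with h0 h1
    · rw [h0]
    · rw [h1]
    · rfl

end model29

private lemma cj_det29 {F P M : Type} [Field F] [AddCommGroup P] [Module F P] [AddCommGroup M]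
    [Module F M] (e : P ≃ₗ[F] M) (g : M ≃ₗ[F] M) :
    LinearEquiv.det (cj e g) = LinearEquiv.det g := by
  apply Units.ext
  rw [LinearEquiv.coe_det, LinearEquiv.coe_det]
  exact LinearMap.det_conj (g : M →ₗ[F] M) e.symm

theorem refl_sl {F A A₂ : Type} [Field F] [Finite F] [AddCommGroup A] [Module F A] [Finite A]
    [AddCommGroup A₂] [Module F A₂] (hA : Nat.card F ≤ finrank F A) {s : ℕ} (hs : Nat.card F ≤ s)
    {η : ℝ} {Θ : SpecialLinearGroup F (A × F) → ℝ} (hΘ : HP Θ)
    (hu : ∀ w : SpecialLinearGroup F (A × F),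
      (((w : (A × F) ≃ₗ[F] (A × F)) : (A × F) →ₗ[F] (A × F)) - LinearMap.id) ^ s = 0 →
      Θ 1 - Θ w ≤ η) (e : A ≃ₗ[F] F × A₂) (c : Fˣ) :
    Θ 1 - Θ (kap (cj e (fs A₂ (scal F c)))) ≤ Nat.card F * η := by
  classical
  obtain ⟨p, hpc⟩ := CharP.exists F
  have hpp : p.Prime := CharP.char_is_prime F p
  haveI : Fact p.Prime := ⟨hpp⟩
  haveI : Fact (1 < p) := ⟨hpp.one_lt⟩
  haveI : NeZero p := ⟨hpp.ne_zero⟩
  haveI hfA : Module.Finite F A := Module.Finite.of_finite
  haveI hfA2 : Finite A₂ := Finite.of_injective (fun a => e.symm (0, a)) (by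
    intro a b hab
    have := e.symm.injective hab
    exact (Prod.mk.inj this).2)
  haveI hfA2' : Module.Finite F A₂ := Module.Finite.of_finite
  -- `p ≤ q`
  have hpq : p ≤ Nat.card F := by
    have h1 : p ∣ Nat.card F := by
      have h2 := addOrderOf_dvd_natCard (1 : F)
      rwa [← CharP.eq F hpc (CharP.addOrderOf_one F)] at h2
    exact Nat.le_of_dvd Nat.card_pos h1
  -- injectivity of Frobenius
  have hfrob : Function.Injective (fun x : F => x ^ p) := frobenius_inj F p
  have h10 : (1 : ZMod p) ≠ 0 := one_ne_zero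
  -- dimension count
  have hrank : finrank F A = 1 + finrank F A₂ := by
    rw [e.finrank_eq, finrank_prod, finrank_self]
  have hI : Fintype.card {i : ZMod p // i ≠ 0 ∧ i ≠ 1} + 2 = p := by
    have h1 := (spl29 (F := F) p 0 h10).finrank_eq
    simp only [finrank_prod, finrank_self, finrank_pi, ZMod.card, Fintype.card_fin] at h1
    omega
  obtain ⟨m, hm⟩ : ∃ m, finrank F A₂ = Fintype.card {i : ZMod p // i ≠ 0 ∧ i ≠ 1} + m :=
    Nat.exists_eq_add_of_le (by omega)
  let eA : A₂ ≃ₗ[F] (({i : ZMod p // i ≠ 0 ∧ i ≠ 1} → F) × (Fin m → F)) :=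
    LinearEquiv.ofFinrankEq _ _ (by
      rw [finrank_prod, finrank_pi, finrank_pi, Fintype.card_fin, hm])
  let E : (A × F) ≃ₗ[F] N29 F p m :=
    ((e.trans (LinearEquiv.prodCongr (LinearEquiv.refl F F) eA)).prodCongr
      (LinearEquiv.refl F F)).trans (spl29 p m h10)
  have hE : ∀ v : A × F, E v = (fun i => if h0 : i = 0 then (e v.1).1 else
      if h1 : i = 1 then v.2 else (eA (e v.1).2).1 ⟨i, h0, h1⟩, (eA (e v.1).2).2) := fun v => rfl
  -- the element `kap r` in the model
  have hdetr : LinearEquiv.det (cj e (fs A₂ (scal F c))) = c := by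
    rw [cj_det29]
    apply Units.ext
    rw [LinearEquiv.coe_det]
    have h1 : ((fs A₂ (scal F c) : (F × A₂) ≃ₗ[F] (F × A₂)) : (F × A₂) →ₗ[F] (F × A₂)) =
        LinearMap.prodMap ((c : F) • LinearMap.id) LinearMap.id := rfl
    rw [h1, LinearMap.det_prodMap, LinearMap.det_smul, LinearMap.det_id, LinearMap.det_id,
      finrank_self, pow_one, mul_one, mul_one]
  let a : ZMod p → Fˣ := fun i => if i = 0 then c else if i = 1 then c⁻¹ else 1
  have hr : ((kap (cj e (fs A₂ (scal F c))) : SpecialLinearGroup F (A × F)) :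
      (A × F) ≃ₗ[F] (A × F)) = cj E (dg29 p m a) := by
    refine LinearEquiv.ext fun v => ?_
    rw [cj_apply, LinearEquiv.eq_symm_apply]
    have h1 : ((kap (cj e (fs A₂ (scal F c))) : SpecialLinearGroup F (A × F)) :
      (A × F) ≃ₗ[F] (A × F)) v = (e.symm ((c : F) * (e v.1).1, (e v.1).2), ((c⁻¹ : Fˣ) : F) * v.2) := by
      show ((cj e (fs A₂ (scal F c))) v.1, (((LinearEquiv.det (cj e (fs A₂ (scal F c))))⁻¹ : Fˣ) : F)
        * v.2) = _
      rw [hdetr]
      rfl
    rw [h1, dg29_apply, hE, hE]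
    dsimp only
    rw [e.apply_symm_apply]
    refine Prod.ext ?_ rfl
    funext i
    show (if h0 : i = 0 then (c : F) * (e v.1).1 else if h1 : i = 1 then ((c⁻¹ : Fˣ) : F) * v.2 else
      (eA (e v.1).2).1 ⟨i, h0, h1⟩) = ((if i = 0 then c else if i = 1 then c⁻¹ else 1 : Fˣ) : F) *
      (if h0 : i = 0 then (e v.1).1 else if h1 : i = 1 then v.2 else (eA (e v.1).2).1 ⟨i, h0, h1⟩)
    by_cases h0 : i = 0
    · simp only [dif_pos h0, if_pos h0]
    · by_cases h1 : i = 1
      · simp only [dif_neg h0, if_neg h0, dif_pos h1, if_pos h1]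
      · simp only [dif_neg h0, if_neg h0, dif_neg h1, if_neg h1, Units.val_one, one_mul]
  -- the shift
  have hwp : (cj E (sh29 p m)) ^ p = 1 := by
    rw [← map_pow, sh29_p, map_one]
  have hwdet : LinearEquiv.det (cj E (sh29 (F := F) p m)) = 1 := by
    apply Units.ext
    apply hfrob
    show ((LinearEquiv.det (cj E (sh29 (F := F) p m)) : Fˣ) : F) ^ p = ((1 : Fˣ) : F) ^ p
    rw [← Units.val_pow_eq_pow_val, ← map_pow, hwp, map_one, Units.val_one, one_pow]
  let w : SpecialLinearGroup F (A × F) := ⟨cj E (sh29 p m), hwdet⟩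
  have hwη : Θ 1 - Θ w ≤ η := by
    apply hu
    show (((cj E (sh29 p m) : (A × F) ≃ₗ[F] (A × F)) : (A × F) →ₗ[F] (A × F)) -
      LinearMap.id) ^ s = 0
    obtain ⟨d, hd⟩ := Nat.exists_eq_add_of_le (hpq.trans hs)
    rw [hd, pow_add, unip29 hpp hwp, zero_mul]
  -- the diagonal element
  obtain ⟨β₀, hβ₀⟩ := (Finite.injective_iff_surjective.1 hfrob) ((c⁻¹ : Fˣ) : F)
  have hβne : β₀ ≠ 0 := by
    rintro rfl
    have h1 : (0 : F) ^ p = ((c⁻¹ : Fˣ) : F) := hβ₀
    rw [zero_pow hpp.ne_zero] at h1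
    exact (c⁻¹).ne_zero h1.symm
  let β : Fˣ := Units.mk0 β₀ hβne
  have hβ : β ^ p = c⁻¹ := by
    apply Units.ext
    rw [Units.val_pow_eq_pow_val]
    exact hβ₀
  let ub : ZMod p → Fˣ := fun i => (if i = 0 then c else 1) * β
  have hbdet : LinearEquiv.det (cj E (dg29 (F := F) p m ub)) = 1 := by
    rw [cj_det29, dg29_det]
    show ∏ i : ZMod p, (if i = 0 then c else 1) * β = 1
    rw [Finset.prod_mul_distrib, Finset.prod_ite_eq', if_pos (Finset.mem_univ _), Finset.prod_const,
      Finset.card_univ, ZMod.card, hβ, mul_inv_cancel]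
  let b : SpecialLinearGroup F (A × F) := ⟨cj E (dg29 p m ub), hbdet⟩
  -- the commutative group
  let Y : Subgroup (SpecialLinearGroup F (A × F)) :=
    { carrier := {g | ∃ u : ZMod p → Fˣ, (g : (A × F) ≃ₗ[F] (A × F)) = cj E (dg29 p m u)}
      mul_mem' := by
        rintro x y ⟨u, hu⟩ ⟨u', hu'⟩
        refine ⟨u * u', ?_⟩
        rw [map_mul, map_mul, ← hu, ← hu']
        rfl
      one_mem' := ⟨1, by rw [map_one, map_one]; rfl⟩
      inv_mem' := by
        rintro x ⟨u, hu⟩
        refine ⟨u⁻¹, ?_⟩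
        rw [map_inv, map_inv, ← hu]
        rfl }
  have hYc : ∀ x ∈ Y, ∀ y ∈ Y, x * y = y * x := by
    rintro x ⟨u, hu⟩ y ⟨u', hu'⟩
    apply Subtype.ext
    show (x : (A × F) ≃ₗ[F] (A × F)) * (y : (A × F) ≃ₗ[F] (A × F)) =
      (y : (A × F) ≃ₗ[F] (A × F)) * (x : (A × F) ≃ₗ[F] (A × F))
    rw [hu, hu', ← map_mul, ← map_mul, ← map_mul, ← map_mul, mul_comm]
  have hYw : ∀ x ∈ Y, w * x * w⁻¹ ∈ Y := by
    rintro x ⟨u, hu⟩
    refine ⟨fun j => u (j - 1), ?_⟩
    rw [← sh29_conj, map_mul, map_mul, map_inv, ← hu]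
    rfl
  have hbY : b ∈ Y := ⟨ub, rfl⟩
  have hab : ∀ i : ZMod p, (if i = 0 then c else if i = 1 then c⁻¹ else 1) =
      ((if i = 0 then c else 1) * β) * ((if i - 1 = 0 then c else 1) * β)⁻¹ := by
    intro i
    rw [mul_inv, mul_mul_mul_comm, mul_inv_cancel, mul_one]
    by_cases h0 : i = 0
    · subst h0
      rw [if_pos rfl, if_pos rfl, if_neg (by
        rw [zero_sub, neg_eq_zero]
        exact h10), inv_one, mul_one]
    · by_cases h1 : i = 1
      · subst h1
        rw [if_neg h0, if_pos rfl, if_neg h0, if_pos (sub_self _), one_mul]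
      · rw [if_neg h0, if_neg h1, if_neg h0, if_neg (fun h => h1 (sub_eq_zero.1 h)), inv_one,
          mul_one]
  have hcomm : kap (cj e (fs A₂ (scal F c))) = b * w * b⁻¹ * w⁻¹ := by
    apply Subtype.ext
    have h1 : ((b * w * b⁻¹ * w⁻¹ : SpecialLinearGroup F (A × F)) : (A × F) ≃ₗ[F] (A × F)) =
        cj E (dg29 p m ub) * cj E (sh29 p m) * (cj E (dg29 p m ub))⁻¹ * (cj E (sh29 p m))⁻¹ := rfl
    refine Eq.trans hr (Eq.trans ?_ h1.symm)
    have key : dg29 (F := F) p m a =
        dg29 p m ub * sh29 p m * (dg29 p m ub)⁻¹ * (sh29 (F := F) p m)⁻¹ := by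
      rw [← map_inv, mul_assoc, mul_assoc, ← mul_assoc (sh29 p m), sh29_conj, ← map_mul]
      congr 1
      funext i
      exact hab i
    rw [key, map_mul, map_mul, map_mul, map_inv, map_inv]
  set r := kap (cj e (fs A₂ (scal F c))) with hrdef
  have hrS : r ∈ Pool.Agent.Helper94.Ded.commSub Y w hYc hYw := ⟨b, hbY, hcomm⟩
  have h1 : nn Θ (Subgroup.zpowers r) ≤ η := by
    refine le_trans (nn_mono_comm hΘ
      (K' := Pool.Agent.Helper94.Ded.commSub Y w hYc hYw) ?_ ?_)
      ((nn_commSub_le hΘ Y w hYc hYw).trans hwη)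
    · rw [Subgroup.zpowers_le]
      exact hrS
    · intro x hx y hy
      exact hYc x (Pool.Agent.Helper94.Ded.commSub_le hx) y (Pool.Agent.Helper94.Ded.commSub_le hy)
  have h0 := nn_nonneg hΘ (Subgroup.zpowers r)
  have hq1 : 1 < Nat.card F := Finite.one_lt_card
  have hord : Nat.card (Subgroup.zpowers r) ≤ Nat.card F := by
    rw [Nat.card_zpowers]
    have h2 : r ^ (Nat.card F - 1) = 1 := by
      apply Subtype.ext
      have h3 : ∀ n : ℕ, ((r ^ n : SpecialLinearGroup F (A × F)) : (A × F) ≃ₗ[F] (A × F)) =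
          cj E (dg29 p m (a ^ n)) := by
        intro n
        induction n with
        | zero => rw [pow_zero, pow_zero, map_one, map_one]; rfl
        | succ n ih =>
          rw [pow_succ, pow_succ, map_mul, map_mul, ← ih, ← hr]
          rfl
      rw [h3]
      have h4 : a ^ (Nat.card F - 1) = 1 := by
        funext i
        show (a i) ^ (Nat.card F - 1) = 1
        rw [← Nat.card_units]
        exact pow_card_eq_one'
      rw [h4, map_one, map_one]
      rfl
    have h3 := orderOf_le_of_pow_eq_one (by omega) h2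
    omega
  have h2 := sub_le_card_nn hΘ (Subgroup.zpowers r) r (Subgroup.mem_zpowers r)
  calc Θ 1 - Θ r ≤ Nat.card (Subgroup.zpowers r) * nn Θ (Subgroup.zpowers r) := h2
    _ ≤ Nat.card F * η := by
        have h3 : (Nat.card (Subgroup.zpowers r) : ℝ) ≤ Nat.card F := by exact_mod_cast hord
        exact mul_le_mul h3 h1 h0 (Nat.cast_nonneg _)

end Pool.Agent.Helper70.GLn
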