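import Pool.Agent.Helper70.GLu.US
import Pool.Agent.Helper70.GLn.UP

/-!
# Project GU: all elements of the Levi subgroup of bounded order and determinant one on `A` (proved)
-/

set_option autoImplicit false

open Module Pool.Agent.Helper13.Ded

namespace Pool.Agent.Helper70.GLn

section

variable {F A B : Type} [Field F] [Finite F] [AddCommGroup A] [Module F A] [Finite A]
  [AddCommGroup B] [Module F B] [Finite B]

/-- `lvA` as a homomorphism. -/
def lA : SpecialLinearGroup F A →* Lev F A B where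
  toFun s := lvA s.1 s.2
  map_one' := rfl
  map_mul' a b := Subtype.ext (Prod.ext rfl (mul_one (1 : B ≃ₗ[F] B)).symm)

/-- `lvB` as a homomorphism. -/
def lB : SpecialLinearGroup F B →* Lev F A B where
  toFun s := lvB s.1 s.2
  map_one' := rfl
  map_mul' a b := Subtype.ext (Prod.ext (mul_one (1 : A ≃ₗ[F] A)).symm rfl)

private theorem ker_pow70 (N : Module.End F A) (j : ℕ) :
    finrank F (LinearMap.ker (N ^ j)) ≤ j * finrank F (LinearMap.ker N) := by
  induction j with
  | zero =>
    rw [pow_zero]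
    have : LinearMap.ker (1 : Module.End F A) = ⊥ := LinearMap.ker_id
    rw [this, finrank_bot, zero_mul]
  | succ j ih =>
    have hfin : Module.Finite F A := Module.Finite.of_finite
    let f : LinearMap.ker (N ^ (j + 1)) →ₗ[F] A := (N ^ j) ∘ₗ (LinearMap.ker (N ^ (j + 1))).subtype
    have h1 : finrank F (LinearMap.range f) ≤ finrank F (LinearMap.ker N) := by
      refine Submodule.finrank_mono ?_
      rintro _ ⟨v, rfl⟩
      have h2 : (N ^ (j + 1)) (v : A) = 0 := v.2
      have h3 : (N ^ (j + 1)) (v : A) = N ((N ^ j) (v : A)) :=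
        LinearMap.congr_fun (pow_succ' N j) (v : A)
      exact h3.symm.trans h2
    have h2 : finrank F (LinearMap.ker f) ≤ finrank F (LinearMap.ker (N ^ j)) := by
      let g : LinearMap.ker f →ₗ[F] LinearMap.ker (N ^ j) := LinearMap.codRestrict _
        ((LinearMap.ker (N ^ (j + 1))).subtype ∘ₗ (LinearMap.ker f).subtype) (fun v => v.2)
      refine LinearMap.finrank_le_finrank_of_injective (f := g) ?_
      intro a b hab
      have h4 : ((a : LinearMap.ker (N ^ (j + 1))) : A) = ((b : LinearMap.ker (N ^ (j + 1))) : A) :=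
        congrArg (fun x : LinearMap.ker (N ^ j) => (x : A)) hab
      exact Subtype.ext (Subtype.ext h4)
    have h3 := LinearMap.finrank_range_add_finrank_ker f
    rw [Nat.succ_mul]
    omega

private theorem fin_ker70 {w : A ≃ₗ[F] A} {s R : ℕ} (hs : 0 < s)
    (hw : ((w : A →ₗ[F] A) - LinearMap.id) ^ s = 0) (hR : s * R ≤ finrank F A) :
    R ≤ finrank F (LinearMap.ker ((w : A →ₗ[F] A) - LinearMap.id)) := by
  have h1 := ker_pow70 ((w : A →ₗ[F] A) - LinearMap.id) s
  have h2 : LinearMap.ker (((w : A →ₗ[F] A) - LinearMap.id) ^ s) = ⊤ := by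
    rw [hw]
    exact LinearMap.ker_zero
  rw [h2, finrank_top] at h1
  exact Nat.le_of_mul_le_mul_left (hR.trans h1) hs

private theorem ker_one70 {R : ℕ} (h : R ≤ finrank F B) :
    R ≤ finrank F (LinearMap.ker (((1 : B ≃ₗ[F] B) : B →ₗ[F] B) - LinearMap.id)) := by
  have h1 : LinearMap.ker (((1 : B ≃ₗ[F] B) : B →ₗ[F] B) - LinearMap.id) = ⊤ := by
    rw [show ((1 : B ≃ₗ[F] B) : B →ₗ[F] B) - LinearMap.id = 0 from sub_self _,
      LinearMap.ker_zero]
  rw [h1, finrank_top]
  exact h

private theorem one_pow70 {s : ℕ} (hs : 0 < s) :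
    (((1 : B ≃ₗ[F] B) : B →ₗ[F] B) - LinearMap.id) ^ s = 0 := by
  rw [show ((1 : B ≃ₗ[F] B) : B →ₗ[F] B) - LinearMap.id = 0 from sub_self _]
  exact zero_pow hs.ne'

end

theorem ss2 (F : Type) [Field F] [Finite F] {ε : ℝ} (hε : 0 < ε) (h : ℕ) : ∃ R : ℕ,
    ∀ (A B : Type) [AddCommGroup A] [Module F A] [Finite A] [AddCommGroup B] [Module F B]
    [Finite B] (θ : SpecialLinearGroup F (A × B) → ℝ), HP θ → ∀ x : Lev F A B,
    orderOf x ≤ h → LinearEquiv.det x.1.1 = 1 → R ≤ finrank F A → R ≤ finrank F B →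
    Psi θ 1 - Psi θ x ≤ ε * NU θ := by
  obtain ⟨s, C, R₀, hs, hC, hus⟩ := us F (m := h.factorial) (Nat.factorial_pos h)
  have hε1 : 0 < ε / (4 * C + 4) := by positivity
  obtain ⟨R₁, hR₁⟩ := psi_unip F hε1 s
  refine ⟨R₀ + s * R₁ + R₁, ?_⟩
  intro A B _ _ _ _ _ _ θ hθ x hx hdet hA hB
  have hΨ : HP (Psi θ) := psi_hp hθ
  have hNU := NU_nonneg hθ
  have hdet2 : LinearEquiv.det x.1.2 = 1 := by
    have h1 : LinearEquiv.det x.1.1 * LinearEquiv.det x.1.2 = 1 := x.2
    rwa [hdet, one_mul] at h1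
  let a : SpecialLinearGroup F A := ⟨x.1.1, hdet⟩
  let b : SpecialLinearGroup F B := ⟨x.1.2, hdet2⟩
  have hxm : x ^ h.factorial = 1 := by
    obtain ⟨k, hk⟩ := Nat.dvd_factorial (orderOf_pos x) hx
    rw [hk, pow_mul, pow_orderOf_eq_one, one_pow]
  have ham : a ^ h.factorial = 1 := by
    apply SpecialLinearGroup.toLinearEquiv_injective
    rw [map_pow, map_one]
    exact congrArg (fun z : Lev F A B => z.1.1) hxm
  have hbm : b ^ h.factorial = 1 := by
    apply SpecialLinearGroup.toLinearEquiv_injective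
    rw [map_pow, map_one]
    exact congrArg (fun z : Lev F A B => z.1.2) hxm
  have hη : 0 ≤ ε / (4 * C + 4) * NU θ := mul_nonneg hε1.le hNU
  have d1 : Psi θ 1 - Psi θ (lA a) ≤ C * (ε / (4 * C + 4) * NU θ) := by
    have h1 := hus A (ε / (4 * C + 4) * NU θ) (fun g => Psi θ (lA g)) (hΨ.comp lA) (by omega) ?_ a
      ham
    · rw [map_one] at h1
      exact h1
    · intro w hw
      rw [map_one]
      exact hR₁ A B θ hθ (lA w) hw (one_pow70 hs) (fin_ker70 hs hw (by omega))
        (ker_one70 (by omega))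
  have d2 : Psi θ 1 - Psi θ (lB b) ≤ C * (ε / (4 * C + 4) * NU θ) := by
    have h1 := hus B (ε / (4 * C + 4) * NU θ) (fun g => Psi θ (lB g)) (hΨ.comp lB) (by omega) ?_ b
      hbm
    · rw [map_one] at h1
      exact h1
    · intro w hw
      rw [map_one]
      exact hR₁ A B θ hθ (lB w) (one_pow70 hs) hw (ker_one70 (by omega))
        (fin_ker70 hs hw (by omega))
  have hxab : x = lA a * lB b := by
    apply Subtype.ext
    exact Prod.ext (mul_one _).symm (one_mul _).symm
  have hcomm : Commute (lA a : Lev F A B) (lB b) := by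
    apply Subtype.ext
    refine Prod.ext ?_ ?_
    · show x.1.1 * 1 = 1 * x.1.1
      rw [mul_one, one_mul]
    · show 1 * x.1.2 = x.1.2 * 1
      rw [mul_one, one_mul]
  have h3 := dfc_mul hΨ hcomm
  rw [← hxab] at h3
  have h4 : 4 * C * (ε / (4 * C + 4) * NU θ) ≤ ε * NU θ := by
    have h5 : 4 * C * (ε / (4 * C + 4) * NU θ) = (4 * C / (4 * C + 4)) * (ε * NU θ) := by
      field_simp
    rw [h5]
    have h6 : 4 * C / (4 * C + 4) ≤ 1 := by
      rw [div_le_one (by positivity)]
      linarith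
    have h7 : 0 ≤ ε * NU θ := mul_nonneg hε.le hNU
    nlinarith
  linarith

end Pool.Agent.Helper70.GLn
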