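import Pool.Agent.Helper70.GLu.SN2
import Pool.Agent.Helper70.GLu.SS2
import Pool.Agent.Helper70.GLn.SM1

/-!
# Project GU: the step for elements close to the identity and for elements close to a scalar
(the proofs are those of GLn/SM by helper45)
-/

set_option autoImplicit false

open Module Pool.Agent.Helper13.Ded

namespace Pool.Agent.Helper70.GLn

theorem small_step2 (F : Type) [Field F] [Finite F] {h K n0 : ℕ} {κ ε : ℝ} (hκ : 0 ≤ κ)
    (hε : 0 < ε) (hQ : QK F h K κ n0) : ∃ n1 : ℕ,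
    ∀ (A B : Type) [AddCommGroup A] [Module F A] [Finite A] [AddCommGroup B] [Module F B]
    [Finite B] (θ : SpecialLinearGroup F (A × B) → ℝ), HP θ → ∀ l : Lev F A B, l.1.1 = 1 →
    l.1.2 ≠ 1 → finrank F (LinearMap.range ((l.1.2 : B →ₗ[F] B) - LinearMap.id)) ≤ K →
    orderOf l ≤ h → n1 ≤ finrank F A → n1 ≤ finrank F B →
    θ 1 - θ (dg l) ≤ (1 + κ / 2 + ε) * NU θ := by
  classical
  obtain ⟨R, hR⟩ := ss2 F (half_pos hε) h
  have hq : (1 : ℝ) < Nat.card F := by exact_mod_cast Finite.one_lt_card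
  have hq2 : (2 : ℝ) ≤ Nat.card F := by
    have h1 : 1 < Nat.card F := Finite.one_lt_card
    exact_mod_cast h1
  obtain ⟨J, hJ⟩ := exists_pow_lt_of_lt_one (show (0 : ℝ) < ε / 4 by positivity)
    (show (1 / 2 : ℝ) < 1 by norm_num)
  obtain ⟨b1, hb1⟩ := pow_unbounded_of_one_lt (4 / ε * (Nat.card F : ℝ) ^ (J + K) + 1) hq
  refine ⟨R + b1 + 2 + n0 + J, ?_⟩
  intro A B _ _ _ _ _ _ θ hθ l hl1 hl2 hK ho hA hB
  have hfA : Module.Finite F A := Module.Finite.of_finite
  have hfB : Module.Finite F B := Module.Finite.of_finite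
  have hfin : Finite (A →ₗ[F] B) := finite_hom
  have := Fintype.ofFinite (A →ₗ[F] B)
  have hNU : 0 ≤ NU θ := NU_nonneg hθ
  have hss := hR A B θ hθ l ho (by rw [hl1, map_one]) (by omega) (by omega)
  set D := LinearMap.range ((l.1.2 : B →ₗ[F] B) - LinearMap.id) with hD
  obtain ⟨Z, hZ⟩ : ∃ Z : Submodule F B, Z = LinearMap.ker ((l.1.2 : B →ₗ[F] B) - LinearMap.id) :=
    ⟨_, rfl⟩
  have hZt : Z ≠ ⊤ := by
    intro h1
    apply hl2
    ext b
    have h2 : b ∈ Z := by rw [h1]; trivial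
    rw [hZ, LinearMap.mem_ker, LinearMap.sub_apply] at h2
    exact sub_eq_zero.1 h2
  have hb2 : 2 ≤ finrank F B := by omega
  have S1 := nu_eq hθ
  have S2 := sum_in hθ hb2 Z hZt 1
  have S3 := sum_in hθ hb2 Z hZt (J + 1)
  have S4 := sum_meet hθ hb2 D J
  have hfix : ∀ M : A →ₗ[F] B, cact l M = M → ∀ a, l.1.2 (M a) = M a := by
    intro M hM a
    have h1 : cact l M a = M a := by rw [hM]
    have h2 : cact l M a = l.1.2 (M (l.1.1.symm a)) := rfl
    rw [h2, hl1] at h1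
    exact h1
  have key : ∀ M : A →ₗ[F] B, phi θ M 1 - phi θ M l ≤
      (if M = 0 then Psi θ 1 - Psi θ l else 0) + (if M = 0 then 0 else phi θ M 1) +
      κ * (if M ≠ 0 ∧ LinearMap.range M ≤ Z ∧ 1 ≤ finrank F (LinearMap.range M)
        then phi θ M 1 else 0) +
      (if M ≠ 0 ∧ LinearMap.range M ≤ Z ∧ J + 1 ≤ finrank F (LinearMap.range M)
        then phi θ M 1 else 0) +
      (if M ≠ 0 ∧ LinearMap.range M ⊓ D ≠ ⊥ ∧ finrank F (LinearMap.range M) ≤ J
        then phi θ M 1 else 0) := by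
    intro M
    by_cases hM : M = 0
    · subst hM
      rw [if_pos rfl, if_pos rfl, if_neg (fun h1 => h1.1 rfl), if_neg (fun h1 => h1.1 rfl),
        if_neg (fun h1 => h1.1 rfl), phi_zero, phi_zero]
      linarith
    · have hc : 0 ≤ phi θ M 1 := phi_nonneg hθ hM
      rw [if_neg hM, if_neg hM]
      have t2 : 0 ≤ κ * (if M ≠ 0 ∧ LinearMap.range M ≤ Z ∧ 1 ≤ finrank F (LinearMap.range M)
        then phi θ M 1 else 0) := mul_nonneg hκ (by split_ifs <;> first | exact hc | exact le_rfl)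
      have t3 : 0 ≤ (if M ≠ 0 ∧ LinearMap.range M ≤ Z ∧ J + 1 ≤ finrank F (LinearMap.range M)
        then phi θ M 1 else 0) := by split_ifs <;> first | exact hc | exact le_rfl
      have t4 : 0 ≤ (if M ≠ 0 ∧ LinearMap.range M ⊓ D ≠ ⊥ ∧ finrank F (LinearMap.range M) ≤ J
        then phi θ M 1 else 0) := by split_ifs <;> first | exact hc | exact le_rfl
      by_cases hf : cact l M = M
      · have hf' := hfix M hf
        have hrZ : LinearMap.range M ≤ Z := by
          rintro _ ⟨a, rfl⟩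
          rw [hZ, LinearMap.mem_ker, LinearMap.sub_apply]
          exact sub_eq_zero.2 (hf' a)
        have hr1 : 1 ≤ finrank F (LinearMap.range M) := by
          rw [Nat.one_le_iff_ne_zero]
          intro h1
          have h2 : LinearMap.range M = ⊥ := Submodule.finrank_eq_zero.1 h1
          exact hM (LinearMap.range_eq_bot.1 h2)
        have habs := abs_le.1 (abs_phi_le hθ hM l hf)
        by_cases hJr : J + 1 ≤ finrank F (LinearMap.range M)
        · rw [if_pos (show M ≠ 0 ∧ LinearMap.range M ≤ Z ∧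
            J + 1 ≤ finrank F (LinearMap.range M) from ⟨hM, hrZ, hJr⟩)]
          linarith
        · by_cases hm : LinearMap.range M ⊓ D = ⊥
          · have hg := good_lower2 hθ hQ l hl1 ho hK hM hf' hm (by omega)
            rw [if_pos (show M ≠ 0 ∧ LinearMap.range M ≤ Z ∧
              1 ≤ finrank F (LinearMap.range M) from ⟨hM, hrZ, hr1⟩)]
            linarith
          · rw [if_pos (show M ≠ 0 ∧ LinearMap.range M ⊓ D ≠ ⊥ ∧
              finrank F (LinearMap.range M) ≤ J from ⟨hM, hm, by omega⟩)]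
            linarith
      · rw [phi_eq_zero hθ l M hf]
        linarith
  have hsum := Finset.sum_le_sum (fun M (_ : M ∈ (Finset.univ : Finset (A →ₗ[F] B))) => key M)
  rw [Finset.sum_add_distrib, Finset.sum_add_distrib, Finset.sum_add_distrib,
    Finset.sum_add_distrib, ← Finset.mul_sum, Finset.sum_sub_distrib, ← sum_phi, ← sum_phi,
    map_one, Finset.sum_ite_eq' Finset.univ (0 : A →ₗ[F] B), if_pos (Finset.mem_univ _),
    ← S1] at hsum
  obtain ⟨s2, hs2⟩ : ∃ s, s = ∑ M : A →ₗ[F] B, (if M ≠ 0 ∧ LinearMap.range M ≤ Z ∧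
    1 ≤ finrank F (LinearMap.range M) then phi θ M 1 else 0) := ⟨_, rfl⟩
  obtain ⟨s3, hs3⟩ : ∃ s, s = ∑ M : A →ₗ[F] B, (if M ≠ 0 ∧ LinearMap.range M ≤ Z ∧
    J + 1 ≤ finrank F (LinearMap.range M) then phi θ M 1 else 0) := ⟨_, rfl⟩
  obtain ⟨s4, hs4⟩ : ∃ s, s = ∑ M : A →ₗ[F] B, (if M ≠ 0 ∧ LinearMap.range M ⊓ D ≠ ⊥ ∧
    finrank F (LinearMap.range M) ≤ J then phi θ M 1 else 0) := ⟨_, rfl⟩
  rw [← hs2] at S2 hsum
  rw [← hs3] at S3 hsum
  rw [← hs4] at S4 hsum
  have e2 : s2 ≤ 1 / 2 * NU θ := by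
    refine S2.trans (mul_le_mul_of_nonneg_right ?_ hNU)
    rw [pow_one]
    exact one_div_le_one_div_of_le (by norm_num) hq2
  have e3 : s3 ≤ ε / 4 * NU θ := by
    refine S3.trans (mul_le_mul_of_nonneg_right ?_ hNU)
    have h1 : (2 : ℝ) ^ J ≤ (Nat.card F : ℝ) ^ (J + 1) :=
      (pow_le_pow_left₀ (by norm_num) hq2 J).trans (pow_le_pow_right₀ hq.le (Nat.le_succ J))
    have h2 : 1 / (Nat.card F : ℝ) ^ (J + 1) ≤ 1 / (2 : ℝ) ^ J :=
      one_div_le_one_div_of_le (by positivity) h1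
    rw [one_div_pow] at hJ
    linarith
  have e4 : s4 ≤ ε / 4 * NU θ := by
    have h1 : (Nat.card F : ℝ) ^ b1 ≤ (Nat.card F : ℝ) ^ finrank F B :=
      pow_le_pow_right₀ hq.le (by omega)
    have h2 : (Nat.card F : ℝ) ^ (J + finrank F D) ≤ (Nat.card F : ℝ) ^ (J + K) :=
      pow_le_pow_right₀ hq.le (by omega)
    have h3 : (Nat.card F : ℝ) ^ (J + K) ≤ ε / 4 * ((Nat.card F : ℝ) ^ finrank F B - 1) := by
      have h4 : 4 / ε * (Nat.card F : ℝ) ^ (J + K) ≤ (Nat.card F : ℝ) ^ finrank F B - 1 := by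
        linarith
      have h5 := mul_le_mul_of_nonneg_left h4 (show (0 : ℝ) ≤ ε / 4 by positivity)
      have h6 : ε / 4 * (4 / ε * (Nat.card F : ℝ) ^ (J + K)) = (Nat.card F : ℝ) ^ (J + K) := by
        field_simp
      linarith
    have h7 : 0 < (Nat.card F : ℝ) ^ finrank F B - 1 := by
      have : (1 : ℝ) < (Nat.card F : ℝ) ^ finrank F B := one_lt_pow₀ hq (by omega)
      linarith
    refine le_of_mul_le_mul_right ?_ h7
    calc s4 * ((Nat.card F : ℝ) ^ finrank F B - 1)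
        ≤ (Nat.card F : ℝ) ^ (J + finrank F D) * NU θ := S4
      _ ≤ (ε / 4 * ((Nat.card F : ℝ) ^ finrank F B - 1)) * NU θ :=
          mul_le_mul_of_nonneg_right (h2.trans h3) hNU
      _ = ε / 4 * NU θ * ((Nat.card F : ℝ) ^ finrank F B - 1) := by ring
  have e2' : κ * s2 ≤ κ * (1 / 2 * NU θ) := mul_le_mul_of_nonneg_left e2 hκ
  calc θ 1 - θ (dg l) ≤ Psi θ 1 - Psi θ l + NU θ + κ * s2 + s3 + s4 := hsum
    _ ≤ ε / 2 * NU θ + NU θ + κ * (1 / 2 * NU θ) + ε / 4 * NU θ + ε / 4 * NU θ := by linarith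
    _ = (1 + κ / 2 + ε) * NU θ := by ring

theorem bad_step (F : Type) [Field F] [Finite F] {h : ℕ} {ε : ℝ} (hε : 0 < ε) : ∃ n1 : ℕ,
    ∀ (A B : Type) [AddCommGroup A] [Module F A] [Finite A] [AddCommGroup B] [Module F B]
    [Finite B] (θ : SpecialLinearGroup F (A × B) → ℝ), HP θ → ∀ (l : Lev F A B) (a : Fˣ),
    (∀ v, l.1.1 v = (a : F) • v) → LinearEquiv.det l.1.1 = 1 → (∃ b, l.1.2 b ≠ (a : F) • b) →
    orderOf l ≤ h → n1 ≤ finrank F A → n1 ≤ finrank F B →
    θ 1 - θ (dg l) ≤ (1 + 1 / Nat.card F + ε) * NU θ := by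
  classical
  obtain ⟨R, hR⟩ := ss2 F hε h
  refine ⟨R + 2, ?_⟩
  intro A B _ _ _ _ _ _ θ hθ l a hl1 hdet hl2 ho hA hB
  have hfA : Module.Finite F A := Module.Finite.of_finite
  have hfB : Module.Finite F B := Module.Finite.of_finite
  have hfin : Finite (A →ₗ[F] B) := finite_hom
  have := Fintype.ofFinite (A →ₗ[F] B)
  have hNU : 0 ≤ NU θ := NU_nonneg hθ
  have hss := hR A B θ hθ l ho hdet (by omega) (by omega)
  obtain ⟨Z, hZ⟩ : ∃ Z : Submodule F B,
      Z = LinearMap.ker ((l.1.2 : B →ₗ[F] B) - (a : F) • LinearMap.id) := ⟨_, rfl⟩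
  have hZt : Z ≠ ⊤ := by
    intro h1
    obtain ⟨b, hb⟩ := hl2
    have h2 : b ∈ Z := by rw [h1]; trivial
    rw [hZ, LinearMap.mem_ker, LinearMap.sub_apply] at h2
    exact hb (sub_eq_zero.1 h2)
  have S1 := nu_eq hθ
  have S2 := sum_in hθ (by omega) Z hZt 1
  have hfix : ∀ M : A →ₗ[F] B, cact l M = M → ∀ v, l.1.2 (M v) = (a : F) • M v := by
    intro M hM v
    have h1 : cact l M ((a : F) • v) = M ((a : F) • v) := by rw [hM]
    have h2 : cact l M ((a : F) • v) = l.1.2 (M (l.1.1.symm ((a : F) • v))) := rfl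
    have h3 : l.1.1.symm ((a : F) • v) = v := by
      rw [LinearEquiv.symm_apply_eq, hl1]
    rw [h2, h3, map_smul] at h1
    exact h1
  have key : ∀ M : A →ₗ[F] B, phi θ M 1 - phi θ M l ≤
      (if M = 0 then Psi θ 1 - Psi θ l else 0) + (if M = 0 then 0 else phi θ M 1) +
      (if M ≠ 0 ∧ LinearMap.range M ≤ Z ∧ 1 ≤ finrank F (LinearMap.range M)
        then phi θ M 1 else 0) := by
    intro M
    by_cases hM : M = 0
    · subst hM
      rw [if_pos rfl, if_pos rfl, if_neg (fun h1 => h1.1 rfl), phi_zero, phi_zero]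
      linarith
    · have hc : 0 ≤ phi θ M 1 := phi_nonneg hθ hM
      rw [if_neg hM, if_neg hM]
      by_cases hf : cact l M = M
      · have hf' := hfix M hf
        have hrZ : LinearMap.range M ≤ Z := by
          rintro _ ⟨v, rfl⟩
          rw [hZ, LinearMap.mem_ker, LinearMap.sub_apply]
          exact sub_eq_zero.2 (hf' v)
        have hr1 : 1 ≤ finrank F (LinearMap.range M) := by
          rw [Nat.one_le_iff_ne_zero]
          intro h1
          have h2 : LinearMap.range M = ⊥ := Submodule.finrank_eq_zero.1 h1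
          exact hM (LinearMap.range_eq_bot.1 h2)
        have habs := abs_le.1 (abs_phi_le hθ hM l hf)
        rw [if_pos (show M ≠ 0 ∧ LinearMap.range M ≤ Z ∧
          1 ≤ finrank F (LinearMap.range M) from ⟨hM, hrZ, hr1⟩)]
        linarith
      · have t3 : 0 ≤ (if M ≠ 0 ∧ LinearMap.range M ≤ Z ∧ 1 ≤ finrank F (LinearMap.range M)
          then phi θ M 1 else 0) := by split_ifs <;> first | exact hc | exact le_rfl
        rw [phi_eq_zero hθ l M hf]
        linarith
  have hsum := Finset.sum_le_sum (fun M (_ : M ∈ (Finset.univ : Finset (A →ₗ[F] B))) => key M)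
  rw [Finset.sum_add_distrib, Finset.sum_add_distrib, Finset.sum_sub_distrib, ← sum_phi, ← sum_phi,
    map_one, Finset.sum_ite_eq' Finset.univ (0 : A →ₗ[F] B), if_pos (Finset.mem_univ _),
    ← S1] at hsum
  rw [pow_one] at S2
  calc θ 1 - θ (dg l) ≤ Psi θ 1 - Psi θ l + NU θ + 1 / Nat.card F * NU θ :=
        hsum.trans (add_le_add_right S2 _)
    _ ≤ ε * NU θ + NU θ + 1 / Nat.card F * NU θ := by linarith
    _ = (1 + 1 / Nat.card F + ε) * NU θ := by ring

end Pool.Agent.Helper70.GLn
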