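import Pool.Agent.Helper70.GLn.SM2

/-!
# Project GU: lower bound for the good Fourier coefficients, for elements close to the identity
(the proof is that of GLn/SM2 by helper45)
-/

set_option autoImplicit false

open Module Pool.Agent.Helper13.Ded

namespace Pool.Agent.Helper70.GLn

/-- The lower bound `- κ φ 1 ≤ φ x` for all `LHP` functions in dimension at least `n0` and all
`x` with `rank (x - 1) ≤ K`. -/
def QK (F : Type) [Field F] [Finite F] (h K : ℕ) (κ : ℝ) (n0 : ℕ) : Prop :=
  ∀ (V : Type) [AddCommGroup V] [Module F V] [Finite V], n0 ≤ finrank F V →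
    ∀ φ : SpecialLinearGroup F V → ℝ, LHP φ → ∀ x : SpecialLinearGroup F V, orderOf x ≤ h →
    finrank F (LinearMap.range (((x : V ≃ₗ[F] V) : V →ₗ[F] V) - LinearMap.id)) ≤ K →
    -(κ * φ 1) ≤ φ x

section ext28

variable {F B : Type} [Field F] [Finite F] [AddCommGroup B] [Module F B] [Finite B]
  {I B' : Submodule F B} (hc : IsCompl I B')

/-- The extension by the identity on `I`. -/
private noncomputable def extE (g : B' ≃ₗ[F] B') : B ≃ₗ[F] B :=
  (Submodule.prodEquivOfIsCompl I B' hc).symm.trans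
    ((LinearEquiv.prodCongr (LinearEquiv.refl F I) g).trans (Submodule.prodEquivOfIsCompl I B' hc))

omit [Finite F] [Finite B] in
private lemma extE_add (g : B' ≃ₗ[F] B') (x : I) (y : B') :
    extE hc g ((x : B) + y) = (x : B) + g y := by
  have h1 : ((x : B) + y) = Submodule.prodEquivOfIsCompl I B' hc (x, y) := rfl
  unfold extE
  rw [LinearEquiv.trans_apply, LinearEquiv.trans_apply, h1, LinearEquiv.symm_apply_apply]
  rfl

omit [Finite F] [Finite B] in
private lemma extE_left (g : B' ≃ₗ[F] B') (x : I) : extE hc g (x : B) = x := by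
  have h := extE_add hc g x 0
  rw [map_zero] at h
  simpa using h

omit [Finite F] [Finite B] in
private lemma extE_right (g : B' ≃ₗ[F] B') (y : B') : extE hc g (y : B) = g y := by
  have h := extE_add hc g 0 y
  simpa using h

omit [Finite F] [Finite B] in
private lemma extE_ext {f f' : B ≃ₗ[F] B} (hI : ∀ x ∈ I, f x = f' x) (hB : ∀ y ∈ B', f y = f' y)
    (hc : IsCompl I B') : f = f' := by
  apply LinearEquiv.ext
  intro v
  obtain ⟨⟨x, y⟩, rfl⟩ := (Submodule.prodEquivOfIsCompl I B' hc).surjective v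
  show f ((x : B) + y) = f' ((x : B) + y)
  rw [map_add, map_add, hI x x.2, hB y y.2]

omit [Finite F] in
private lemma det_extE (g : B' ≃ₗ[F] B') : LinearEquiv.det (extE hc g) = LinearEquiv.det g := by
  apply Units.ext
  rw [LinearEquiv.coe_det, LinearEquiv.coe_det]
  have h1 : ((extE hc g : B ≃ₗ[F] B) : B →ₗ[F] B) =
      (Submodule.prodEquivOfIsCompl I B' hc : (I × B') →ₗ[F] B) ∘ₗ
        (LinearMap.prodMap (LinearMap.id : I →ₗ[F] I) (g : B' →ₗ[F] B')) ∘ₗ
          ((Submodule.prodEquivOfIsCompl I B' hc).symm : B →ₗ[F] (I × B')) := rfl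
  rw [h1, LinearMap.det_conj, LinearMap.det_prodMap, LinearMap.det_id, one_mul]

/-- The embedding of `SL(B')`. -/
private noncomputable def iota (A : Type) [AddCommGroup A] [Module F A] [Finite A] :
    SpecialLinearGroup F B' →* Lev F A B where
  toFun g := ⟨(1, extE hc (g : B' ≃ₗ[F] B')), by
    show LinearEquiv.det (1 : A ≃ₗ[F] A) * LinearEquiv.det (extE hc (g : B' ≃ₗ[F] B')) = 1
    rw [map_one, one_mul, det_extE, g.2]⟩
  map_one' := by
    apply Subtype.ext
    refine Prod.ext rfl ?_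
    refine extE_ext (I := I) (B' := B') (fun x hx => ?_) (fun y hy => ?_) hc
    · exact extE_left hc _ ⟨x, hx⟩
    · exact extE_right hc _ ⟨y, hy⟩
  map_mul' g h := by
    apply Subtype.ext
    refine Prod.ext (one_mul _).symm ?_
    refine extE_ext (I := I) (B' := B') (fun x hx => ?_) (fun y hy => ?_) hc
    · have e1 := extE_left hc ((g * h : SpecialLinearGroup F B') : B' ≃ₗ[F] B') ⟨x, hx⟩
      have e2 := extE_left hc (g : B' ≃ₗ[F] B') ⟨x, hx⟩
      have e3 := extE_left hc (h : B' ≃ₗ[F] B') ⟨x, hx⟩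
      simp only at e1 e2 e3
      show extE hc ((g * h : SpecialLinearGroup F B') : B' ≃ₗ[F] B') x =
        extE hc (g : B' ≃ₗ[F] B') (extE hc (h : B' ≃ₗ[F] B') x)
      rw [e1, e3, e2]
    · have e1 := extE_right hc ((g * h : SpecialLinearGroup F B') : B' ≃ₗ[F] B') ⟨y, hy⟩
      have e3 := extE_right hc (h : B' ≃ₗ[F] B') ⟨y, hy⟩
      have e2 := extE_right hc (g : B' ≃ₗ[F] B') ((h : B' ≃ₗ[F] B') ⟨y, hy⟩)
      simp only at e1 e2 e3
      show extE hc ((g * h : SpecialLinearGroup F B') : B' ≃ₗ[F] B') y =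
        extE hc (g : B' ≃ₗ[F] B') (extE hc (h : B' ≃ₗ[F] B') y)
      rw [e1, e3, e2]
      rfl

omit [Finite F] in
private lemma iota_inj (A : Type) [AddCommGroup A] [Module F A] [Finite A] :
    Function.Injective (iota hc A) := by
  intro g h hgh
  have h1 : extE hc (g : B' ≃ₗ[F] B') = extE hc (h : B' ≃ₗ[F] B') :=
    congrArg (fun l : Lev F A B => l.1.2) hgh
  apply Subtype.ext
  apply LinearEquiv.ext
  intro y
  have h2 := extE_right hc (g : B' ≃ₗ[F] B') y
  rw [h1, extE_right] at h2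
  exact Subtype.ext h2.symm

end ext28

theorem good_lower2 {F A B : Type} [Field F] [Finite F] [AddCommGroup A] [Module F A] [Finite A]
    [AddCommGroup B] [Module F B] [Finite B] {θ : SpecialLinearGroup F (A × B) → ℝ} (hθ : HP θ)
    {h K n0 : ℕ} {κ : ℝ} (hQ : QK F h K κ n0) (l : Lev F A B) (hl : l.1.1 = 1) (ho : orderOf l ≤ h)
    (hK : finrank F (LinearMap.range ((l.1.2 : B →ₗ[F] B) - LinearMap.id)) ≤ K)
    {M : A →ₗ[F] B} (hM : M ≠ 0)
    (hfix : ∀ a, l.1.2 (M a) = M a)
    (hmeet : LinearMap.range M ⊓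
      LinearMap.range ((l.1.2 : B →ₗ[F] B) - LinearMap.id) = ⊥)
    (hdim : n0 + finrank F (LinearMap.range M) ≤ finrank F B) :
    -(κ * phi θ M 1) ≤ phi θ M l := by
  classical
  set z : B ≃ₗ[F] B := l.1.2 with hz
  set I := LinearMap.range M with hI
  set D := LinearMap.range ((z : B →ₗ[F] B) - LinearMap.id) with hD
  obtain ⟨C, hC⟩ := Submodule.exists_isCompl (I ⊔ D)
  have hdis : Disjoint I (D ⊔ C) :=
    Disjoint.disjoint_sup_right_of_disjoint_sup_left (disjoint_iff.2 hmeet) hC.disjoint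
  have hc : IsCompl I (D ⊔ C) := by
    refine ⟨hdis, codisjoint_iff.2 ?_⟩
    rw [← sup_assoc]
    exact hC.sup_eq_top
  set B' := D ⊔ C with hB'
  have hzB : ∀ y ∈ B', z y ∈ B' := by
    intro y hy
    have h1 : z y = y + (z y - y) := by abel
    rw [h1]
    refine B'.add_mem hy ?_
    have h2 : z y - y ∈ D := ⟨y, rfl⟩
    exact (le_sup_left : D ≤ D ⊔ C) h2
  have hzI : ∀ x ∈ I, z x = x := by
    rintro _ ⟨a, rfl⟩
    exact hfix a
  set ζ0 : B' →ₗ[F] B' := (z : B →ₗ[F] B).restrict hzB with hζ0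
  have hinj : Function.Injective ζ0 := by
    intro y y' hyy
    have h1 : z (y : B) = z y' := congrArg Subtype.val hyy
    exact Subtype.ext (z.injective h1)
  set ζ1 : B' ≃ₗ[F] B' := LinearEquiv.ofInjectiveEndo ζ0 hinj with hζ1
  have hext : extE hc ζ1 = z := by
    refine extE_ext (I := I) (B' := B') (fun x hx => ?_) (fun y hy => ?_) hc
    · rw [hzI x hx]
      exact extE_left hc _ ⟨x, hx⟩
    · exact extE_right hc ζ1 ⟨y, hy⟩
  have hdet : LinearEquiv.det ζ1 = 1 := by
    rw [← det_extE hc, hext]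
    have h1 : LinearEquiv.det l.1.1 * LinearEquiv.det l.1.2 = 1 := l.2
    rw [hl, map_one, one_mul] at h1
    exact h1
  set ζ : SpecialLinearGroup F B' := ⟨ζ1, hdet⟩ with hζ
  have hι : iota hc A ζ = l := by
    apply Subtype.ext
    exact Prod.ext hl.symm hext
  have hord : orderOf ζ = orderOf l := by
    rw [← hι, orderOf_injective (iota hc A) (iota_inj hc A)]
  have hfr : n0 ≤ finrank F B' := by
    have := Submodule.finrank_add_eq_of_isCompl hc
    omega
  have hcact : ∀ γ, cact (iota hc A γ) M = M := by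
    intro γ
    apply LinearMap.ext
    intro a
    exact extE_left hc (γ : B' ≃ₗ[F] B') ⟨M a, ⟨a, rfl⟩⟩
  have hlhp := phi_lhp hθ (iota hc A) hM hcact
  have hrk : finrank F (LinearMap.range (((ζ : B' ≃ₗ[F] B') : B' →ₗ[F] B') - LinearMap.id)) ≤
      K := by
    refine le_trans ?_ hK
    rw [← Submodule.finrank_map_subtype_eq B']
    refine Submodule.finrank_mono ?_
    rintro _ ⟨_, ⟨b, rfl⟩, rfl⟩
    exact ⟨b, rfl⟩
  have h1 := hQ B' hfr _ hlhp ζ (by rw [hord]; exact ho) hrk
  simp only [map_one, hι] at h1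
  exact h1

end Pool.Agent.Helper70.GLn
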