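import Pool.Agent.Helper70.GLu.Df
import Pool.Agent.Helper70.GLn.CY

/-!
# GU-SP: splitting a semisimple element of determinant one (100-160 lines)

PROOF. `q = |F|`. `cyclic` (GLn/CY) for `y`: `e₀ : A ≃ ∏ (i : Fin N), AdjoinRoot (g i)`, every `AdjoinRoot (g i)` has dimension `natDegree (g i) ≤ m` (`cyclic_dvd`: `g i` divides `X ^ m - 1`), so `finrank A ≤ m N` and `N ≥ q + 1` if `finrank A ≥ m (q + 1)`. For `k ≤ N` let `y_k` act as `y` on the
coordinates `i < k` and as `1` on the others (a linear equivalence; `y_0 = 1`, `y_N = y`). Among the `q` units `det (y_0), ..., det (y_(q-1))` two are equal (there are `q - 1` units): `i < k ≤ q - 1 < N`, `det y_i = det y_k`. `y₁ = y_k * y_i⁻¹` acts as `y` on the coordinates `i ≤ · < k` and as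
`1` on the others, `det y₁ = 1`, and `y₂ = y * y₁⁻¹` acts as `1` on the coordinates in `[i, k)` and as `y` on the others. All these maps commute, their `m`-th powers are `1`.
Both `y₁` and `y₂` fix the vectors of some coordinate `t` (`t = N - 1` for `y₁`, `t = i` for `y₂`) and leave invariant the subspace of all vectors with vanishing coordinate `t`. `fixline`: if `z` acts coordinatewise and as `1` on the coordinate `t`, choose
`AdjoinRoot (g t) ≃ (Fin (n - 1) → F) × F` (dimension `n ≥ 1`) and combine: `A ≃ A' × F` with `A' = (∏_{i ≠ t} AdjoinRoot (g i)) × (Fin (n - 1) → F)`; `z` acts on `A'` by a linear equivalence and as `1` on `F`. (`A' : Type`.)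
-/

set_option autoImplicit false

open Module

namespace Pool.Agent.Helper70.GLn

/-- `z` is the identity on a line which has an invariant complement. -/
def Fxl {F A : Type} [Field F] [AddCommGroup A] [Module F A] (z : A ≃ₗ[F] A) : Prop :=
  ∃ (A' : Type) (_ : AddCommGroup A') (_ : Module F A') (_ : Finite A') (e : A ≃ₗ[F] A' × F)
    (z' : A' ≃ₗ[F] A'), ∀ v, e (z v) = (z' (e v).1, (e v).2)

section SP80

open Polynomial

variable {F A : Type} [Field F] [AddCommGroup A] [Module F A] {N : ℕ} {g : Fin N → F[X]}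

/-- coordinatewise multiplication by units -/
private noncomputable def phi80 (e : A ≃ₗ[F] ((i : Fin N) → AdjoinRoot (g i))) :
    ((i : Fin N) → (AdjoinRoot (g i))ˣ) →* (A ≃ₗ[F] A) where
  toFun c :=
    { toFun := fun v => e.symm (fun i => (c i : AdjoinRoot (g i)) * e v i)
      map_add' := fun v w => by
        rw [← map_add]
        congr 1
        funext i
        rw [Pi.add_apply, map_add, Pi.add_apply, mul_add]
      map_smul' := fun a v => by
        rw [RingHom.id_apply, ← map_smul]
        congr 1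
        funext i
        rw [Pi.smul_apply, map_smul, Pi.smul_apply, mul_smul_comm]
      invFun := fun v => e.symm (fun i => ((c i)⁻¹ : (AdjoinRoot (g i))ˣ) * e v i)
      left_inv := fun v => by
        beta_reduce
        rw [LinearEquiv.apply_symm_apply]
        simp
      right_inv := fun v => by
        beta_reduce
        rw [LinearEquiv.apply_symm_apply]
        simp }
  map_one' := LinearEquiv.ext fun v => by
    show e.symm (fun i => ((1 : (AdjoinRoot (g i))ˣ) : AdjoinRoot (g i)) * e v i) = v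
    simp
  map_mul' c d := LinearEquiv.ext fun v => by
    show e.symm (fun i => ((c i * d i : (AdjoinRoot (g i))ˣ) : AdjoinRoot (g i)) * e v i) =
      e.symm (fun i => (c i : AdjoinRoot (g i)) * e (e.symm (fun i => (d i : AdjoinRoot (g i)) * e v i)) i)
    rw [LinearEquiv.apply_symm_apply]
    congr 1
    funext i
    rw [Units.val_mul, mul_assoc]

private lemma phi80_apply (e : A ≃ₗ[F] ((i : Fin N) → AdjoinRoot (g i)))
    (c : (i : Fin N) → (AdjoinRoot (g i))ˣ) (v : A) (i : Fin N) :
    e (phi80 e c v) i = (c i : AdjoinRoot (g i)) * e v i := by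
  show e (e.symm (fun i => (c i : AdjoinRoot (g i)) * e v i)) i = _
  rw [LinearEquiv.apply_symm_apply]

/-- a fixed coordinate gives a fixed line with invariant complement -/
private lemma fixline80 [Finite A] (e : A ≃ₗ[F] ((i : Fin N) → AdjoinRoot (g i)))
    (hg : ∀ i, g i ≠ 0) (hd : ∀ i, 0 < (g i).natDegree)
    (c : (i : Fin N) → (AdjoinRoot (g i))ˣ) (t : Fin N) (hc : c t = 1) : Fxl (phi80 e c) := by
  classical
  have hfr : finrank F (AdjoinRoot (g t)) = (g t).natDegree := finrank_quotient_span_eq_natDegree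
  have hpos : 0 < finrank F (AdjoinRoot (g t)) := by rw [hfr]; exact hd t
  have hfin : FiniteDimensional F (AdjoinRoot (g t)) := FiniteDimensional.of_finrank_pos hpos
  have hdim : finrank F (AdjoinRoot (g t)) = finrank F ((Fin ((g t).natDegree - 1) → F) × F) := by
    rw [finrank_prod, finrank_fin_fun, finrank_self, hfr]
    have := hd t
    omega
  let f : AdjoinRoot (g t) ≃ₗ[F] (Fin ((g t).natDegree - 1) → F) × F :=
    LinearEquiv.ofFinrankEq _ _ hdim
  let sp := Equiv.piSplitAt t (fun i => AdjoinRoot (g i))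
  let e' : A ≃ₗ[F] ((((i : {i // i ≠ t}) → AdjoinRoot (g i)) × (Fin ((g t).natDegree - 1) → F)) × F) :=
    { toFun := fun v => (((fun i => e v i), (f (e v t)).1), (f (e v t)).2)
      map_add' := fun v w => by
        simp only [map_add, Pi.add_apply, Prod.fst_add, Prod.snd_add, Prod.mk_add_mk]
        rfl
      map_smul' := fun a v => by
        simp only [map_smul, Pi.smul_apply, Prod.smul_fst, Prod.smul_snd, RingHom.id_apply,
          Prod.smul_mk]
        rfl
      invFun := fun p => e.symm (sp.symm (f.symm (p.1.2, p.2), p.1.1))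
      left_inv := fun v => by
        show e.symm (sp.symm (f.symm ((f (e v t)).1, (f (e v t)).2),
          fun i : {i // i ≠ t} => e v i)) = v
        rw [Prod.mk.eta, LinearEquiv.symm_apply_apply]
        have h1 : sp (e v) = (e v t, fun i : {i // i ≠ t} => e v i) := rfl
        rw [← h1, Equiv.symm_apply_apply, LinearEquiv.symm_apply_apply]
      right_inv := fun p => by
        obtain ⟨⟨w, r⟩, a⟩ := p
        have h1 : sp (sp.symm (f.symm (r, a), w)) = (f.symm (r, a), w) := sp.apply_symm_apply _
        have h2 : sp.symm (f.symm (r, a), w) t = f.symm (r, a) := congrArg Prod.fst h1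
        have h3 : (fun i : {i // i ≠ t} => sp.symm (f.symm (r, a), w) i) = w := congrArg Prod.snd h1
        show (((fun i : {i // i ≠ t} => e (e.symm (sp.symm (f.symm (r, a), w))) i),
          (f (e (e.symm (sp.symm (f.symm (r, a), w))) t)).1),
          (f (e (e.symm (sp.symm (f.symm (r, a), w))) t)).2) = ((w, r), a)
        rw [LinearEquiv.apply_symm_apply, h2, h3, LinearEquiv.apply_symm_apply] }
  refine ⟨((i : {i // i ≠ t}) → AdjoinRoot (g i)) × (Fin ((g t).natDegree - 1) → F),
    inferInstance, inferInstance, ?_, e', ?_, ?_⟩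
  · exact Finite.of_injective (fun w => e'.symm (w, 0)) fun a b hab => by
      have := e'.symm.injective hab
      exact congrArg Prod.fst this
  · exact
      { toFun := fun p => ((fun i => (c i : AdjoinRoot (g i)) * p.1 i), p.2)
        map_add' := fun p r => by
          refine Prod.ext (funext fun i => ?_) rfl
          show (c i : AdjoinRoot (g i)) * (p.1 i + r.1 i) = _
          rw [mul_add]
          rfl
        map_smul' := fun a p => by
          refine Prod.ext (funext fun i => ?_) rfl
          show (c i : AdjoinRoot (g i)) * (a • p.1 i) = _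
          rw [mul_smul_comm]
          rfl
        invFun := fun p => ((fun i => ((c i)⁻¹ : (AdjoinRoot (g i))ˣ) * p.1 i), p.2)
        left_inv := fun p => by
          refine Prod.ext (funext fun i => ?_) rfl
          show ((c i)⁻¹ : (AdjoinRoot (g i))ˣ) * ((c i : AdjoinRoot (g i)) * p.1 i) = p.1 i
          rw [← mul_assoc, Units.inv_mul, one_mul]
        right_inv := fun p => by
          refine Prod.ext (funext fun i => ?_) rfl
          show (c i : AdjoinRoot (g i)) * (((c i)⁻¹ : (AdjoinRoot (g i))ˣ) * p.1 i) = p.1 i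
          rw [← mul_assoc, Units.mul_inv, one_mul] }
  · intro v
    show (((fun i : {i // i ≠ t} => e (phi80 e c v) i), (f (e (phi80 e c v) t)).1),
      (f (e (phi80 e c v) t)).2) = (((fun i : {i // i ≠ t} => (c i : AdjoinRoot (g i)) * e v i),
      (f (e v t)).1), (f (e v t)).2)
    rw [phi80_apply, hc, Units.val_one, one_mul]
    refine Prod.ext (Prod.ext (funext fun i => ?_) rfl) rfl
    exact phi80_apply e c v i

end SP80

theorem exists_split {F A : Type} [Field F] [Finite F] [AddCommGroup A] [Module F A] [Finite A]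
    (y : A ≃ₗ[F] A) {m : ℕ} (hm : y ^ m = 1) (hm0 : 0 < m) (hdet : LinearEquiv.det y = 1)
    (hA : m * (Nat.card F + 1) ≤ finrank F A) :
    ∃ y₁ y₂ : A ≃ₗ[F] A, y = y₁ * y₂ ∧ Commute y₁ y₂ ∧ y₁ ^ m = 1 ∧ y₂ ^ m = 1 ∧
      LinearEquiv.det y₁ = 1 ∧ LinearEquiv.det y₂ = 1 ∧ Fxl y₁ ∧ Fxl y₂ := by
  classical
  obtain ⟨N, g, e, hgm, hgd, he⟩ := cyclic (y : A →ₗ[F] A)
  have hf : Polynomial.aeval (y : A →ₗ[F] A) ((Polynomial.X : Polynomial F) ^ m - 1) = 0 := by
    rw [map_sub, map_pow, Polynomial.aeval_X, map_one, sub_eq_zero]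
    refine LinearMap.ext fun v => ?_
    have h1 : ∀ k : ℕ, ((y : A →ₗ[F] A) ^ k) v = (y ^ k) v := by
      intro k
      induction k with
      | zero => rfl
      | succ k ih => rw [pow_succ', pow_succ', Module.End.mul_apply, ih]; rfl
    rw [h1, hm]
    rfl
  have hdvd := fun i => cyclic_dvd e he hf i
  have hX0 : (Polynomial.X : Polynomial F) ^ m - 1 ≠ 0 := by
    rw [← Polynomial.C_1]
    exact Polynomial.X_pow_sub_C_ne_zero hm0 1
  have hdeg : ∀ i, (g i).natDegree ≤ m := fun i => by
    have h1 := Polynomial.natDegree_le_of_dvd (hdvd i) hX0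
    rwa [← Polynomial.C_1, Polynomial.natDegree_X_pow_sub_C] at h1
  -- the number of factors
  have hfr : ∀ i, finrank F (AdjoinRoot (g i)) = (g i).natDegree := fun i =>
    finrank_quotient_span_eq_natDegree
  have hfd : ∀ i, FiniteDimensional F (AdjoinRoot (g i)) := fun i =>
    FiniteDimensional.of_finrank_pos (by rw [hfr]; exact hgd i)
  have hN : Nat.card F + 1 ≤ N := by
    have h1 : finrank F A = ∑ i, (g i).natDegree := by
      rw [e.finrank_eq, finrank_pi_fintype]
      exact Finset.sum_congr rfl fun i _ => hfr i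
    have h2 : ∑ i, (g i).natDegree ≤ ∑ _i : Fin N, m := Finset.sum_le_sum fun i _ => hdeg i
    rw [Finset.sum_const, Finset.card_univ, Fintype.card_fin, smul_eq_mul] at h2
    rw [h1] at hA
    have h3 := hA.trans h2
    rw [mul_comm N m] at h3
    exact Nat.le_of_mul_le_mul_left h3 hm0
  -- the units
  have hroot : ∀ i, AdjoinRoot.root (g i) ^ m = 1 := by
    intro i
    have h1 : AdjoinRoot.mk (g i) ((Polynomial.X : Polynomial F) ^ m - 1) = 0 :=
      AdjoinRoot.mk_eq_zero.2 (hdvd i)
    rw [map_sub, map_pow, AdjoinRoot.mk_X, map_one, sub_eq_zero] at h1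
    exact h1
  let u : (i : Fin N) → (AdjoinRoot (g i))ˣ := fun i => Units.ofPowEqOne _ m (hroot i) hm0.ne'
  have hu : ∀ i, (u i : AdjoinRoot (g i)) = AdjoinRoot.root (g i) := fun i => rfl
  have hum : ∀ i, u i ^ m = 1 := fun i => Units.ext (by
    rw [Units.val_pow_eq_pow_val, hu, hroot, Units.val_one])
  have hy : y = phi80 e u := by
    refine LinearEquiv.ext fun v => e.injective (funext fun i => ?_)
    rw [phi80_apply, hu]
    exact he v i
  let cc : (Fin N → Prop) → (i : Fin N) → (AdjoinRoot (g i))ˣ := fun s i => if s i then u i else 1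
  have hccm : ∀ s, cc s ^ m = 1 := by
    intro s
    funext i
    rw [Pi.pow_apply, Pi.one_apply]
    by_cases h : s i
    · simp only [cc, if_pos h]; exact hum i
    · simp only [cc, if_neg h]; exact one_pow _
  -- pigeonhole
  obtain ⟨a, b, hab, hba⟩ : ∃ a b : Fin (Nat.card F), a ≠ b ∧
      LinearEquiv.det (phi80 e (cc fun i => (i : ℕ) < a)) =
      LinearEquiv.det (phi80 e (cc fun i => (i : ℕ) < b)) := by
    have hq : 0 < Nat.card F := Nat.card_pos
    have : Fintype Fˣ := Fintype.ofFinite _
    refine Fintype.exists_ne_map_eq_of_card_lt (fun a : Fin (Nat.card F) =>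
      LinearEquiv.det (phi80 e (cc fun i => (i : ℕ) < a))) ?_
    rw [Fintype.card_fin, ← Nat.card_eq_fintype_card, Nat.card_units]
    omega
  have key : ∀ a b : ℕ, a < b → b < Nat.card F →
      LinearEquiv.det (phi80 e (cc fun i => (i : ℕ) < a)) =
        LinearEquiv.det (phi80 e (cc fun i => (i : ℕ) < b)) →
      ∃ y₁ y₂ : A ≃ₗ[F] A, y = y₁ * y₂ ∧ Commute y₁ y₂ ∧ y₁ ^ m = 1 ∧ y₂ ^ m = 1 ∧
      LinearEquiv.det y₁ = 1 ∧ LinearEquiv.det y₂ = 1 ∧ Fxl y₁ ∧ Fxl y₂ := by
    intro a b hab hb hdd
    have e1 : (cc fun i => (i : ℕ) < b) = (cc fun i => (i : ℕ) < a) *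
        (cc fun i => a ≤ (i : ℕ) ∧ (i : ℕ) < b) := by
      funext i
      simp only [cc, Pi.mul_apply]
      by_cases h1 : (i : ℕ) < a
      · rw [if_pos h1, if_pos (h1.trans hab), if_neg (by omega), mul_one]
      · rw [if_neg h1, one_mul]
        by_cases h2 : (i : ℕ) < b
        · rw [if_pos h2, if_pos ⟨by omega, h2⟩]
        · rw [if_neg h2, if_neg (by omega)]
    have e2 : u = (cc fun i => a ≤ (i : ℕ) ∧ (i : ℕ) < b) *
        (cc fun i => ¬ (a ≤ (i : ℕ) ∧ (i : ℕ) < b)) := by
      funext i
      simp only [cc, Pi.mul_apply]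
      by_cases h1 : a ≤ (i : ℕ) ∧ (i : ℕ) < b
      · rw [if_pos h1, if_neg (not_not.2 h1), mul_one]
      · rw [if_neg h1, if_pos h1, one_mul]
    have d1 : LinearEquiv.det (phi80 e (cc fun i => a ≤ (i : ℕ) ∧ (i : ℕ) < b)) = 1 := by
      rw [e1, map_mul, map_mul] at hdd
      exact (mul_eq_left.1 hdd.symm)
    have d2 : LinearEquiv.det (phi80 e (cc fun i => ¬ (a ≤ (i : ℕ) ∧ (i : ℕ) < b))) = 1 := by
      rw [hy, e2, map_mul, map_mul, d1, one_mul] at hdet
      exact hdet
    refine ⟨phi80 e (cc fun i => a ≤ (i : ℕ) ∧ (i : ℕ) < b),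
      phi80 e (cc fun i => ¬ (a ≤ (i : ℕ) ∧ (i : ℕ) < b)), ?_, ?_, ?_, ?_, d1, d2, ?_, ?_⟩
    · rw [← map_mul, ← e2, hy]
    · exact (Commute.all _ _).map (phi80 e)
    · rw [← map_pow, hccm, map_one]
    · rw [← map_pow, hccm, map_one]
    · refine fixline80 e (fun i => (hgm i).ne_zero) hgd _ ⟨N - 1, by omega⟩ ?_
      simp only [cc]
      rw [if_neg]
      intro h
      have h2 : N - 1 < b := h.2
      omega
    · refine fixline80 e (fun i => (hgm i).ne_zero) hgd _ ⟨a, by omega⟩ ?_
      simp only [cc]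
      rw [if_neg]
      intro h
      exact h ⟨le_rfl, hab⟩
  rcases lt_or_gt_of_ne (fun h => hab (Fin.ext h) : (a : ℕ) ≠ b) with h | h
  · exact key a b h b.2 hba
  · exact key b a h a.2 hba.symm

end Pool.Agent.Helper70.GLn
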