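import Pool.Agent.Helper70.GLu.CT
import Pool.Agent.Helper70.GLu.RF
import Pool.Agent.Helper70.GLu.SP

/-!
# GU-US: unipotent elements control all elements of bounded order of `SL(A)` (120-200 lines)

PROOF. `q = |F|`, `p` the characteristic, `m = p ^ a * m'` with `m'` prime to `p`. `s = q + m`.
`us_fxl`: let `y ∈ SL(A)`, `y ^ m' = 1`, with `Fxl`: `e : A ≃ A' × F`, `e (y v) = (z' (e v).1, (e v).2)`. `det z' = 1` and `z' ^ m' = 1`. Let `t : SL(A' × F) →* SL(A)`, `t g = e⁻¹ g e`, `Θ' = Θ ∘ t`, `Φ = Θ' ∘ kap` on `GL(A')`, both `HP` (`HP.comp`). The unipotent hypothesis passes to `Θ'` and to `Φ`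
(for `w ∈ GL(A')` unipotent `det w = 1`, `(w - 1) ^ s = 0` gives `(kap w - 1) ^ s = 0`); the reflections of `Φ` have defect at most `q η` (`refl_sl`). `ctl_gl` with `q η` (`η ≥ 0`) gives `Φ 1 - Φ z' ≤ C q η`, and `t (kap z') = y`.
`us`: `y ∈ SL(A)`, `y ^ m = 1`. There are powers `u`, `v` of `y` with `y = u v`, `u ^ (p ^ a) = 1`, `v ^ m' = 1`. `(u - 1) ^ (p ^ a) = 0`, `p ^ a ≤ m ≤ s`, so `u` has defect at most `η`. `exists_split` for `v`: `v = v₁ v₂`, both of determinant 1 (elements of `SL(A)`), both with `Fxl`; `dfc_mul` twice: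
`Θ 1 - Θ y ≤ 2 η + 2 (2 C q η + 2 C q η)`. (`R = m (q + 1) + R₁ + 1`; `finrank A' = finrank A - 1`.)
-/

set_option autoImplicit false

open Module Pool.Agent.Helper13.Ded

namespace Pool.Agent.Helper70.GLn

private lemma coe_pow_h75 {F A : Type} [Field F] [AddCommGroup A] [Module F A] (w : A ≃ₗ[F] A)
    (k : ℕ) : ((w ^ k : A ≃ₗ[F] A) : A →ₗ[F] A) = (w : A →ₗ[F] A) ^ k :=
  map_pow (LinearEquiv.automorphismGroup.toLinearMapMonoidHom) w k

private lemma sub_pow_h75 {F A : Type} [Field F] [AddCommGroup A] [Module F A] [Nontrivial A]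
    {p : ℕ} [Fact p.Prime] [CharP F p] (w : A ≃ₗ[F] A) (k : ℕ) :
    ((w : A →ₗ[F] A) - LinearMap.id) ^ (p ^ k) =
      ((w ^ (p ^ k) : A ≃ₗ[F] A) : A →ₗ[F] A) - LinearMap.id := by
  have hch : CharP (Module.End F A) p :=
    charP_of_injective_algebraMap (algebraMap F (Module.End F A)).injective p
  rw [coe_pow_h75]
  have h1 := sub_pow_char_pow_of_commute (R := Module.End F A) (p := p)
    (n := k) (x := (w : A →ₗ[F] A)) (y := 1) (Commute.one_right _)
  rw [one_pow] at h1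
  exact h1

private lemma det_uni_h75 {F A : Type} [Field F] [Finite F] [AddCommGroup A] [Module F A]
    [Finite A] [Nontrivial A] {w : A ≃ₗ[F] A} {s : ℕ}
    (hw : ((w : A →ₗ[F] A) - LinearMap.id) ^ s = 0) : LinearEquiv.det w = 1 := by
  obtain ⟨p, hp⟩ := CharP.exists F
  have hpp : Fact p.Prime := ⟨(CharP.char_is_prime_or_zero F p).resolve_right
    (CharP.char_ne_zero_of_finite F p)⟩
  have h1 : ((w : A →ₗ[F] A) - LinearMap.id) ^ (p ^ s) = 0 :=
    pow_eq_zero_of_le (Nat.lt_pow_self hpp.out.one_lt).le hw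
  rw [sub_pow_h75, sub_eq_zero] at h1
  have h2 : w ^ (p ^ s) = 1 := LinearEquiv.toLinearMap_injective h1
  refine det_eq_one h2 (Nat.Coprime.pow_left _ ?_)
  rw [hpp.out.coprime_iff_not_dvd]
  intro h3
  have h4 : p ∣ Nat.card F := by
    have h5 := (CharP.cast_eq_zero_iff F p (Nat.card F)).1 (by
      have := Fintype.ofFinite F
      rw [Nat.card_eq_fintype_card]
      exact FiniteField.cast_card_eq_zero F)
    exact h5
  have h6 : 1 ≤ Nat.card F := Nat.card_pos
  have h7 : p ∣ 1 := by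
    have := (Nat.dvd_sub h4 h3)
    rwa [Nat.sub_sub_self h6] at this
  exact hpp.out.one_lt.ne' (Nat.dvd_one.1 h7)

private lemma semi_h75 {F A B : Type} [Field F] [AddCommGroup A] [Module F A] [AddCommGroup B]
    [Module F B] (f : A →ₗ[F] A) (g : B →ₗ[F] B) (e : A ≃ₗ[F] B) (h : ∀ v, e (f v) = g (e v))
    (k : ℕ) (v : A) : e ((f ^ k) v) = (g ^ k) (e v) := by
  induction k with
  | zero => rfl
  | succ k ih =>
    rw [pow_succ', pow_succ', Module.End.mul_apply, Module.End.mul_apply, h, ih]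

private lemma kap_pow_h75 {F A : Type} [Field F] [AddCommGroup A] [Module F A] (W : A →ₗ[F] A)
    (K : (A × F) →ₗ[F] (A × F)) (hK : ∀ u, K u = (W u.1, 0)) (k : ℕ) (v : A × F) :
    (K ^ (k + 1)) v = ((W ^ (k + 1)) v.1, 0) := by
  induction k with
  | zero =>
    rw [zero_add, pow_one, pow_one]
    exact hK v
  | succ k ih =>
    rw [pow_succ', Module.End.mul_apply, ih, pow_succ' _ (k + 1), Module.End.mul_apply]
    exact hK _

private lemma us_fxl_h75 {F : Type} [Field F] [Finite F] {m : ℕ} {C : ℝ} {R : ℕ}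
    (hctl : ∀ (A : Type) [AddCommGroup A] [Module F A] [Finite A] (s : ℕ) (η : ℝ)
      (Φ : (A ≃ₗ[F] A) → ℝ), Nat.card F ≤ s → HP Φ → R ≤ finrank F A →
      (∀ w : A ≃ₗ[F] A, ((w : A →ₗ[F] A) - LinearMap.id) ^ s = 0 → Φ 1 - Φ w ≤ η) →
      (∀ (A₂ : Type) [AddCommGroup A₂] [Module F A₂] (e' : A ≃ₗ[F] F × A₂) (c : Fˣ),
        Φ 1 - Φ (cj e' (fs A₂ (scal F c))) ≤ η) →
      ∀ y : A ≃ₗ[F] A, y ^ m = 1 → Φ 1 - Φ y ≤ C * η)
    {A : Type} [AddCommGroup A] [Module F A] [Finite A] {s : ℕ} {η : ℝ}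
    {Θ : SpecialLinearGroup F A → ℝ} (hΘ : HP Θ) (hR : R + 1 ≤ finrank F A)
    (hR' : Nat.card F + 1 ≤ finrank F A) (hs : Nat.card F ≤ s) (hη : 0 ≤ η)
    (hu : ∀ w : SpecialLinearGroup F A,
      (((w : A ≃ₗ[F] A) : A →ₗ[F] A) - LinearMap.id) ^ s = 0 → Θ 1 - Θ w ≤ η)
    (y : SpecialLinearGroup F A) (hy : y ^ m = 1) (hf : Fxl (y : A ≃ₗ[F] A)) :
    Θ 1 - Θ y ≤ C * (Nat.card F * η) := by
  obtain ⟨A', _, _, _, e, z', he⟩ := hf
  have hfA : Module.Finite F A := Module.Finite.of_finite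
  have hfA' : Module.Finite F A' := Module.Finite.of_finite
  have hfin : finrank F A = finrank F A' + 1 := by
    rw [e.finrank_eq, finrank_prod, finrank_self]
  have hq1 : 1 ≤ Nat.card F := Nat.card_pos
  have hnt : Nontrivial A' := by
    apply Module.nontrivial_of_finrank_pos (R := F)
    omega
  set t : SpecialLinearGroup F (A' × F) →* SpecialLinearGroup F A :=
    (SpecialLinearGroup.congr_linearEquiv e.symm).toMonoidHom with htdef
  have ht : ∀ g v, t g v = e.symm (g (e v)) := fun g v => rfl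
  have hcj : (y : A ≃ₗ[F] A) = cj e (fs F z') := by
    refine LinearEquiv.ext fun v => ?_
    rw [cj_apply, fs_apply, ← he, e.symm_apply_apply]
  have hdet : LinearEquiv.det z' = 1 := by
    have h1 : LinearEquiv.det (cj e (fs F z')) = 1 := by rw [← hcj]; exact y.2
    have h2 : LinearEquiv.det (cj e (fs F z')) = LinearEquiv.det (fs F z') :=
      LinearEquiv.det_conj (fs F z') e.symm
    rw [h2] at h1
    apply Units.ext
    have h3 := congrArg Units.val h1
    rw [LinearEquiv.coe_det] at h3 ⊢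
    have h4 : ((fs F z' : (A' × F) ≃ₗ[F] (A' × F)) : (A' × F) →ₗ[F] (A' × F)) =
      LinearMap.prodMap (z' : A' →ₗ[F] A') LinearMap.id := rfl
    rw [h4, LinearMap.det_prodMap, LinearMap.det_id, mul_one] at h3
    exact h3
  have hz : z' ^ m = 1 := by
    refine LinearEquiv.ext fun x => ?_
    have h1 : ∀ k : ℕ, ∀ v, e (((y : A ≃ₗ[F] A) ^ k) v) = ((z' ^ k) (e v).1, (e v).2) := by
      intro k
      induction k with
      | zero => intro v; rfl
      | succ k ih =>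
        intro v
        rw [pow_succ', pow_succ', LinearEquiv.mul_apply, LinearEquiv.mul_apply, he, ih]
    have h2 : (y : A ≃ₗ[F] A) ^ m = 1 := by
      have := congrArg Subtype.val hy
      exact this
    have h3 := h1 m (e.symm (x, 0))
    rw [h2, e.apply_symm_apply] at h3
    have h4 := congrArg Prod.fst h3
    have h5 : e ((1 : A ≃ₗ[F] A) (e.symm (x, 0))) = (x, 0) := e.apply_symm_apply _
    rw [h5] at h4
    exact h4.symm
  have hΘ' : HP (fun g => Θ (t g)) := hΘ.comp t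
  have hΦ : HP (fun g : A' ≃ₗ[F] A' => Θ (t (kap g))) := hΘ'.comp (kap (F := F) (A := A'))
  have hu' : ∀ w : SpecialLinearGroup F (A' × F),
      (((w : (A' × F) ≃ₗ[F] (A' × F)) : (A' × F) →ₗ[F] (A' × F)) - LinearMap.id) ^ s = 0 →
      Θ (t 1) - Θ (t w) ≤ η := by
    intro w hw
    rw [map_one]
    apply hu
    refine LinearMap.ext fun v => ?_
    apply e.injective
    rw [semi_h75 _ ((((w : (A' × F) ≃ₗ[F] (A' × F)) : (A' × F) →ₗ[F] (A' × F)) -
      LinearMap.id)) e ?_ s v, hw]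
    · exact (map_zero e).symm
    · intro u
      change e (t w u - u) = w (e u) - e u
      rw [map_sub, ht, e.apply_symm_apply]
  have h := hctl A' s (Nat.card F * η) (fun g => Θ (t (kap g))) hs hΦ (by omega) ?_ ?_ z' hz
  · have h1 : t (kap (1 : A' ≃ₗ[F] A')) = 1 := by rw [map_one, map_one]
    have h2 : t (kap z') = y := by
      apply SpecialLinearGroup.ext
      intro v
      rw [ht, kap_apply, hdet, inv_one, Units.val_one, one_mul]
      change e.symm (z' (e v).1, (e v).2) = (y : A ≃ₗ[F] A) v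
      rw [← he, e.symm_apply_apply]
    rw [h1, h2] at h
    exact h
  · intro w hw
    have h1 : Θ (t 1) - Θ (t (kap w)) ≤ η := by
      apply hu'
      obtain ⟨k, rfl⟩ : ∃ k, s = k + 1 := ⟨s - 1, by omega⟩
      refine LinearMap.ext fun v => ?_
      have h2 := kap_pow_h75 ((w : A' →ₗ[F] A') - LinearMap.id)
        ((((kap w : SpecialLinearGroup F (A' × F)) : (A' × F) ≃ₗ[F] (A' × F)) :
          (A' × F) →ₗ[F] (A' × F)) - LinearMap.id) (fun u => ?_) k v
      · rw [hw] at h2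
        exact h2
      · have h1 : (kap w : SpecialLinearGroup F (A' × F)) u = (w u.1, u.2) := by
          rw [kap_apply, det_uni_h75 hw, inv_one, Units.val_one, one_mul]
        change (kap w : SpecialLinearGroup F (A' × F)) u - u = _
        rw [h1]
        exact Prod.ext rfl (sub_self _)
    have h3 : (1 : ℝ) ≤ Nat.card F := by exact_mod_cast hq1
    have h4 : t (kap (1 : A' ≃ₗ[F] A')) = t 1 := by rw [map_one]
    change Θ (t (kap (1 : A' ≃ₗ[F] A'))) - Θ (t (kap w)) ≤ _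
    rw [h4]
    nlinarith
  · intro A₂ _ _ e' c
    have h1 := refl_sl (F := F) (A := A') (A₂ := A₂) (by omega) hs hΘ' hu' e' c
    have h4 : t (kap (1 : A' ≃ₗ[F] A')) = t 1 := by rw [map_one]
    change Θ (t (kap (1 : A' ≃ₗ[F] A'))) - Θ (t (kap _)) ≤ _
    rw [h4]
    exact h1

theorem us (F : Type) [Field F] [Finite F] {m : ℕ} (hm : 0 < m) :
    ∃ (s : ℕ) (C : ℝ) (R : ℕ), 0 < s ∧ 0 ≤ C ∧
    ∀ (A : Type) [AddCommGroup A] [Module F A] [Finite A] (η : ℝ)
    (Θ : SpecialLinearGroup F A → ℝ), HP Θ → R ≤ finrank F A →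
    (∀ w : SpecialLinearGroup F A,
      (((w : A ≃ₗ[F] A) : A →ₗ[F] A) - LinearMap.id) ^ s = 0 → Θ 1 - Θ w ≤ η) →
    ∀ y : SpecialLinearGroup F A, y ^ m = 1 → Θ 1 - Θ y ≤ C * η := by
  classical
  obtain ⟨p, hp⟩ := CharP.exists F
  have hpp : Fact p.Prime := ⟨(CharP.char_is_prime_or_zero F p).resolve_right
    (CharP.char_ne_zero_of_finite F p)⟩
  obtain ⟨a, m', hm', hmm⟩ := Nat.exists_eq_pow_mul_and_not_dvd hm.ne' p hpp.out.ne_one
  have hm'0 : 0 < m' := by
    rcases Nat.eq_zero_or_pos m' with h | h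
    · rw [h, mul_zero] at hmm; omega
    · exact h
  have hq1 : 1 ≤ Nat.card F := Nat.card_pos
  have hcop : m'.Coprime (Nat.card F) := by
    have hft : Fintype F := Fintype.ofFinite F
    obtain ⟨n, -, hn⟩ := FiniteField.card F p
    rw [Nat.card_eq_fintype_card, hn]
    exact Nat.Coprime.pow_right _ ((hpp.out.coprime_iff_not_dvd).2 hm').symm
  obtain ⟨C, R, hC, hctl⟩ := ctl_gl F hm'0 hcop
  refine ⟨Nat.card F + m, 2 + 8 * C * Nat.card F, m * (Nat.card F + 1) + R + 1, by omega,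
    by positivity, ?_⟩
  intro A _ _ _ η Θ hΘ hR hu y hy
  have hfA : Module.Finite F A := Module.Finite.of_finite
  have hη : 0 ≤ η := by
    have h1 := hu 1 (by
      have h2 : ((((1 : SpecialLinearGroup F A) : A ≃ₗ[F] A) : A →ₗ[F] A) - LinearMap.id) = 0 :=
        sub_self _
      rw [h2]
      exact zero_pow (by omega))
    rwa [sub_self] at h1
  have hmq : Nat.card F + 1 ≤ m * (Nat.card F + 1) := Nat.le_mul_of_pos_left _ hm
  have hnt : Nontrivial A := by
    apply Module.nontrivial_of_finrank_pos (R := F)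
    omega
  have hcop2 : (p ^ a).Coprime m' := Nat.Coprime.pow_left _
    ((hpp.out.coprime_iff_not_dvd).2 hm')
  obtain ⟨k, hk1, hk2⟩ := Nat.chineseRemainder hcop2 1 0
  obtain ⟨l, hl1, hl2⟩ := Nat.chineseRemainder hcop2 0 1
  have hkl : k + l ≡ 1 [MOD m] := by
    rw [hmm]
    refine (Nat.modEq_and_modEq_iff_modEq_mul hcop2).1 ⟨?_, ?_⟩
    · exact hk1.add hl1
    · exact hk2.add hl2
  have hyuv : y = y ^ k * y ^ l := by
    rw [← pow_add]
    have h1 : y ^ (k + l) = y ^ 1 := by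
      rw [pow_eq_pow_iff_modEq]
      exact hkl.of_dvd (orderOf_dvd_of_pow_eq_one hy)
    rw [h1, pow_one]
  have hu1 : (y ^ k) ^ (p ^ a) = 1 := by
    rw [← pow_mul]
    have h1 : m ∣ k * p ^ a := by
      rw [hmm, mul_comm (p ^ a)]
      exact Nat.mul_dvd_mul_right ((Nat.modEq_zero_iff_dvd).1 hk2) _
    obtain ⟨c, hc⟩ := h1
    rw [hc, pow_mul, hy, one_pow]
  have hv1 : (y ^ l) ^ m' = 1 := by
    rw [← pow_mul]
    have h1 : m ∣ l * m' := by
      rw [hmm]
      exact Nat.mul_dvd_mul_right ((Nat.modEq_zero_iff_dvd).1 hl1) _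
    obtain ⟨c, hc⟩ := h1
    rw [hc, pow_mul, hy, one_pow]
  have hpa : p ^ a ≤ Nat.card F + m := by
    have h1 : p ^ a ≤ m := by
      conv_rhs => rw [hmm]
      exact Nat.le_mul_of_pos_right _ hm'0
    omega
  have hU : Θ 1 - Θ (y ^ k) ≤ η := by
    apply hu
    apply pow_eq_zero_of_le hpa
    rw [sub_pow_h75]
    have h1 : ((y ^ k : SpecialLinearGroup F A) : A ≃ₗ[F] A) ^ (p ^ a) = 1 :=
      congrArg Subtype.val hu1
    rw [h1]
    exact sub_self _
  have hv2 : ((y ^ l : SpecialLinearGroup F A) : A ≃ₗ[F] A) ^ m' = 1 := congrArg Subtype.val hv1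
  have hmm2 : m' * (Nat.card F + 1) ≤ finrank F A := by
    have h1 : m' ≤ m := by
      conv_rhs => rw [hmm]
      exact Nat.le_mul_of_pos_left _ (pow_pos hpp.out.pos _)
    have h2 : m' * (Nat.card F + 1) ≤ m * (Nat.card F + 1) := Nat.mul_le_mul_right _ h1
    omega
  obtain ⟨y₁, y₂, h12, hc12, hy1, hy2, hd1, hd2, hf1, hf2⟩ :=
    exists_split ((y ^ l : SpecialLinearGroup F A) : A ≃ₗ[F] A) hv2 hm'0 (y ^ l).2 hmm2
  have hY1 : Θ 1 - Θ ⟨y₁, hd1⟩ ≤ C * (Nat.card F * η) :=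
    us_fxl_h75 hctl hΘ (by omega) (by omega) (by omega) hη hu ⟨y₁, hd1⟩ (Subtype.ext hy1) hf1
  have hY2 : Θ 1 - Θ ⟨y₂, hd2⟩ ≤ C * (Nat.card F * η) :=
    us_fxl_h75 hctl hΘ (by omega) (by omega) (by omega) hη hu ⟨y₂, hd2⟩ (Subtype.ext hy2) hf2
  have hV : Θ 1 - Θ (y ^ l) ≤ 2 * (C * (Nat.card F * η)) + 2 * (C * (Nat.card F * η)) := by
    have h1 : y ^ l = (⟨y₁, hd1⟩ : SpecialLinearGroup F A) * ⟨y₂, hd2⟩ := Subtype.ext h12
    have h2 : Commute (⟨y₁, hd1⟩ : SpecialLinearGroup F A) ⟨y₂, hd2⟩ := Subtype.ext hc12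
    have h3 := dfc_mul hΘ h2
    rw [h1]
    linarith
  have hfinal := dfc_mul hΘ ((Commute.refl y).pow_pow k l)
  rw [← hyuv] at hfinal
  have h9 : (2 + 8 * C * Nat.card F) * η = 2 * η +
    2 * (2 * (C * (Nat.card F * η)) + 2 * (C * (Nat.card F * η))) := by ring
  rw [h9]
  linarith

end Pool.Agent.Helper70.GLn
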