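import Pool.Agent.Helper70.GLu.Df

/-!
# GU-WB: the wreath configuration in a big space (150-220 lines)

PROOF. Fix `r ≥ 2`. MODEL: `M = (ZMod r → P) × Z`, `Z = Fin d → F`. `sh (f, c) = (i ↦ f (i - 1), c)`, `at i g` acts by `g` on the coordinate `i`; `sh ^ k * at 0 g * (sh ^ k)⁻¹ = at k g` (COPY the private lemmas of GLn/WR.lean: `atc70`, `shf70`, `shf_pow70`, `shf_conj70`, `atc_comm70`, `spl70`, and
the construction of the transport `e` in the proof of `wreath` there). If `e : A ≃ P × Q` and `r * finrank P ≤ finrank A` there is `ε : A ≃ M` with `cj e (fs Q g) = cj ε (at 0 g)` for all `g` (same construction: `Q ≃ ({i // i ≠ 0} → P) × Z` by dimensions).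
`frob_big` (`r = p`): `w = cj ε sh`, `w ^ p = 1`, so `(w - 1) ^ p = 0` (`unip70` in GLn/WR) and `Φ 1 - Φ w ≤ η`. `Y = cj e (fs Q y)`, `T = cj e (fs Q τ)`: the `w^i Y w^-i` commute, `T Y T⁻¹ = Y ^ j`, `T` commutes with `w Y w⁻¹` (coordinates `0`, `1`).
As in `nn_le_of_wreath` (GLn/GR3, copy its proof up to `y ∈ closure`): `c = Y * (w Y w⁻¹)⁻¹ ∈ commSub`, `nn (zpowers c) ≤ Φ 1 - Φ w`, `c' = T c T⁻¹ = Y ^ j (w Y w⁻¹)⁻¹`, `c' c⁻¹ = Y ^ j Y⁻¹ ∈ closure {c, c'}`; `nn_prod_le`.
`bunch_big` (`r = p ^ k ≥ q - 1`): here `P₁ = P' ^ (q - 1)` in the following sense: `finrank P₁ = (q - 1) a`; `P' = Fin a → F`; since `r a ≤ finrank A` there is `ε : A ≃ (ZMod r → P') × Z` such that `cj e (fs P₂ (scal c)) = cj ε (D)` where `D` multiplies the coordinates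
`i = 0, ..., q - 2` by `c` and fixes the others (`P₁ ≃ (Fin (q - 1) → P')` by dimensions, and `P₂ ≃ (the other coordinates) × Z`). `w = cj ε sh`, `w ^ r = 1`, so `(w - 1) ^ r = 0` (`r = p ^ k`; `sub_pow_char_pow`-like, see `unip_h27` in GLn/SS), so `(w - 1) ^ s = 0` for `s ≥ r`.
`Y` = the group of the diagonal maps `(i ↦ c ^ (n i))` on the coordinates, abelian, normalised by `w`. `D = b * w * b⁻¹ * w⁻¹` with `b i = c ^ (i + 1)` for `i < q - 1`, `b i = 1` for `i ≥ q - 1` (`c ^ (q - 1) = 1`; `b i / b (i - 1) = c` for `0 ≤ i < q - 1`, `b (-1) = 1`, also when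
`r = q - 1`). So `D ∈ commSub Y w`, `nn (zpowers D) ≤ Φ 1 - Φ w ≤ η` and `Φ 1 - Φ D ≤ |zpowers D| η ≤ (q - 1) η` (`sub_le_card_nn`). Any `r = p ^ k` with `q - 1 ≤ p ^ k` will do, e.g. the power with `p ^ k = q`, so `r = q`.
-/

set_option autoImplicit false

open Module Pool.Agent.Helper13.Ded

namespace Pool.Agent.Helper70.GLn

open Pool.Agent.Helper94.Ded

private theorem unipw40 {F A : Type} [Field F] [AddCommGroup A] [Module F A] {p : ℕ}
    (hp : p.Prime) [CharP F p] {k : ℕ} {v : A ≃ₗ[F] A} (hv : v ^ (p ^ k) = 1) :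
    ((v : A →ₗ[F] A) - LinearMap.id) ^ (p ^ k) = 0 := by
  have h1 : (1 : Module.End F A) + ((v : A →ₗ[F] A) - LinearMap.id) = (v : A →ₗ[F] A) := by
    have : (LinearMap.id : A →ₗ[F] A) = 1 := rfl
    rw [this]
    abel
  have hc : Commute (1 : Module.End F A) ((v : A →ₗ[F] A) - LinearMap.id) := Commute.one_left _
  obtain ⟨r, hr⟩ := hc.exists_add_pow_prime_pow_eq hp k
  have h3 : (p : Module.End F A) = 0 := by
    ext v
    rw [Module.End.natCast_apply, ← Nat.cast_smul_eq_nsmul F, CharP.cast_eq_zero, zero_smul]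
    rfl
  have h4 : ∀ n : ℕ, ((v ^ n : A ≃ₗ[F] A) : A →ₗ[F] A) = (v : A →ₗ[F] A) ^ n := by
    intro n
    induction n with
    | zero => rfl
    | succ n ih => rw [pow_succ, pow_succ, ← ih]; rfl
  rw [h1, h3, ← h4, hv] at hr
  simp only [zero_mul, one_pow, add_zero] at hr
  have h5 : (1 : Module.End F A) = 1 + ((v : A →ₗ[F] A) - LinearMap.id) ^ (p ^ k) := hr
  exact (left_eq_add.1 h5)

section model

variable {F P : Type} [Field F] [AddCommGroup P] [Module F P] (p d : ℕ)

/-- The operator at one coordinate. -/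
private def atcw40 (i : ZMod p) : (P ≃ₗ[F] P) →*
    (((ZMod p → P) × (Fin d → F)) ≃ₗ[F] ((ZMod p → P) × (Fin d → F))) where
  toFun τ := LinearEquiv.prodCongr
    (LinearEquiv.piCongrRight fun j => if j = i then τ else LinearEquiv.refl F P)
    (LinearEquiv.refl F _)
  map_one' := by
    refine LinearEquiv.ext fun v => Prod.ext ?_ rfl
    funext j
    show (if j = i then (1 : P ≃ₗ[F] P) else LinearEquiv.refl F P) (v.1 j) = v.1 j
    split_ifs <;> rfl
  map_mul' a b := by
    refine LinearEquiv.ext fun v => Prod.ext ?_ rfl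
    funext j
    show (if j = i then (a * b) else LinearEquiv.refl F P) (v.1 j) =
      (if j = i then a else LinearEquiv.refl F P)
        ((if j = i then b else LinearEquiv.refl F P) (v.1 j))
    split_ifs <;> rfl

private lemma atc_applyw40 (i : ZMod p) (τ : P ≃ₗ[F] P) (v : (ZMod p → P) × (Fin d → F)) :
    atcw40 (F := F) p d i τ v = ((fun j => if j = i then τ (v.1 j) else v.1 j), v.2) := by
  refine Prod.ext ?_ rfl
  funext j
  show (if j = i then τ else LinearEquiv.refl F P) (v.1 j) = if j = i then τ (v.1 j) else v.1 j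
  split_ifs <;> rfl

/-- The cyclic shift. -/
private def shfw40 : ((ZMod p → P) × (Fin d → F)) ≃ₗ[F] ((ZMod p → P) × (Fin d → F)) :=
  LinearEquiv.prodCongr (LinearEquiv.funCongrLeft F P (Equiv.subRight (1 : ZMod p)))
    (LinearEquiv.refl F _)

private lemma shf_applyw40 (v : (ZMod p → P) × (Fin d → F)) :
    shfw40 (F := F) p d v = ((fun j => v.1 (j - 1)), v.2) := rfl

private lemma shf_poww40 (k : ℕ) (v : (ZMod p → P) × (Fin d → F)) :
    (shfw40 (F := F) p d ^ k) v = ((fun j => v.1 (j - k)), v.2) := by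
  induction k generalizing v with
  | zero => simp
  | succ k ih =>
    rw [pow_succ]
    show (shfw40 (F := F) p d ^ k) (shfw40 (F := F) p d v) = _
    rw [ih, shf_applyw40]
    refine Prod.ext ?_ rfl
    funext j
    show v.1 (j - k - 1) = v.1 (j - ((k + 1 : ℕ) : ZMod p))
    congr 1
    rw [Nat.cast_add, Nat.cast_one, sub_sub]

private lemma shf_conjw40 (k : ℕ) (τ : P ≃ₗ[F] P) :
    shfw40 (F := F) p d ^ k * atcw40 p d 0 τ * (shfw40 (F := F) p d ^ k)⁻¹ = atcw40 p d k τ := by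
  rw [mul_inv_eq_iff_eq_mul]
  refine LinearEquiv.ext fun v => ?_
  show (shfw40 (F := F) p d ^ k) (atcw40 p d 0 τ v) = atcw40 p d k τ ((shfw40 (F := F) p d ^ k) v)
  rw [shf_poww40, atc_applyw40, atc_applyw40, shf_poww40]
  refine Prod.ext ?_ rfl
  funext j
  show (if j - (k : ZMod p) = 0 then τ (v.1 (j - k)) else v.1 (j - k)) =
    if j = (k : ZMod p) then τ (v.1 (j - k)) else v.1 (j - k)
  simp only [sub_eq_zero]

private lemma atc_commw40 (i j : ZMod p) (τ : P ≃ₗ[F] P) :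
    Commute (atcw40 (F := F) p d i τ) (atcw40 p d j τ) := by
  refine LinearEquiv.ext fun v => ?_
  show atcw40 p d i τ (atcw40 p d j τ v) = atcw40 p d j τ (atcw40 p d i τ v)
  simp only [atc_applyw40]
  refine Prod.ext ?_ rfl
  funext k
  show (if k = i then τ (if k = j then τ (v.1 k) else v.1 k) else
    if k = j then τ (v.1 k) else v.1 k) = if k = j then τ (if k = i then τ (v.1 k) else v.1 k) else
      if k = i then τ (v.1 k) else v.1 k
  split_ifs <;> rfl

private lemma atc_comm'w40 {i j : ZMod p} (hij : i ≠ j) (τ σ : P ≃ₗ[F] P) :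
    Commute (atcw40 (F := F) p d i σ) (atcw40 p d j τ) := by
  refine LinearEquiv.ext fun v => ?_
  show atcw40 p d i σ (atcw40 p d j τ v) = atcw40 p d j τ (atcw40 p d i σ v)
  simp only [atc_applyw40]
  refine Prod.ext ?_ rfl
  funext k
  show (if k = i then σ (if k = j then τ (v.1 k) else v.1 k) else
    if k = j then τ (v.1 k) else v.1 k) = if k = j then τ (if k = i then σ (v.1 k) else v.1 k) else
      if k = i then σ (v.1 k) else v.1 k
  by_cases h1 : k = i
  · have h2 : k ≠ j := fun h => hij (h1.symm.trans h)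
    simp [h1, hij]
  · simp [h1]

/-- Splitting off the coordinate `0`. -/
private def splw40 : (ZMod p → P) ≃ₗ[F] (P × ({i : ZMod p // i ≠ 0} → P)) where
  toFun f := (f 0, fun i => f i)
  map_add' _ _ := rfl
  map_smul' _ _ := rfl
  invFun u := fun i => if h : i = 0 then u.1 else u.2 ⟨i, h⟩
  left_inv f := by
    funext i
    by_cases h : i = 0
    · simp [h]
    · simp [h]
  right_inv u := by
    refine Prod.ext ?_ ?_
    · simp
    · funext i
      have := i.2
      simp [this]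

end model


private theorem wreath_gen40 {G : Type*} [Group G] [Finite G] {θ : G → ℝ} (h : HP θ) (w y τ : G)
    (j : ℕ) (hc : ∀ i j : ℕ, Commute (w ^ i * y * (w ^ i)⁻¹) (w ^ j * y * (w ^ j)⁻¹))
    (hτ : τ * y * τ⁻¹ = y ^ j) (hτ1 : Commute τ (w * y * w⁻¹)) :
    nn θ (Subgroup.zpowers (y ^ j * y⁻¹)) ≤ 2 * (θ 1 - θ w) := by
  set Y := Subgroup.closure (Set.range fun i : ℕ => w ^ i * y * (w ^ i)⁻¹) with hY
  have hYc : ∀ a ∈ Y, ∀ b ∈ Y, a * b = b * a := by
    apply closure_comm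
    rintro _ ⟨i, rfl⟩ _ ⟨j, rfl⟩
    exact hc i j
  have hYw : ∀ a ∈ Y, w * a * w⁻¹ ∈ Y := by
    apply closure_conj
    rintro _ ⟨i, rfl⟩
    refine ⟨i + 1, ?_⟩
    show w ^ (i + 1) * y * (w ^ (i + 1))⁻¹ = w * (w ^ i * y * (w ^ i)⁻¹) * w⁻¹
    rw [pow_succ']
    group
  have hyY : y ∈ Y := Subgroup.subset_closure ⟨0, by simp⟩
  have hy1 : w * y * w⁻¹ ∈ Y := hYw y hyY
  set c := y * (w * y * w⁻¹)⁻¹ with hcdef
  set c' := y ^ j * (w * y * w⁻¹)⁻¹ with hcdef'
  have hcY : c ∈ Y := Y.mul_mem hyY (Y.inv_mem hy1)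
  have hcY' : c' ∈ Y := Y.mul_mem (Y.pow_mem hyY j) (Y.inv_mem hy1)
  have h1 : nn θ (Subgroup.zpowers c) ≤ θ 1 - θ w := by
    refine le_trans (nn_mono_comm h (K' := commSub Y w hYc hYw) ?_ ?_)
      (nn_commSub_le h Y w hYc hYw)
    · rw [Subgroup.zpowers_le]
      refine ⟨y, hyY, ?_⟩
      rw [hcdef]
      group
    · intro a ha b hb
      exact hYc a (commSub_le ha) b (commSub_le hb)
  have h2 : nn θ (Subgroup.zpowers c') = nn θ (Subgroup.zpowers c) := by
    rw [← nn_conj h τ (Subgroup.zpowers c), MonoidHom.map_zpowers]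
    congr 2
    show c' = τ * c * τ⁻¹
    have e1 : τ * c * τ⁻¹ = (τ * y * τ⁻¹) * (τ * (w * y * w⁻¹) * τ⁻¹)⁻¹ := by
      rw [hcdef]
      group
    rw [e1, hτ, hτ1.eq, mul_inv_cancel_right]
  have h3 : c' * c⁻¹ = y ^ j * y⁻¹ := by
    rw [hcdef, hcdef']
    group
  have h4 := nn_prod_le h ![c, c'] (by
    intro i j
    have hh : ∀ i : Fin 2, (![c, c'] : Fin 2 → G) i ∈ Y := by
      intro i
      fin_cases i
      · exact hcY
      · exact hcY'
    exact hYc _ (hh i) _ (hh j)) (y ^ j * y⁻¹) (by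
    rw [← h3]
    apply Subgroup.mul_mem
    · exact Subgroup.subset_closure ⟨1, rfl⟩
    · apply Subgroup.inv_mem
      exact Subgroup.subset_closure ⟨0, rfl⟩)
  rw [Fin.sum_univ_two] at h4
  have h5 : nn θ (Subgroup.zpowers ((![c, c'] : Fin 2 → G) 0)) = nn θ (Subgroup.zpowers c) := rfl
  have h6 : nn θ (Subgroup.zpowers ((![c, c'] : Fin 2 → G) 1)) = nn θ (Subgroup.zpowers c') := rfl
  rw [h5, h6, h2] at h4
  linarith

private theorem transport40 {F A P Q : Type} [Field F] [Finite F] [AddCommGroup A] [Module F A]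
    [Finite A] [AddCommGroup P] [Module F P] [AddCommGroup Q] [Module F Q] (e : A ≃ₗ[F] P × Q)
    (r : ℕ) [NeZero r] (hd : r * finrank F P ≤ finrank F A) :
    ∃ (d : ℕ) (ε : A ≃ₗ[F] (ZMod r → P) × (Fin d → F)), ∀ g : P ≃ₗ[F] P,
      cj e (fs Q g) = cj ε (atcw40 r d 0 g) := by
  have hPQ : Finite (P × Q) := Finite.of_equiv A e.toEquiv
  have hP : Finite P := Finite.of_surjective (Prod.fst : P × Q → P) Prod.fst_surjective
  have hQ : Finite Q := Finite.of_surjective (Prod.snd : P × Q → Q) Prod.snd_surjective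
  have hPm : Module.Finite F P := Module.Finite.of_finite
  have hQm : Module.Finite F Q := Module.Finite.of_finite
  obtain ⟨d, hd'⟩ := Nat.exists_eq_add_of_le hd
  have hQfin : finrank F A = finrank F P + finrank F Q := by
    rw [e.finrank_eq, finrank_prod]
  have hspl := (splw40 (F := F) (P := P) r).finrank_eq
  rw [finrank_prod, finrank_pi_fintype] at hspl
  simp only [Finset.sum_const, Finset.card_univ, ZMod.card, smul_eq_mul] at hspl
  have hQ' : finrank F Q = finrank F (({i : ZMod r // i ≠ 0} → P) × (Fin d → F)) := by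
    rw [finrank_prod, finrank_pi, Fintype.card_fin]
    omega
  let eQ : Q ≃ₗ[F] (({i : ZMod r // i ≠ 0} → P) × (Fin d → F)) := LinearEquiv.ofFinrankEq _ _ hQ'
  let E : (P × Q) ≃ₗ[F] (ZMod r → P) × (Fin d → F) :=
    (((LinearEquiv.refl F P).prodCongr eQ).trans
      ((LinearEquiv.prodAssoc F P ({i : ZMod r // i ≠ 0} → P) (Fin d → F)).symm.trans
        ((splw40 (F := F) (P := P) r).symm.prodCongr (LinearEquiv.refl F _))))
  have hE : ∀ (u : P) (v : Q), E (u, v) =
      ((fun i => if h : i = 0 then u else (eQ v).1 ⟨i, h⟩), (eQ v).2) := fun u v => rfl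
  refine ⟨d, e.trans E, fun g => LinearEquiv.ext fun a => ?_⟩
  apply (e.trans E).injective
  rw [cj_apply, cj_apply, LinearEquiv.apply_symm_apply]
  show E (e (e.symm (fs Q g (e a)))) = atcw40 r d 0 g (E (e a))
  rw [e.apply_symm_apply, fs_apply]
  obtain ⟨⟨u, v⟩, huv⟩ : ∃ z : P × Q, z = e a := ⟨_, rfl⟩
  rw [← huv, hE, hE, atc_applyw40]
  refine Prod.ext ?_ rfl
  funext j
  by_cases hj : j = 0
  · simp [hj]
  · simp [hj]

theorem frob_big {F A P Q : Type} [Field F] [Finite F] [AddCommGroup A] [Module F A] [Finite A]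
    [AddCommGroup P] [Module F P] [AddCommGroup Q] [Module F Q] (e : A ≃ₗ[F] P × Q)
    (hd : Nat.card F * finrank F P ≤ finrank F A) {s : ℕ} (hs : Nat.card F ≤ s) {η : ℝ}
    {Φ : (A ≃ₗ[F] A) → ℝ} (hΦ : HP Φ)
    (hu : ∀ w : A ≃ₗ[F] A, ((w : A →ₗ[F] A) - LinearMap.id) ^ s = 0 → Φ 1 - Φ w ≤ η)
    (y τ : P ≃ₗ[F] P) (j : ℕ) (hτ : τ * y * τ⁻¹ = y ^ j) :
    nn Φ (Subgroup.zpowers (cj e (fs Q (y ^ j * y⁻¹)))) ≤ 2 * η := by
  obtain ⟨p, hpF⟩ := CharP.exists F
  have hp : p.Prime := CharP.char_is_prime F p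
  have hz : NeZero p := ⟨hp.ne_zero⟩
  have hpq : p ≤ Nat.card F := by
    have := Fintype.ofFinite F
    obtain ⟨k, -, hk⟩ := FiniteField.card F p
    rw [Nat.card_eq_fintype_card, hk]
    exact Nat.le_self_pow k.ne_zero p
  obtain ⟨d, ε, hε⟩ := transport40 e p ((Nat.mul_le_mul_right _ hpq).trans hd)
  have hshp : shfw40 (F := F) (P := P) p d ^ p = 1 := by
    refine LinearEquiv.ext fun v => ?_
    rw [shf_poww40]
    simp
  set w : A ≃ₗ[F] A := cj ε (shfw40 p d) with hw
  have hw1 : Φ 1 - Φ w ≤ η := by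
    apply hu
    have h1 : w ^ p ^ 1 = 1 := by rw [pow_one, hw, ← map_pow, hshp, map_one]
    have h2 := unipw40 hp h1
    rw [pow_one] at h2
    exact pow_eq_zero_of_le (hpq.trans hs) h2
  have hconj : ∀ (g : P ≃ₗ[F] P) (k : ℕ), w ^ k * cj e (fs Q g) * (w ^ k)⁻¹ =
      cj ε (atcw40 p d k g) := by
    intro g k
    rw [← shf_conjw40, map_mul, map_mul, map_inv, map_pow, hε]
  have h01 : (0 : ZMod p) ≠ 1 := by
    have : Fact (1 < p) := ⟨hp.one_lt⟩
    exact zero_ne_one
  have key := wreath_gen40 hΦ w (cj e (fs Q y)) (cj e (fs Q τ)) j (by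
      intro i k
      rw [hconj, hconj]
      exact (atc_commw40 p d i k y).map (cj ε)) (by
      rw [← map_inv, ← map_inv, ← map_mul, ← map_mul, ← map_mul, ← map_mul, hτ, map_pow, map_pow])
      (by
      have h2 := hconj y 1
      rw [pow_one, Nat.cast_one] at h2
      rw [h2, hε]
      exact (atc_comm'w40 p d h01 y τ).map (cj ε))
  have h3 : cj e (fs Q (y ^ j * y⁻¹)) = cj e (fs Q y) ^ j * (cj e (fs Q y))⁻¹ := by
    rw [map_mul, map_mul, map_pow, map_pow, map_inv, map_inv]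
  rw [h3]
  linarith

section bunch

variable {F P : Type} [Field F] [AddCommGroup P] [Module F P] (r d : ℕ)

/-- The diagonal operators. -/
private def dia40 : (ZMod r → Fˣ) →*
    (((ZMod r → P) × (Fin d → F)) ≃ₗ[F] ((ZMod r → P) × (Fin d → F))) where
  toFun δ := LinearEquiv.prodCongr
    (LinearEquiv.piCongrRight fun j => LinearEquiv.smulOfUnit (δ j))
    (LinearEquiv.refl F _)
  map_one' := by
    refine LinearEquiv.ext fun v => Prod.ext ?_ rfl
    funext j
    show ((1 : Fˣ) : F) • v.1 j = v.1 j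
    rw [Units.val_one, one_smul]
  map_mul' a b := by
    refine LinearEquiv.ext fun v => Prod.ext ?_ rfl
    funext j
    show ((a j * b j : Fˣ) : F) • v.1 j = (a j : F) • ((b j : F) • v.1 j)
    rw [Units.val_mul, mul_smul]

private lemma dia_apply40 (δ : ZMod r → Fˣ) (v : (ZMod r → P) × (Fin d → F)) :
    dia40 (F := F) (P := P) r d δ v = ((fun j => (δ j : F) • v.1 j), v.2) := rfl

private lemma shf_dia40 (δ : ZMod r → Fˣ) :
    shfw40 (F := F) (P := P) r d * dia40 r d δ * (shfw40 (F := F) (P := P) r d)⁻¹ =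
      dia40 r d (fun j => δ (j - 1)) := by
  rw [mul_inv_eq_iff_eq_mul]
  refine LinearEquiv.ext fun v => ?_
  show shfw40 r d (dia40 r d δ v) = dia40 r d (fun j => δ (j - 1)) (shfw40 r d v)
  rw [shf_applyw40, dia_apply40, dia_apply40, shf_applyw40]

/-- Splitting off the coordinate `-1`. -/
private def spm40 : (ZMod r → P) ≃ₗ[F] (({i : ZMod r // i ≠ -1} → P) × P) where
  toFun f := (fun i => f i, f (-1))
  map_add' _ _ := rfl
  map_smul' _ _ := rfl
  invFun u := fun i => if h : i = -1 then u.2 else u.1 ⟨i, h⟩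
  left_inv f := by
    funext i
    by_cases h : i = -1
    · simp [h]
    · simp [h]
  right_inv u := by
    refine Prod.ext ?_ ?_
    · funext i
      have := i.2
      simp [this]
    · simp

end bunch

theorem bunch_big {F A P Q : Type} [Field F] [Finite F] [AddCommGroup A] [Module F A] [Finite A]
    [AddCommGroup P] [Module F P] [AddCommGroup Q] [Module F Q] (e : A ≃ₗ[F] P × Q)
    (hd : Nat.card F * finrank F P ≤ finrank F A) (hq : (Nat.card F - 1) ∣ finrank F P) {s : ℕ}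
    (hs : Nat.card F ≤ s) {η : ℝ} {Φ : (A ≃ₗ[F] A) → ℝ} (hΦ : HP Φ)
    (hu : ∀ w : A ≃ₗ[F] A, ((w : A →ₗ[F] A) - LinearMap.id) ^ s = 0 → Φ 1 - Φ w ≤ η) (c : Fˣ) :
    Φ 1 - Φ (cj e (fs Q (scal P c))) ≤ Nat.card F * η := by
  obtain ⟨p, hpF⟩ := CharP.exists F
  have hp : p.Prime := CharP.char_is_prime F p
  have hPQ : Finite (P × Q) := Finite.of_equiv A e.toEquiv
  have hP : Finite P := Finite.of_surjective (Prod.fst : P × Q → P) Prod.fst_surjective
  have hQ : Finite Q := Finite.of_surjective (Prod.snd : P × Q → Q) Prod.snd_surjective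
  have hPm : Module.Finite F P := Module.Finite.of_finite
  have hQm : Module.Finite F Q := Module.Finite.of_finite
  have hcq : c ^ (Nat.card F - 1) = 1 := by
    have := Fintype.ofFinite F
    rw [Nat.card_eq_fintype_card]
    exact Units.ext (by
      rw [Units.val_pow_eq_pow_val, Units.val_one]
      exact FiniteField.pow_card_sub_one_eq_one _ c.ne_zero)
  obtain ⟨k, hk⟩ : ∃ k : ℕ, Nat.card F = p ^ k := by
    have := Fintype.ofFinite F
    obtain ⟨k, -, hk⟩ := FiniteField.card F p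
    exact ⟨k, by rw [Nat.card_eq_fintype_card, hk]⟩
  have hq2 : 2 ≤ Nat.card F := Finite.one_lt_card
  generalize hqr : Nat.card F = q at *
  have hz : NeZero q := ⟨by omega⟩
  obtain ⟨a, ha⟩ := hq
  have hqa : (q - 1) * a + a = q * a := by
    obtain ⟨m, rfl⟩ : ∃ m, q = m + 1 := ⟨q - 1, by omega⟩
    rw [Nat.add_sub_cancel]
    ring
  have hle : q * a ≤ finrank F A := by
    refine le_trans (Nat.mul_le_mul_left q ?_) hd
    rw [ha]
    exact Nat.le_mul_of_pos_left a (by omega)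
  obtain ⟨d, hd'⟩ := Nat.exists_eq_add_of_le hle
  have hQfin : finrank F A = finrank F P + finrank F Q := by
    rw [e.finrank_eq, finrank_prod]
  have hspl := (spm40 (F := F) (P := Fin a → F) q).finrank_eq
  rw [finrank_prod, finrank_pi_fintype] at hspl
  simp only [Finset.sum_const, Finset.card_univ, ZMod.card, smul_eq_mul, finrank_pi,
    Fintype.card_fin] at hspl
  have hP' : finrank F P = finrank F ({i : ZMod q // i ≠ -1} → (Fin a → F)) := by
    rw [ha]
    omega
  have hQ' : finrank F Q = finrank F ((Fin a → F) × (Fin d → F)) := by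
    rw [finrank_prod, finrank_pi, finrank_pi, Fintype.card_fin, Fintype.card_fin]
    omega
  let eP : P ≃ₗ[F] ({i : ZMod q // i ≠ -1} → (Fin a → F)) := LinearEquiv.ofFinrankEq _ _ hP'
  let eQ : Q ≃ₗ[F] ((Fin a → F) × (Fin d → F)) := LinearEquiv.ofFinrankEq _ _ hQ'
  let E : (P × Q) ≃ₗ[F] (ZMod q → (Fin a → F)) × (Fin d → F) :=
    ((eP.prodCongr eQ).trans
      ((LinearEquiv.prodAssoc F ({i : ZMod q // i ≠ -1} → (Fin a → F)) (Fin a → F)
        (Fin d → F)).symm.trans
        ((spm40 (F := F) (P := Fin a → F) q).symm.prodCongr (LinearEquiv.refl F _))))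
  have hE : ∀ (u : P) (v : Q), E (u, v) =
      ((fun i => if h : i = -1 then (eQ v).1 else eP u ⟨i, h⟩), (eQ v).2) := fun u v => rfl
  set ε : A ≃ₗ[F] (ZMod q → (Fin a → F)) × (Fin d → F) := e.trans E with hε
  set δ : ZMod q → Fˣ := fun i => if i = -1 then 1 else c with hδ
  have hD : cj e (fs Q (scal P c)) = cj ε (dia40 q d δ) := by
    refine LinearEquiv.ext fun x => ?_
    apply ε.injective
    rw [cj_apply, cj_apply, LinearEquiv.apply_symm_apply]
    show E (e (e.symm (fs Q (scal P c) (e x)))) = dia40 q d δ (E (e x))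
    rw [e.apply_symm_apply, fs_apply, scal_apply]
    obtain ⟨⟨u, v⟩, huv⟩ : ∃ z : P × Q, z = e x := ⟨_, rfl⟩
    rw [← huv, hE, hE, dia_apply40]
    refine Prod.ext ?_ rfl
    funext j
    by_cases hj : j = -1
    · simp [hj, hδ]
    · simp [hj, hδ]
  set β : ZMod q → Fˣ := fun i => c ^ (i + 1).val with hβ
  have hβδ : δ = β * (fun j => β (j - 1))⁻¹ := by
    funext j
    show δ j = β j * (β (j - 1))⁻¹
    rw [eq_mul_inv_iff_mul_eq, hβ, hδ]
    show (if j = -1 then 1 else c) * c ^ (j - 1 + 1).val = c ^ (j + 1).val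
    rw [sub_add_cancel]
    have hlt : j.val < q := ZMod.val_lt j
    by_cases hj : j = -1
    · rw [if_pos hj, one_mul, hj, neg_add_cancel, ZMod.val_zero, pow_zero]
      obtain ⟨m, hm⟩ : ∃ m, q = m + 1 := ⟨q - 1, by omega⟩
      subst hm
      rw [ZMod.val_neg_one]
      exact hcq
    · rw [if_neg hj, ← pow_succ']
      congr 1
      have hne : j.val + 1 ≠ q := by
        intro h
        apply hj
        rw [eq_neg_iff_add_eq_zero]
        have h2 : ((j.val + 1 : ℕ) : ZMod q) = 0 := by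
          rw [h]
          exact ZMod.natCast_self q
        rw [Nat.cast_add, ZMod.natCast_zmod_val, Nat.cast_one] at h2
        exact h2
      have hlt1 : j.val + 1 < q := by omega
      rw [ZMod.val_add, ZMod.val_one'' (by omega), Nat.mod_eq_of_lt hlt1]
  have hshq : shfw40 (F := F) (P := Fin a → F) q d ^ q = 1 := by
    refine LinearEquiv.ext fun v => ?_
    rw [shf_poww40]
    simp
  set w : A ≃ₗ[F] A := cj ε (shfw40 q d) with hw
  have hw1 : Φ 1 - Φ w ≤ η := by
    apply hu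
    have h1 : w ^ p ^ k = 1 := by rw [← hk, hw, ← map_pow, hshq, map_one]
    have h2 := unipw40 hp h1
    rw [← hk] at h2
    exact pow_eq_zero_of_le hs h2
  set Y : Subgroup (A ≃ₗ[F] A) :=
    ((dia40 (F := F) (P := Fin a → F) q d).range).map (cj ε) with hY
  have hYc : ∀ x ∈ Y, ∀ y ∈ Y, x * y = y * x := by
    rintro _ ⟨_, ⟨x, rfl⟩, rfl⟩ _ ⟨_, ⟨y, rfl⟩, rfl⟩
    rw [← map_mul, ← map_mul, ← map_mul, ← map_mul, mul_comm]
  have hYw : ∀ x ∈ Y, w * x * w⁻¹ ∈ Y := by
    rintro _ ⟨_, ⟨x, rfl⟩, rfl⟩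
    refine ⟨_, ⟨fun j => x (j - 1), rfl⟩, ?_⟩
    rw [hw, ← map_inv, ← map_mul, ← map_mul, shf_dia40]
  set D : A ≃ₗ[F] A := cj ε (dia40 q d δ) with hDdef
  have hDm : D ∈ commSub Y w hYc hYw := by
    refine ⟨cj ε (dia40 q d β), ⟨_, ⟨β, rfl⟩, rfl⟩, ?_⟩
    have e1 : cj ε (dia40 q d β) * w * (cj ε (dia40 q d β))⁻¹ * w⁻¹ =
        cj ε (dia40 q d β * (shfw40 q d * dia40 q d β * (shfw40 q d)⁻¹)⁻¹) := by
      rw [hw]
      simp only [map_mul, map_inv]
      group
    rw [e1, shf_dia40, ← map_inv, ← map_mul, ← hβδ]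
  have hDq : D ^ (q - 1) = 1 := by
    rw [hDdef, ← map_pow, ← map_pow]
    have : δ ^ (q - 1) = 1 := by
      funext j
      show (if j = -1 then (1 : Fˣ) else c) ^ (q - 1) = 1
      split_ifs
      · exact one_pow _
      · exact hcq
    rw [this, map_one, map_one]
  have hcard : Nat.card (Subgroup.zpowers D) ≤ q := by
    rw [Nat.card_zpowers]
    exact (orderOf_le_of_pow_eq_one (by omega) hDq).trans (Nat.sub_le q 1)
  have hnn : nn Φ (Subgroup.zpowers D) ≤ η := by
    refine le_trans (nn_mono_comm hΦ (K' := commSub Y w hYc hYw) ?_ ?_)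
      ((nn_commSub_le hΦ Y w hYc hYw).trans hw1)
    · rw [Subgroup.zpowers_le]
      exact hDm
    · intro x hx y hy
      exact hYc x (commSub_le hx) y (commSub_le hy)
  have h0 : 0 ≤ nn Φ (Subgroup.zpowers D) := nn_nonneg hΦ _
  rw [hD]
  refine (sub_le_card_nn hΦ _ D (Subgroup.mem_zpowers D)).trans ?_
  refine mul_le_mul (by exact_mod_cast hcard) hnn h0 (by positivity)

end Pool.Agent.Helper70.GLn
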